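import Pool.Agent.Lib.MP_c05127_co.PP.SpecE

/-!
# MP_c05127_co, project PP: the final statement from its parts
-/

set_option autoImplicit false

open scoped Classical

namespace Pool.Agent.Lib.MP_c05127_co.PP

open Pool.Agent.Lib.MP_c05127_co.Brief

theorem wFinalE (h1 : S_Fink) (h2 : S_Gen1k) (h3 : S_Gen2k) : S_Final := by
  intro d k r A hk hkd hr hA hc h
  rcases h with h | h
  · exact h1 d k r A hk hkd hr hA hc h
  · by_cases hs : d ≤ ∑ i, r i
    · exact h1 d k r A hk hkd hr hA hc (h2 d _ r A h hs)
    · have hr1 : ∀ i, 1 ≤ r i := fun i => by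
        obtain ⟨e, he⟩ := hr i
        rw [he]
        exact Nat.one_le_two_pow
      refine h3 d k _ r A (by omega) hk hkd hr1 hA (fun i => ?_) h (by omega)
      rw [hc i]
      have h4 : 1 * (r i - 1) ≤ (k + 1) * (r i - 1) := Nat.mul_le_mul_right _ (by omega)
      have h5 := hr1 i
      omega

end Pool.Agent.Lib.MP_c05127_co.PP
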