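import Pool.Agent.Lib.MP_c05127_co.PP.SpecE

set_option autoImplicit false

open scoped Classical

namespace Pool.Agent.Lib.MP_c05127_co.PP

open Pool.Agent.Lib.MP_c05127_co.Brief

theorem wGen1k : S_Gen1k := by
  intro d m r A hgen hsum u hu
  by_contra hcon
  push Not at hcon
  set S : Finset (Aff d) :=
    Finset.univ.biUnion (fun i => (A i).filter (fun h => In (dir h) u)) with hS
  have hcard : d ≤ S.card := by
    rw [hS, Finset.card_biUnion]
    · exact hsum.trans (Finset.sum_le_sum fun i _ => hcon i)
    · intro i _ j _ hij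
      exact Finset.disjoint_of_subset_left (Finset.filter_subset _ _)
        (Finset.disjoint_of_subset_right (Finset.filter_subset _ _) (hgen.1 i j hij))
  obtain ⟨T, hTS, hT⟩ := Finset.exists_subset_card_eq hcard
  have hmem : ∀ h ∈ T, (∃ i, h ∈ A i) ∧ In (dir h) u := by
    intro h hh
    have h1 := hTS hh
    rw [hS, Finset.mem_biUnion] at h1
    obtain ⟨i, _, h2⟩ := h1
    rw [Finset.mem_filter] at h2
    exact ⟨⟨i, h2.1⟩, h2.2⟩
  have h3 := hgen.2 T (fun h hh => (hmem h hh).1) hT.le
  have h4 : dim (meet T) = 0 := by omega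
  have h5 : meet T = ⊥ := Submodule.finrank_eq_zero.mp h4
  have h6 : u ∈ meet T := by
    unfold meet
    rw [Submodule.mem_iInf]
    intro h
    rw [Submodule.mem_iInf]
    intro hh
    exact (hmem h hh).2
  rw [h5, Submodule.mem_bot] at h6
  exact hu h6

end Pool.Agent.Lib.MP_c05127_co.PP
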