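import Pool.Agent.Lib.MP_c05127_co.PP.SpecE
import Pool.Agent.Lib.MP_c05127_co.Hyp

/-!
# MP_c05127_co, project PP: the trivial case `∑ r i ≤ d` of general position (`S_Gen2k`)
-/

set_option autoImplicit false

open scoped Classical

namespace Pool.Agent.Lib.MP_c05127_co.PP

open Pool.Agent.Lib.MP_c05127_co.Brief

namespace Gen2k

private theorem one_le_RD {d : ℕ} {A : Finset (Aff d)} {q : E d} {L : Sub d} {h : Aff d}
    (hh : h ∈ A) (hq : On h q) (hqL : In L q) (hq0 : q ≠ 0) : 1 ≤ RD A q L := by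
  unfold RD
  refine le_csInf ⟨_, q, hqL, hq0, rfl⟩ ?_
  rintro n ⟨v, _, _, rfl⟩
  refine Finset.card_pos.mpr ⟨h, ?_⟩
  rw [Finset.mem_filter]
  refine ⟨hh, Or.inl ⟨0, le_rfl, ?_⟩⟩
  rw [zero_smul, add_zero]
  exact hq

private theorem exists_sub {d : ℕ} {q : E d} (hq : q ≠ 0) :
    ∀ k : ℕ, 1 ≤ k → k ≤ d → ∃ L : Submodule ℝ (E d), Module.finrank ℝ L = k ∧ q ∈ L := by
  intro k hk
  induction k, hk using Nat.le_induction with
  | base =>
    intro _
    exact ⟨Submodule.span ℝ {q}, finrank_span_singleton hq, Submodule.mem_span_singleton_self q⟩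
  | succ k hk ih =>
    intro hkd
    obtain ⟨L, hL, hqL⟩ := ih (by omega)
    have hne : ∃ x : E d, x ∉ L := by
      by_contra hcon
      push Not at hcon
      have h1 : L = ⊤ := by
        rw [eq_top_iff]
        intro x _
        exact hcon x
      rw [h1, finrank_top, finrank_euclideanSpace_fin] at hL
      omega
    obtain ⟨x, hx⟩ := hne
    have hx0 : x ≠ 0 := by
      rintro rfl
      exact hx L.zero_mem
    have hdis : Disjoint L (Submodule.span ℝ {x}) :=
      (Submodule.disjoint_span_singleton' hx0).mpr hx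
    refine ⟨L ⊔ Submodule.span ℝ {x}, ?_, Submodule.mem_sup_left hqL⟩
    have h1 := Submodule.finrank_sup_add_finrank_inf_eq L (Submodule.span ℝ {x})
    rw [hdis.eq_bot, finrank_bot, hL, finrank_span_singleton hx0] at h1
    omega

end Gen2k

open Gen2k in
theorem wGen2k : S_Gen2k := by
  intro d k m r A hm hk hkd hr hA hcard hG hsum
  choose B hBA hBc using fun i => Finset.exists_subset_card_eq (hcard i)
  set S : Finset (Aff d) := Finset.univ.biUnion B with hSdef
  have hBS : ∀ i, B i ⊆ S := fun i h hh => Finset.mem_biUnion.mpr ⟨i, Finset.mem_univ i, hh⟩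
  have hSm : ∀ h ∈ S, ∃ i, h ∈ B i := by
    intro h hh
    obtain ⟨i, _, hi⟩ := Finset.mem_biUnion.mp hh
    exact ⟨i, hi⟩
  have hScard : S.card = ∑ i, r i := by
    rw [hSdef, Finset.card_biUnion]
    · exact Finset.sum_congr rfl fun i _ => hBc i
    · intro i _ j _ hij
      exact Finset.disjoint_of_subset_left (hBA i)
        (Finset.disjoint_of_subset_right (hBA j) (hG.1 i j hij))
  have hfin := hG.2 S (fun h hh => by
    obtain ⟨i, hi⟩ := hSm h hh
    exact ⟨i, hBA i hi⟩) (by omega)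
  have hN : ∀ h : S, ∃ a : E d, a ≠ 0 ∧ (∀ x, x ∈ (h : Aff d) ↔ inner ℝ a x = (1 : ℝ)) ∧
      ∀ x, x ∈ (h : Aff d).direction ↔ inner ℝ a x = (0 : ℝ) := by
    intro h
    obtain ⟨i, hi⟩ := hSm h h.2
    have h1 := hA i h (hBA i hi)
    exact hypStmt d h h1.1 h1.2.1 h1.2.2
  choose a ha using hN
  set Φ : E d →ₗ[ℝ] (S → ℝ) :=
    LinearMap.pi (fun h => (innerSL ℝ (a h)).toLinearMap) with hΦ
  have hΦa : ∀ x h, Φ x h = inner ℝ (a h) x := fun x h => rfl
  have hker : LinearMap.ker Φ = ⨅ g ∈ S, g.direction := by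
    ext x
    rw [LinearMap.mem_ker, Submodule.mem_iInf]
    constructor
    · intro hx g
      rw [Submodule.mem_iInf]
      intro hg
      rw [(ha ⟨g, hg⟩).2.2 x, ← hΦa, hx]
      rfl
    · intro hx
      funext h
      rw [hΦa]
      have h1 := hx h
      rw [Submodule.mem_iInf] at h1
      have h2 := h1 h.2
      rw [(ha h).2.2 x] at h2
      rw [h2]
      rfl
  have hfin' : Module.finrank ℝ (⨅ g ∈ S, g.direction : Submodule ℝ (E d)) + S.card = d := hfin
  have hrange : LinearMap.range Φ = ⊤ := by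
    apply Submodule.eq_top_of_finrank_eq
    have h1 := LinearMap.finrank_range_add_finrank_ker Φ
    rw [finrank_euclideanSpace_fin, hker] at h1
    rw [Module.finrank_fintype_fun_eq_card, Fintype.card_coe]
    omega
  obtain ⟨q, hq⟩ : ∃ q, Φ q = fun _ => 1 := by
    have h1 : (fun _ => 1 : S → ℝ) ∈ LinearMap.range Φ := by
      rw [hrange]
      trivial
    exact h1
  have hqh : ∀ h (hh : h ∈ S), q ∈ h := by
    intro h hh
    rw [(ha ⟨h, hh⟩).2.1 q, ← hΦa, hq]
  have hne : ∀ i, (B i).Nonempty := by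
    intro i
    rw [← Finset.card_pos, hBc i]
    exact hr i
  have hq0 : q ≠ 0 := by
    rintro rfl
    obtain ⟨h, hh⟩ := hne ⟨0, hm⟩
    exact (hA _ h (hBA _ hh)).2.2 (hqh h (hBS _ hh))
  obtain ⟨L, hL, hqL⟩ := exists_sub hq0 k hk hkd
  refine ⟨L, hL, q, hqL, ?_⟩
  intro i
  let e : B i ≃ Fin (r i) := Finset.equivFinOfCardEq (hBc i)
  let c : Aff d → Fin (r i) := fun h => if hb : h ∈ B i then e ⟨h, hb⟩ else ⟨0, hr i⟩
  refine ⟨fun j => (A i).filter (fun h => c h = j), ?_, ?_, ?_⟩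
  · intro j j' hjj
    rw [Finset.disjoint_left]
    intro h h1 h2
    exact hjj ((Finset.mem_filter.mp h1).2.symm.trans (Finset.mem_filter.mp h2).2)
  · intro h
    constructor
    · intro hh
      exact ⟨c h, Finset.mem_filter.mpr ⟨hh, rfl⟩⟩
    · rintro ⟨j, hj⟩
      exact (Finset.mem_filter.mp hj).1
  · intro j
    have hf : ((e.symm j : B i) : Aff d) ∈ B i := (e.symm j).2
    refine one_le_RD (h := ((e.symm j : B i) : Aff d)) ?_ (hqh _ (hBS i hf)) hqL hq0
    refine Finset.mem_filter.mpr ⟨hBA i hf, ?_⟩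
    show (if hb : ((e.symm j : B i) : Aff d) ∈ B i then e ⟨_, hb⟩ else ⟨0, hr i⟩) = j
    rw [dif_pos hf]
    exact e.apply_symm_apply j

end Pool.Agent.Lib.MP_c05127_co.PP
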