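import Pool.Agent.Lib.MP_c05127_co.Brief

set_option autoImplicit false

/-!
# MP_c05127_co, project PP (powers of two): definitions of the final statement

`E d`, `Aff d`, `Sub d`, `On`, `In`, `dir`, `dim`, `meet`, `pt`, `IsArr`, `Hits`, `RD`, `Splits` are those of
`Pool.Agent.Lib.MP_c05127_co.Brief` (already used by the hand-in PlaneSections).
-/

open scoped Classical

namespace Pool.Agent.Lib.MP_c05127_co.PP

open Pool.Agent.Lib.MP_c05127_co.Brief

/-- the conclusion of Q1: a `k`-dimensional linear subspace, a point in it and partitions -/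
def ConclK {d m : ℕ} (k : ℕ) (r : Fin m → ℕ) (A : Fin m → Finset (Aff d)) : Prop :=
  ∃ L : Sub d, dim L = k ∧ ∃ q, In L q ∧ ∀ i, Splits (r i) (A i) q L

/-- no direction is parallel to at least `r i` members of `A i` for every `i` -/
def NoDirK {d m : ℕ} (r : Fin m → ℕ) (A : Fin m → Finset (Aff d)) : Prop :=
  ∀ u : E d, u ≠ 0 → ∃ i, ((A i).filter (fun h => In (dir h) u)).card < r i

/-- the arrangements are pairwise disjoint and their union is in general position -/
def GenPosK {d m : ℕ} (A : Fin m → Finset (Aff d)) : Prop :=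
  (∀ i j, i ≠ j → Disjoint (A i) (A j)) ∧
  ∀ S : Finset (Aff d), (∀ h ∈ S, ∃ i, h ∈ A i) → S.card ≤ d → dim (meet S) + S.card = d

/-- the theorem of the project -/
def S_Final : Prop :=
  ∀ (d k : ℕ) (r : Fin (d - k + 1) → ℕ) (A : Fin (d - k + 1) → Finset (Aff d)),
    1 ≤ k → k ≤ d → (∀ i, ∃ e, r i = 2 ^ e) → (∀ i, IsArr (A i)) →
    (∀ i, (A i).card = (k + 1) * (r i - 1) + 1) → (NoDirK r A ∨ GenPosK A) → ConclK k r A

end Pool.Agent.Lib.MP_c05127_co.PP
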