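import Pool.Agent.Lib.MP_c05127_co.PP.DefsT

/-!
# MP_c05127_co, project PP (all `r i` powers of two): definitions of part G (geometry)
-/

set_option autoImplicit false

open scoped Classical

namespace Pool.Agent.MPc05127.PP

/-! ### One family: the common refinement of `s` interval partitions -/

section

variable {s : ℕ}

/-- The norm of the `t`-th point. -/
noncomputable def tot (n : Fin s → ℕ) (x : Fin s → ℕ → ℝ) (t : Fin s) : ℝ :=
  ∑ b ∈ Finset.range (n t + 1), |x t b|

/-- The left end of the `b`-th interval of the `t`-th partition of `[0, 1]`; the length of the `b`-th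
interval is `|x t b| / tot`. -/
noncomputable def cut (n : Fin s → ℕ) (x : Fin s → ℕ → ℝ) (t : Fin s) (b : ℕ) : ℝ :=
  (∑ b' ∈ Finset.range b, |x t b'|) / tot n x t

/-- The left end of the intersection of the intervals `α t`. -/
noncomputable def lo (n : Fin s → ℕ) (x : Fin s → ℕ → ℝ) (α : Fin s → ℕ) : ℝ :=
  (Finset.univ : Finset (Option (Fin s))).sup' Finset.univ_nonempty
    (fun o => o.elim 0 (fun t => cut n x t (α t)))

/-- The right end of the intersection of the intervals `α t`. -/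
noncomputable def up (n : Fin s → ℕ) (x : Fin s → ℕ → ℝ) (α : Fin s → ℕ) : ℝ :=
  (Finset.univ : Finset (Option (Fin s))).inf' Finset.univ_nonempty
    (fun o => o.elim 1 (fun t => cut n x t (α t + 1)))

/-- The length of the intersection of the intervals `α t`. -/
noncomputable def len (n : Fin s → ℕ) (x : Fin s → ℕ → ℝ) (α : Fin s → ℕ) : ℝ :=
  max 0 (up n x α - lo n x α)

/-- All `α`. -/
noncomputable def idx (n : Fin s → ℕ) : Finset (Fin s → ℕ) :=
  Fintype.piFinset (fun t => Finset.range (n t + 1))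

/-- The weighted sum of `F`, with the character `χ` of the labels.  The piece `α` is piece number
`∑ t, α t` of the common refinement, its label is the vector of the signs of the `x t (α t)`. -/
noncomputable def ph (n : Fin s → ℕ) (x : Fin s → ℕ → ℝ) (χ : Finset (Fin s)) (F : ℕ → ℝ) : ℝ :=
  ∑ α ∈ idx n, len n x α * (∏ t ∈ χ, Real.sign (x t (α t))) * F (∑ t, α t)

/-- The domain. -/
def DomF (n : Fin s → ℕ) : Set (Fin s → ℕ → ℝ) := {x | ∀ t, ∃ b ≤ n t, x t b ≠ 0}

end

/-! ### The functions of the cube theorem -/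

/-- Euclidean space -/
abbrev E (d : ℕ) : Type := EuclideanSpace ℝ (Fin d)

section

variable {m k d : ℕ}

/-- The blocks: `e i` spheres for the family `i`, and the `k` vectors of the frame. -/
abbrev Jx (k : ℕ) (e : Fin m → ℕ) : Type := (Σ i : Fin m, Fin (e i)) ⊕ Fin k

/-- The functions: for every family `i` and every nonempty `χ` the weight condition (`none`) and the `k`
vector conditions; the orthogonality conditions; the vector conditions for `χ = ∅` and `i ≠ 0`. -/
abbrev Cx (k : ℕ) (e : Fin m → ℕ) : Type :=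
  (Σ i : Fin m, {χ : Finset (Fin (e i)) // χ.Nonempty} × Option (Fin k)) ⊕
    ({p : Fin k × Fin k // p.1 < p.2} ⊕ (Fin k × {i : Fin m // (i : ℕ) ≠ 0}))

variable {e : Fin m → ℕ}

/-- The block of a function. -/
noncomputable def BB : Cx k e → Jx k e
  | Sum.inl ⟨i, χ, _⟩ => Sum.inl ⟨i, χ.1.min' χ.2⟩
  | Sum.inr (Sum.inl p) => Sum.inr p.1.1
  | Sum.inr (Sum.inr (b, _)) => Sum.inr b

/-- The characters of the functions. -/
def XX : Cx k e → Jx k e → Prop
  | Sum.inl ⟨i, χ, _⟩, Sum.inl j => ∃ t ∈ χ.1, j = ⟨i, t⟩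
  | Sum.inl ⟨_, _, o⟩, Sum.inr b => o = some b
  | Sum.inr (Sum.inl p), j => j = Sum.inr p.1.1 ∨ j = Sum.inr p.1.2
  | Sum.inr (Sum.inr (b, _)), j => j = Sum.inr b

/-- The characters of the Miranda coordinates. -/
def XK (b : Fin k) (j : Jx k e) : Prop := j = Sum.inr b

/-- The rank of a block. -/
def rk : Jx k e → ℕ
  | Sum.inl j => j.2
  | Sum.inr b => (∑ i, e i) + 1 + b

/-- The dimension of a block. -/
noncomputable def nn (j : Jx k e) : ℕ := Fintype.card {c : Cx k e // BB c = j}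

/-- The `b`-th vector of the frame. -/
noncomputable def vv (d : ℕ) (X : Jx k e → ℕ → ℝ) (b : Fin k) : E d :=
  WithLp.toLp 2 (fun c : Fin d => X (Sum.inr b) (c : ℕ))

/-- The vector `u = ∑ y_b v_b`. -/
noncomputable def uu (d : ℕ) (X : Jx k e → ℕ → ℝ) (y : Fin k → ℝ) : E d := ∑ b, y b • vv d X b

/-- Positive for `‖y‖ < 1/2` (sup norm). -/
noncomputable def ta (y : Fin k → ℝ) : ℝ := max 0 (1 - 2 * ‖y‖)

/-- Positive for `‖y‖ > 1/2`. -/
noncomputable def si (y : Fin k → ℝ) : ℝ := max 0 (2 * ‖y‖ - 1)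

/-- The spheres of the family `i`. -/
def xx (X : Jx k e → ℕ → ℝ) (i : Fin m) : Fin (e i) → ℕ → ℝ := fun t => X (Sum.inl ⟨i, t⟩)

/-- Their dimensions. -/
noncomputable def ni (k : ℕ) (e : Fin m → ℕ) (i : Fin m) : Fin (e i) → ℕ :=
  fun t => nn (k := k) (Sum.inl ⟨i, t⟩)

/-- The `b`-th component of the vector of the hyperplane `h` of the family `i`. -/
noncomputable def FF (a : Fin m → ℕ → E d) (X : Jx k e → ℕ → ℝ) (y : Fin k → ℝ) (i : Fin m)
    (b : Fin k) (h : ℕ) : ℝ :=
  (ta y - inner ℝ (a i h) (uu d X y)) * inner ℝ (a i h) (vv d X b)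

/-- The functions. -/
noncomputable def fn (a : Fin m → ℕ → E d) : Cx k e → (Jx k e → ℕ → ℝ) → (Fin k → ℝ) → ℝ
  | Sum.inl ⟨i, χ, none⟩, X, _ => ph (ni k e i) (xx X i) χ.1 (fun _ => 1)
  | Sum.inl ⟨i, χ, some b⟩, X, y => ph (ni k e i) (xx X i) χ.1 (FF a X y i b)
  | Sum.inr (Sum.inl p), X, _ => inner ℝ (vv d X p.1.1) (vv d X p.1.2)
  | Sum.inr (Sum.inr (b, i)), X, y => ph (ni k e i) (xx X i) ∅ (FF a X y i b)

/-- The Miranda functions. -/
noncomputable def gn [NeZero m] (a : Fin m → ℕ → E d) (b : Fin k) (X : Jx k e → ℕ → ℝ)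
    (y : Fin k → ℝ) : ℝ :=
  -((1 - si y) * ph (ni k e 0) (xx X 0) ∅ (FF a X y 0 b)) + si y * (y b * ‖vv d X b‖ ^ 2)

end

end Pool.Agent.MPc05127.PP
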