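import Pool.Agent.Lib.MP_c05127_co.PP.DefsT

/-!
# MP_c05127_co, project PP: statements of the modules, part T (the cube theorem)

A Borsuk-Ulam theorem for products of spheres and the group `(ℤ/2)^J`, with Miranda directions, in a
triangular situation.  Every `S_X` is proved in its own file `PP/X.lean` (`namespace
Pool.Agent.MPc05127.PP`) as `theorem tX (hA : S_A) … : S_X`, `S_A`, … the statements named after `uses`;
the docstring contains the proof.  Auxiliary declarations are private or in `Pool.Agent.MPc05127.PP.XAux`.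

Everything is modulo 2 (`ZMod 2`: `CharTwo.add_self_eq_zero`, `decide`).  All instances of decidability are
classical.
-/

set_option autoImplicit false

open scoped Classical

namespace Pool.Agent.MPc05127.PP

/-- (100 lines) **The coboundary of a cup product.**

Proof.  Write `P a b v = ∏ l ∈ Ico a b, (σ l (v l) + σ l (v (l + 1)))`.
(Z) For `a ≤ b`: `∑ i ∈ Icc a (b + 1), P a b (skip i v) = 0`.  Induction on `b`.  `b = a`: two empty products, `1 + 1 = 0`.
Step `b → b + 1`: for `i ≤ b` the last factor is `σ b (v (b+1)) + σ b (v (b+2))`; for `i = b + 1` it is `σ b (v b) + σ b (v (b+2))` and the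
other factors give `P a b v`; for `i = b + 2` it is `σ b (v b) + σ b (v (b+1))` and the other factors give `P a b v`.  The last two terms add up to
`P a b v * (σ b (v (b+1)) + σ b (v (b+2)))`, and `P a b v` is the term `i = b + 1` of the sum for `b` (there `skip (b+1) v` agrees with `v` up to `b`);
so the sum is `(∑ i ∈ Icc a (b+1), P a b (skip i v)) * (σ b (v (b+1)) + σ b (v (b+2))) = 0`.
(1) `i ≤ m`: `skip i v m = v (m + 1)`, and the factors with `l > m` are `σ l (v l) + σ l (v (l+1))`; by (Z) with `a = 0`, `b = m` (all terms but the last one,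
which is `P 0 m v`) these terms add up to `P 0 m v * β (v (m+1)) * P (m+1) D v`.
(2) `i > m`: the first product is `P 0 m v`, `skip i v m = v m`; by (Z) for `σ' l = σ (l + 1)`, `a = m`, `b = D - 1` (all terms but the first one, `i = m`, which is
`∏ l ∈ Ico m (D-1), (σ (l+1) (v (l+1)) + σ (l+1) (v (l+2))) = P (m+1) D v`) these terms add up to `P 0 m v * β (v m) * P (m+1) D v`.
The sum of both is the right hand side. -/
def S_Lz : Prop := ∀ (V : Type) (D m : ℕ) (σ : ℕ → V → ZMod 2) (β : V → ZMod 2) (v : ℕ → V), m < D →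
  ∑ i ∈ Finset.range (D + 1), bb D m σ β (skip i v) = alt D (Function.update σ m β) v

/-- (60 lines) **Inner faces cancel.**

Proof.  For `0 < i < D = Fintype.card C` the map `pos ↦ pos' = pos.trans (Equiv.swap ⟨i-1, _⟩ ⟨i, _⟩)` is a fixed point free involution, and
`vert w pos'.n l = vert w pos.n l` for all `l ≠ i`: `pos c < l ↔ pos' c < l`, as only the numbers `i - 1`, `i` are exchanged.  `skip i` does not use the vertex `i`, so
`skip i (vert w pos'.n) = skip i (vert w pos.n)`.  `Finset.sum_involution`. -/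
def S_Fi : Prop := ∀ (C : Type) [Fintype C] (b : (ℕ → C → ℤ) → ZMod 2) (w : C → ℤ) (i : ℕ), 0 < i →
  i < Fintype.card C → ∑ pos : Num C, b (skip i (vert w pos.n)) = 0

/-- (180 lines) **The first and the last face.**

Notation: `D = Fintype.card C`.  Let `L ∋ D - 1` be the last number; for `pos : Num C` put `p = pos.symm ⟨D-1, _⟩` (the coordinate which moves last) and, for an integer `x`,
`tup pos w x l c = if c = p then x else vert w pos.n l c` (it does not depend on `w p`).
Proof.  (1) `skip D (vert w pos.n)` agrees with `tup pos w (inn (w p))` at all `l < D` (`pos p = D - 1`, not `< l`).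
(2) `pos ↦ pos' = pos.trans (finRotate D)⁻¹`, `pos' c = pos c - 1`, and `D - 1` if `pos c = 0`, is a bijection, and `skip 0 (vert w pos.n)` agrees with `tup pos' w (w p)`, `p = pos'.symm (last)`, at all
`l < D`: for `c = p`, `pos c = 0 < l + 1`; for `c ≠ p`, `pos c < l + 1 ↔ pos' c < l`.  So the sum in question is
`∑ pos, ∑ w, (b (tup pos w (w p)) + b (tup pos w (inn (w p))))`.
(3) Fix `pos`.  Let `g w x = b (tup pos w x)`; it does not depend on `w p`.  `∑ w ∈ (w p ≠ ±N), g w (w p) = ∑ w ∈ (w p ≠ ±1), g w (inn (w p))` by the bijection `w ↦ Function.update w p (w p + (w p).sign)`;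
`∑ w ∈ (w p = ±1), g w (inn (w p)) = ∑ w ∈ (w p = ±1), g w 0 = 0` (`w ↦ Function.update w p (- w p)`).  Left: `∑ w ∈ (w p = ±N), g w (w p)`.
(4) If `b` vanishes on the faces of `p` this is `0` (the entries of `tup` are in the grid: `|w c| ≤ N`, `|inn (w c)| ≤ N`).  Otherwise let `S` be as in the hypothesis, `S p`.
`w ↦ flip S w` is a bijection of `{w p = N}` onto `{w p = -N}`, and `tup pos (flip S w) (-N) l = flip S (tup pos w N l)` as `inn (-e) = -inn e`; so
`g (flip S w) (-N) = b (fun l => flip S (tup pos w N l)) = b (tup pos w N) = g w N` and the two halves cancel. -/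
def S_Fo : Prop := ∀ (C : Type) [Fintype C] (N : ℕ) (b : (ℕ → C → ℤ) → ZMod 2), 1 ≤ N → 0 < Fintype.card C →
  (∀ u u' : ℕ → C → ℤ, (∀ l < Fintype.card C, u l = u' l) → b u = b u') →
  (∀ p : C,
    (∃ S : C → Prop, S p ∧ ∀ u : ℕ → C → ℤ, (∀ l < Fintype.card C, u l ∈ Gr C N ∧ u l p = N) →
      b (fun l => flip S (u l)) = b u) ∨
    ∀ u : ℕ → C → ℤ, (∀ l < Fintype.card C, u l ∈ Gr C N) →
      ((∀ l < Fintype.card C, u l p = N) ∨ ∀ l < Fintype.card C, u l p = -(N : ℤ)) → b u = 0) →
  ∑ w ∈ Fintype.piFinset (fun _ : C => ZN N), ∑ pos : Num C,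
    (b (skip 0 (vert w pos.n)) + b (skip (Fintype.card C) (vert w pos.n))) = 0

/-- (120 lines; uses `S_Lz`, `S_Fi`, `S_Fo`) **The sum does not depend on the signs.**

Proof.  `D = Fintype.card C`.  For `m ≤ D` let `s^m c = if T.n c < m then s' c else s c`; `s^0 = s`, `s^D = s'`, every `s^m` satisfies `Ok`.  It is enough that `tsum N T s^m = tsum N T s^(m+1)` for `m < D`.
Let `σ = sg T s^m`, `c = T.symm ⟨m, _⟩` and `β v = s c v + s' c v`.  Then `sg T s^(m+1)` is `σ` with `σ m` replaced by `σ m + β`, so
`alt D (sg T s^m) v + alt D (sg T s^(m+1)) v = alt D (Function.update σ m β) v` (one factor of the product), and by `S_Lz` it is enough that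
`∑ w, ∑ pos, ∑ i ∈ range (D + 1), b (skip i (vert w pos.n)) = 0` for `b = bb D m σ β`.  The terms `0 < i < D` vanish by `S_Fi`, the terms `i = 0`, `i = D` by `S_Fo`; its hypotheses:
`b u` uses only `u 0, …, u (D-1)`.  Let `p : C`.  If `b.B p = some j` take `S = b.R j`: for `u l ∈ Gr C N`, `u l p = N` we have by `Ok.blk` `σ l (flip S (u l)) = σ l (u l) + const` with the
same constant for all `u l`, so the sums `σ l (u l) + σ l (u (l+1))` do not change, and `β (flip S (u m)) = β (u m)`.  If `b.B p = none` and `u l p = N` for all `l < D` (or `-N` for all `l`): the values of the sign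
functions of the coordinate `p` (those of `s` and of `s'`) at all `u l` are the same constant; if `T.n p ≠ m` the factor with the number `T.n p` is `0`, and if `T.n p = m` then `β (u m) = 0`. -/
def S_Iv : Prop := ∀ (C J : Type) [Fintype C] (b : Blk C J) (N : ℕ) (T : Num C)
  (s s' : C → (C → ℤ) → ZMod 2), 1 ≤ N → b.Ok N s → b.Ok N s' → tsum N T s = tsum N T s'

/-- (80 lines) **The reference signs satisfy the conditions.**

Proof.  Let `v ∈ Gr C N`, `|v c| = N ≥ 1`, `b.B c = some j`; `v' = flip (b.R j) v`.  `v'` is `-v` on the block `j` and `v` on the other blocks.  Let `c₀` be the coordinate of the block `j` with the largest number and `v c₀ ≠ 0`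
(it exists as `v c ≠ 0`).  `lx j v = if v c₀ < 0 then 1 else 0`, and the same for `v'`; so `lx j v' = lx j v + 1`, and `lx j' v' = lx j' v` for `j' ≠ j`.  So `∑ j', if χ c j' then lx j' v' else 0` changes by `if χ c j then 1 else 0`.  This
is the claim for `c` with `b.B c = some _`, and for Miranda coordinates `c` with `v c = 0` (then `v' c = 0`).  For a Miranda coordinate with `v c ≠ 0`: `v' c = -v c` iff `χ c j`.  `mir`: `v c = ±N ≠ 0`. -/
def S_Rf : Prop := ∀ (C J : Type) [Fintype C] [Fintype J] (b : Blk C J) (N : ℕ) (T : Num C), 1 ≤ N →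
  b.Ok N (rf b T)

/-- (220 lines) **There is only one numbering for the reference signs.**

Notation: `D = Fintype.card C`; the coordinate `p` moves in the step `pos p`; let `g p = T.symm (pos p)`, a bijection `C → C`: the function of the coordinate `g p` is used in the step in which `p` moves.  Write `v = vert w pos.n (pos.n p)` and
`v' = vert w pos.n (pos.n p + 1)`: `v' = v` outside `p`, `v p = inn (w p)`, `v' p = w p`.  The hypothesis for `l = pos.n p`: `rf (g p) v ≠ rf (g p) v'`.
Proof.  (1) `inn (w p) = 0`: otherwise `v p` and `v' p` have the same sign, all coordinates of `v` and `v'` have the same signs, so `rf (g p) v = rf (g p) v'` (`rf` depends only on the signs).  So `w p = 1` or `w p = -1` (`w p ≠ 0`, `w ∈ ZN`).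
(2) If `b.B p = none` then `g p = p`: `rf c` for `c ≠ p` does not depend on `v p`.
(3) If `b.B p = some j` then `χ (g p) j` (only `lx j` depends on `v p`).  CLAIM: `b.B (g p) = some j`.  Strong induction on `rank j`.  `b.B (g p) = none` is impossible: then `g (g p) = g p` by (2), so `g p = p`, but `b.B p ≠ none`.  Let `b.B (g p) = some j'`, `j' ≠ j`.
By `up`, `rank j' < rank j`; by induction `g` maps the block `j'` into itself, injectively, so onto itself (finite); so `g p = g p'` for some `p'` in the block `j'`, `p = p'`, contradiction.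
(4) Let `p`, `p'` be in the block `j`, `T.n p < T.n p'`.  Then `pos.n p < pos.n p'`.  Otherwise `pos.n p' < pos.n p`, so `v p' = v' p' = w p' ≠ 0` for the step in which `p` moves; then `lx j v = lx j v'` (the nonzero coordinate with the largest number is not `p`,
in both cases), and `g p` is in the block `j`, so `rf (g p)` is a sum of `lx`'s and does not change: contradiction.
(5) So `g` maps the block `j` into itself and is strictly increasing for the numbers `T` (`T (g p) = pos p`).  A strictly increasing selfmap of a finite set of numbers is the identity (if `g p < p` for some `p` take the smallest such `p`: `g p` is in the set,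
`g (g p) < g p` by monotonicity, contradiction to the choice; similarly for `>`).  So `g p = p` and `pos p = T p`. -/
def S_Ru : Prop := ∀ (C J : Type) [Fintype C] [Fintype J] (b : Blk C J) (N : ℕ) (T pos : Num C)
  (w : C → ℤ), (∀ c, w c ∈ ZN N) →
  (∀ l < Fintype.card C, sg T (rf b T) l (vert w pos.n l) ≠ sg T (rf b T) l (vert w pos.n (l + 1))) →
  (∀ c, w c = 1 ∨ w c = -1) ∧ pos = T

/-- (60 lines) **A triangular system has one solution.**

Proof.  Induction on `D`; `Fin.snocEquiv`/`Fin.consEquiv` or `Fin.snoc`: for given values of the first `D` variables the last factor is `1` for exactly one value of the last variable, and the other factors do not depend on the last variable.  (Or: the sum is over all `w`; a product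
in `ZMod 2` is `1` iff all factors are `1`; there is exactly one `w` with `(if w l then 1 else 0) + q l w = 1` for all `l`, by recursion.) -/
def S_Tr : Prop := ∀ (D : ℕ) (q : Fin D → (Fin D → Bool) → ZMod 2),
  (∀ l w w', (∀ i < l, w i = w' i) → q l w = q l w') →
  ∑ w : Fin D → Bool, ∏ l, ((if w l then 1 else 0) + q l w) = 1

/-- (120 lines; uses `S_Ru`, `S_Tr`) **The reference sum is `1`.**

Proof.  `D = Fintype.card C`.  In the sum `tsum N T (rf b T)` only terms with product `≠ 0` matter; for these all factors are `1`, i.e. the two values of `sg T (rf b T) l` are different, and by `S_Ru` `pos = T` and all `w c = ±1`.  So the sum is the sum over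
`w = fun c => if ω (T c) then -1 else 1`, `ω : Fin D → Bool`, of `∏ l < D, (rf c (vert w T.n l) + rf c (vert w T.n (l+1)))`, `c = T.symm l` (`1 ≤ N`, so `±1 ∈ ZN N`).  Here `vert w T.n l c' = if T.n c' < l then w c' else 0` (`inn (±1) = 0`).
For `b.B c = some j`: `rf c` is the sum of the `lx j'`, `χ c j'`; from the vertex `l` to the vertex `l + 1` only `lx j` changes, its new value is `if w c < 0 then 1 else 0` (`c` is the nonzero coordinate of the block `j` with the largest number), so the factor is
`(if ω l then 1 else 0) + lx j (vert w T.n l)`.  For `b.B c = none`: `rf c (vert w T.n l) = ∑ j, if χ c j then lx j (vert …) else 0` as `vert … l c = 0`, and `rf c (vert … (l+1)) = if ω l then 1 else 0`.  In both cases the second summand depends only on the `ω i`, `i < l`.  `S_Tr`. -/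
def S_Re : Prop := ∀ (C J : Type) [Fintype C] [Fintype J] (b : Blk C J) (N : ℕ) (T : Num C), 1 ≤ N →
  tsum N T (rf b T) = 1

/-- (60 lines; uses `S_Iv`, `S_Rf`, `S_Re`) **The combinatorial theorem.**

Proof.  Take any numbering `T = Fintype.equivFin C`.  `tsum N T s = tsum N T (rf b T) = 1 ≠ 0`, so there are `w`, `pos` with `alt … ≠ 0`; every factor is nonzero, so `s c (vert w pos.n (T.n c)) ≠ s c (vert w pos.n (T.n c + 1))` for all `c`.  Take `v₀ = vert w pos.n 0`;
`|vert w pos.n l c - v₀ c| ≤ 1`, and all vertices are in `Gr C N`. -/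
def S_Cb : Prop := ∀ (C J : Type) [Fintype C] [Fintype J] (b : Blk C J) (N : ℕ)
  (s : C → (C → ℤ) → ZMod 2), 1 ≤ N → b.Ok N s →
  ∃ v₀ ∈ Gr C N, ∀ c, ∃ v ∈ Gr C N, ∃ v' ∈ Gr C N, (∀ c', |v c' - v₀ c'| ≤ 1 ∧ |v' c' - v₀ c'| ≤ 1) ∧
    s c v ≠ s c v'

/-- (150 lines; uses `S_Rf`, `S_Cb`) **The cube theorem.**

Proof.  Suppose there is no common zero.  `x ↦ ∑ c, |f c x|` is continuous and positive on the compact cube, so `≥ (card C + 1) ε` with `ε > 0`; so for every `x` there is `c` with `|f c x| ≥ ε` (if `C` is empty the conclusion holds trivially).  Uniform continuity: there is `N ≥ 1`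
with `|f c x - f c x'| < ε` for all `c` and all `x`, `x'` in the cube with `|x c' - x' c'| ≤ 1 / N` for all `c'`.  Let `s c v = 1` if `f c (v / N) < 0`, `0` if `f c (v / N) > 0`, and `rf b T c v` if `f c (v / N) = 0` (`T` any numbering).  `b.Ok N s`: `flip (b.R j) v / N = flip (b.R j) (v / N)`; `|v c| = N` means
`|v c / N| = 1`; if `f c (v/N) ≠ 0` the signs are opposite resp. equal, if it is `0` then both are `0` and `S_Rf` applies; `mir`: `v c / N = ±1`, so `f c` is positive resp. negative.  By `S_Cb` there is `v₀`; take `c` with `|f c (v₀ / N)| ≥ ε`, and the `v`, `v'` for this `c`.  `f c (v / N)` and `f c (v' / N)` have the same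
sign as `f c (v₀ / N)` (they differ from it by less than `ε`), so `s c v = s c v'`: contradiction. -/
def S_Cu : Prop := ∀ (C J : Type) [Fintype C] [Fintype J] (b : Blk C J) (f : C → (C → ℝ) → ℝ),
  (∀ c, ContinuousOn (f c) {x | ∀ c', |x c'| ≤ 1}) →
  (∀ (j : J) (x : C → ℝ), (∀ c, |x c| ≤ 1) → (∃ c, b.B c = some j ∧ |x c| = 1) → ∀ c,
    f c (flip (b.R j) x) = if b.χ c j then -f c x else f c x) →
  (∀ c, b.B c = none → ∀ x : C → ℝ, (∀ c', |x c'| ≤ 1) → (x c = 1 → 0 < f c x) ∧ (x c = -1 → f c x < 0)) →
  ∃ x : C → ℝ, (∀ c, |x c| ≤ 1) ∧ ∀ c, f c x = 0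

/-- (200 lines; uses `S_Cu`) **Borsuk-Ulam for products of spheres, with Miranda directions.**

Proof.  Coordinates `C ⊕ K`; `b.B (inl c) = some (B c)`, `b.B (inr a) = none`, characters `χ`, `χ'`.  For every `j` choose `ε j : {c // B c = j} ≃ Fin (n j)` (`Fintype.equivFinOfCardEq`).  For `x` in the cube let `X j i = x (inl ((ε j).symm ⟨i, _⟩))` for `i < n j`,
`X j (n j) = 1 - M j`, `M j = sup of |x (inl c)|, B c = j` (`0` if the block is empty; e.g. `⨆`, or the norm of `fun c : {c // B c = j} => x (inl c)`), `X j i = 0` for `i > n j`; `y a = x (inr a)`.  `(X, y) ∈ Dom n`: if all `X j i = 0` for `i < n j` then `M j = 0` and `X j (n j) = 1`.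
The map is continuous.  `f (inl c) x = F c X y`, `f (inr a) x = G a X y`.  If `|x (inl c)| = 1` for some `c` of the block `j` then `M j = 1`, `X j (n j) = 0`, and the flip of the block `j` changes `X` into `flX j X` and `y` into `flip (fun a => χ' a j) y` (`b.R j (inl c) ↔ B c = j`,
`b.R j (inr a) ↔ χ' a j`).  Apply `S_Cu`. -/
def S_Sp : Prop := ∀ (C K J : Type) [Fintype C] [Fintype K] [Fintype J] (B : C → J) (χ : C → J → Prop)
  (χ' : K → J → Prop) (rank : J → ℕ) (n : J → ℕ) (F : C → (J → ℕ → ℝ) → (K → ℝ) → ℝ)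
  (G : K → (J → ℕ → ℝ) → (K → ℝ) → ℝ),
  (∀ c, χ c (B c)) → (∀ c j, χ c j → j = B c ∨ rank (B c) < rank j) →
  (∀ j, Fintype.card {c // B c = j} = n j) →
  (∀ c, ContinuousOn (fun z : (J → ℕ → ℝ) × (K → ℝ) => F c z.1 z.2) (Dom n)) →
  (∀ a, ContinuousOn (fun z : (J → ℕ → ℝ) × (K → ℝ) => G a z.1 z.2) (Dom n)) →
  (∀ (j : J), ∀ z ∈ (Dom n : Set ((J → ℕ → ℝ) × (K → ℝ))),
    (∀ c, F c (flX j z.1) (flip (fun a => χ' a j) z.2) = if χ c j then -F c z.1 z.2 else F c z.1 z.2) ∧
    ∀ a, G a (flX j z.1) (flip (fun a => χ' a j) z.2) = if χ' a j then -G a z.1 z.2 else G a z.1 z.2) →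
  (∀ (a : K), ∀ z ∈ (Dom n : Set ((J → ℕ → ℝ) × (K → ℝ))),
    (z.2 a = 1 → 0 < G a z.1 z.2) ∧ (z.2 a = -1 → G a z.1 z.2 < 0)) →
  ∃ z ∈ (Dom n : Set ((J → ℕ → ℝ) × (K → ℝ))), (∀ c, F c z.1 z.2 = 0) ∧ ∀ a, G a z.1 z.2 = 0

end Pool.Agent.MPc05127.PP
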