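import Pool.Agent.Lib.MP_c05127_co.PP.DefsG
import Pool.Agent.Lib.MP_c05127_co.PP.SpecT

/-!
# MP_c05127_co, project PP: statements of the modules, part G (geometry)

Every `S_X` is proved in its own file `PP/X.lean` (`namespace Pool.Agent.MPc05127.PP`) as
`theorem tX (hA : S_A) … : S_X`, `S_A`, … the statements named after `uses`; the docstring contains the
proof.  Auxiliary declarations are private or in `Pool.Agent.MPc05127.PP.XAux`.

The hyperplane `h` of the family `i` is `{x | ⟨a i h, x⟩ = 1}`, `h < (k + 1) (2 ^ e i - 1) + 1`.  We look for an orthogonal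
frame `v_1, …, v_k`, a point `q` of its span, and for every `i` disjoint sets `P g`, `g ∈ {±1}^(e i)`, of
hyperplanes with `0` in the convex hull of the `(1 - ⟨a, q⟩) π_L a`, `a` in `P g`.
-/

set_option autoImplicit false

open scoped Classical

namespace Pool.Agent.MPc05127.PP

/-! ## One family -/

/-- (60 lines) **The partitions.**

Proof.  `tot > 0` as one term is positive.  `cut n x t (b + 1) - cut n x t b = |x t b| / tot` (`Finset.sum_range_succ`); monotone as `|x t b| ≥ 0`. -/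
def S_Ku : Prop := ∀ (s : ℕ) (n : Fin s → ℕ), ∀ x ∈ DomF n, ∀ t, 0 < tot n x t ∧ cut n x t 0 = 0 ∧
  cut n x t (n t + 1) = 1 ∧ (∀ b, cut n x t (b + 1) - cut n x t b = |x t b| / tot n x t) ∧
  Monotone (cut n x t)

/-- (150 lines; uses `S_Ku`) **The pieces.**

Proof.  `lo ≥ cut t (α t)`, `up ≤ cut t (α t + 1)` (`Finset.le_sup'`, `Finset.inf'_le` at `some t`), so `len ≤ |x t (α t)| / tot`; this gives (1), (2).
(3) Suppose both are positive.  As the sums are equal and `α ≠ α'` there are `t`, `t'` with `α t < α' t`, `α' t' < α t'`.  `up α ≤ cut t (α t + 1) ≤ cut t (α' t) ≤ lo α'` and `up α' ≤ cut t' (α' t' + 1) ≤ cut t' (α t') ≤ lo α`: contradiction to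
`lo α < up α`, `lo α' < up α'`.
(4) There is `c ∈ (0, 1)` different from the finitely many numbers `cut t b`, `b ≤ n t`.  Let `α t` be the largest `b ≤ n t` with `cut t b < c`; then `cut t (b + 1) > c` (for `b = n t` it is `1`).  So `lo < c < up`.
(5) `|·|` of `-x` is `|x|`: `tot`, `cut`, `lo`, `up` do not change. -/
def S_Le : Prop := ∀ (s : ℕ) (n : Fin s → ℕ), ∀ x ∈ DomF n,
  (∀ α t, 0 ≤ len n x α ∧ len n x α ≤ |x t (α t)| / tot n x t) ∧
  (∀ α t, 0 < len n x α → x t (α t) ≠ 0) ∧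
  (∀ α ∈ idx n, ∀ α' ∈ idx n, α ≠ α' → ∑ t, α t = ∑ t, α' t → len n x α = 0 ∨ len n x α' = 0) ∧
  (∃ α ∈ idx n, 0 < len n x α) ∧
  ∀ (t : Fin s) (α : Fin s → ℕ), len n (Function.update x t (-x t)) α = len n x α

/-- (120 lines; uses `S_Ku`, `S_Le`) **Continuity.**

Proof.  A finite sum; it is enough to treat `x ↦ len n x α * ∏ t ∈ χ, Real.sign (x t (α t))`.  `len n x α` is continuous on `DomF n` (`tot > 0`; finite sums, quotients, `Continuous.finset_sup'_apply` or `ContinuousOn.finset_sup'_apply`, `max`).  Let `x₀ ∈ DomF n`.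
If `x₀ t (α t) ≠ 0` for all `t ∈ χ` the signs are constant near `x₀`.  If `x₀ t (α t) = 0` for some `t ∈ χ`: the value at `x₀` is `0` (`Real.sign 0 = 0`) and near `x₀` the absolute value is `≤ |x t (α t)| / tot n x t`, which tends to `0` (`squeeze_zero_norm`, `|Real.sign r| ≤ 1`). -/
def S_Pc : Prop := ∀ (s : ℕ) (n : Fin s → ℕ) (χ : Finset (Fin s)),
  ContinuousOn (fun z : (Fin s → ℕ → ℝ) × (ℕ → ℝ) => ph n z.1 χ z.2) {z | z.1 ∈ DomF n}

/-- (60 lines; uses `S_Le`) **Flips and linearity.**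

Proof.  Flip: `len` does not change (`S_Le` (5)), `Real.sign (-r) = -Real.sign r` (`Real.sign_neg`), and exactly the factor `t` of `∏ t ∈ χ` changes its sign, if `t ∈ χ`.  The second and third parts: the definition is a sum. -/
def S_Pe : Prop := ∀ (s : ℕ) (n : Fin s → ℕ), ∀ x ∈ DomF n, ∀ (χ : Finset (Fin s)),
  (∀ (t : Fin s) (F : ℕ → ℝ), ph n (Function.update x t (-x t)) χ F =
    if t ∈ χ then -ph n x χ F else ph n x χ F) ∧
  (∀ F : ℕ → ℝ, ph n x χ (fun h => -F h) = -ph n x χ F) ∧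
  ∀ (κ : Type) [Fintype κ] (c : κ → ℝ) (F : κ → ℕ → ℝ),
    ph n x χ (fun h => ∑ b, c b * F b h) = ∑ b, c b * ph n x χ (F b)

/-- (200 lines; uses `S_Le`) **The parts.**

Proof.  For `g : Fin s → Bool` let `ε t = if g t then 1 else -1` and `I g = {α ∈ idx n | 0 < len n x α ∧ ∀ t, (0 < x t (α t)) ↔ g t}`, `P g = (I g).image (fun α => ∑ t, α t)`.  For `len n x α > 0` all `x t (α t) ≠ 0`, so the sign of `x t (α t)` is `±1` and `α` is in exactly one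
`I g`.  Disjoint: if `∑ α = ∑ α'`, `α ∈ I g`, `α' ∈ I g'` then `α = α'` by `S_Le` (3), so `g = g'`.
Fourier: `∑ χ, (∏ t ∈ χ, ε t) * ph n x χ F = ∑ α ∈ idx n, len n x α * F (∑ α) * ∏ t, (1 + ε t * Real.sign (x t (α t)))` (`Finset.prod_one_add`: `∏ t, (1 + f t) = ∑ χ ∈ univ.powerset, ∏ t ∈ χ, f t`), and for `len n x α > 0` the product is `2 ^ s` if `α ∈ I g`, `0` otherwise.  So
`∑ χ, (∏ t ∈ χ, ε t) * ph n x χ F = 2 ^ s * ∑ α ∈ I g, len n x α * F (∑ α)`  (*).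
Nonempty: (*) for `F = 1`: the left side is `ph n x ∅ 1 = ∑ α ∈ idx n, len n x α > 0` (`S_Le` (4)), so `I g ≠ ∅`.
If `ph n x χ F = 0` for all `χ` then `∑ α ∈ I g, len n x α * F (∑ α) = 0`; if `F h < 0` for all `h ∈ P g` the sum over the nonempty set `I g` would be negative.
Last claim: `ph n x ∅ F = ∑ α ∈ idx n, len n x α * F (∑ α)` is a sum of nonnegative terms, so all are `0`. -/
def S_Pf : Prop := ∀ (s : ℕ) (n : Fin s → ℕ), ∀ x ∈ DomF n,
  (∀ χ : Finset (Fin s), χ.Nonempty → ph n x χ (fun _ => 1) = 0) →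
  ∃ P : (Fin s → Bool) → Finset ℕ, (∀ g g', g ≠ g' → Disjoint (P g) (P g')) ∧
    (∀ g, ∀ h ∈ P g, h ≤ ∑ t, n t) ∧ (∀ g, (P g).Nonempty) ∧
    (∀ F : ℕ → ℝ, (∀ χ, ph n x χ F = 0) → ∀ g, ∃ h ∈ P g, 0 ≤ F h) ∧
    ∀ F : ℕ → ℝ, (∀ h, 0 ≤ F h) → ph n x ∅ F = 0 → ∀ g, ∀ h ∈ P g, F h = 0

/-! ## All families -/

/-- (120 lines) **Counting.**

Proof.  (1) `{c // BB c = inl ⟨i, t⟩}` are the `inl ⟨i, χ, o⟩` with `χ.min' = t`; summed over `t` these are all pairs of a nonempty `χ ⊆ Fin (e i)` and `o : Option (Fin k)`: `(2 ^ e i - 1) * (k + 1)` (e.g. `Fintype.card_sigma` and an explicit equivalence, or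
`Finset.card_eq_sum_card_fiberwise`).
(2) `{c // BB c = inr b}` are the `inr (inl p)` with `p.1.1 = b` (as many as `b' > b`: `k - 1 - b`) and the `inr (inr (b, i))` with `i ≠ 0` (`d - k`): together `d - 1 - b`. -/
def S_Ct : Prop := ∀ (d k : ℕ), 1 ≤ k → k ≤ d → ∀ e : Fin (d - k + 1) → ℕ,
  (∀ i, ∑ t : Fin (e i), ni k e i t = (k + 1) * (2 ^ e i - 1)) ∧
  ∀ b : Fin k, nn (e := e) (Sum.inr b) + 1 ≤ d

/-- (60 lines) **The characters are triangular.**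

Proof.  Cases.  `inl ⟨i, χ, o⟩`: the minimum is in `χ`, the other elements `t` of `χ` are larger; `rk (inr b) > ∑ e i ≥ e i > t`.  Orthogonality: `p.1.1 < p.1.2`. -/
def S_Bl : Prop := ∀ (m k : ℕ) (e : Fin m → ℕ) (c : Cx k e), XX c (BB c) ∧
  ∀ j, XX c j → j = BB c ∨ rk (BB c) < rk j

/-- (120 lines; uses `S_Pc`) **Continuity of the functions.**

Proof.  On `Dom nn` the spheres `xx X i` are in `DomF (ni k e i)`.  `(X, y) ↦ (xx X i, FF a X y i b)` is continuous (`vv`, `uu` are continuous: finitely many coordinates; `ta`, `si` are continuous), compose with `S_Pc`; the functions are sums and products of such functions. -/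
def S_Fc : Prop := ∀ (m k d : ℕ) [NeZero m] (e : Fin m → ℕ) (a : Fin m → ℕ → E d),
  (∀ c : Cx k e, ContinuousOn (fun z : (Jx k e → ℕ → ℝ) × (Fin k → ℝ) => fn a c z.1 z.2) (Dom nn)) ∧
  ∀ b : Fin k, ContinuousOn (fun z : (Jx k e → ℕ → ℝ) × (Fin k → ℝ) => gn a b z.1 z.2) (Dom nn)

/-- (180 lines; uses `S_Pe`) **Symmetry of the functions.**

Proof.  `j = inl ⟨i, t⟩`: `y` and the `vv` do not change; `xx X i` is changed into `Function.update (xx X i) t (-xx X i t)`, the other `xx X i'` do not change; `S_Pe` (1).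
`j = inr b`: the `xx` do not change; `vv X b` and `y b` change their signs, the other `vv`, `y` do not; so `uu`, `‖y‖`, `ta`, `si`, `‖vv X b‖ ^ 2` do not change, `FF a X y i b` changes its sign, `FF a X y i b'` does not; `S_Pe` (2). -/
def S_Fs : Prop := ∀ (m k d : ℕ) [NeZero m] (e : Fin m → ℕ) (a : Fin m → ℕ → E d) (j : Jx k e),
  ∀ z ∈ (Dom nn : Set ((Jx k e → ℕ → ℝ) × (Fin k → ℝ))),
    (∀ c : Cx k e, fn a c (flX j z.1) (flip (fun b => XK b j) z.2) =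
      if XX c j then -fn a c z.1 z.2 else fn a c z.1 z.2) ∧
    ∀ b, gn a b (flX j z.1) (flip (fun b => XK b j) z.2) =
      if XK b j then -gn a b z.1 z.2 else gn a b z.1 z.2

/-- (60 lines; uses `S_Ct`) **The vectors of the frame; the Miranda conditions.**

Proof.  `X (inr b) i ≠ 0` for some `i ≤ nn (inr b) < d` (`S_Ct`), so `vv d X b ≠ 0`.  If `y b = ±1` then `‖y‖ = 1` (`|y b'| ≤ 1` for all `b'`), `si y = 1` and `gn a b X y = y b * ‖vv d X b‖ ^ 2`. -/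
def S_Fm : Prop := ∀ (d k : ℕ), 1 ≤ k → k ≤ d → ∀ (e : Fin (d - k + 1) → ℕ)
  (a : Fin (d - k + 1) → ℕ → E d), ∀ z ∈ (Dom nn : Set ((Jx k e → ℕ → ℝ) × (Fin k → ℝ))),
    (∀ b, vv d z.1 b ≠ 0) ∧
    ∀ b, (z.2 b = 1 → 0 < gn a b z.1 z.2) ∧ (z.2 b = -1 → gn a b z.1 z.2 < 0)

/-- (40 lines; uses `S_Sp`, `S_Bl`, `S_Fc`, `S_Fs`, `S_Fm`) **The common zero.**

Proof.  `S_Sp` with `C = Cx k e`, `K = Fin k`, `J = Jx k e`, `B = BB`, `χ = XX`, `χ' = XK`, `rank = rk`, `n = nn`. -/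
def S_Zr : Prop := ∀ (d k : ℕ), 1 ≤ k → k ≤ d → ∀ (e : Fin (d - k + 1) → ℕ)
  (a : Fin (d - k + 1) → ℕ → E d), ∃ z ∈ (Dom nn : Set ((Jx k e → ℕ → ℝ) × (Fin k → ℝ))),
    (∀ c : Cx k e, fn a c z.1 z.2 = 0) ∧ ∀ b, gn a b z.1 z.2 = 0

/-- (120 lines; uses `S_Pe`, `S_Pf`, `S_Fm`) **Zeros at infinity are excluded.**

Proof.  Let `‖y‖ ≥ 1/2` for a zero `(X, y)`, `v b = vv d X b`, nonzero, pairwise orthogonal (the functions `inr (inl p)`), `u = uu d X y = ∑ y b • v b`, `‖u‖² = ∑ (y b)² ‖v b‖² > 0` (`y ≠ 0`).  `ta y = 0`, `0 ≤ si y ≤ 1` (`‖y‖ ≤ 1`), `FF a X y i b h = -⟨a i h, u⟩ ⟨a i h, v b⟩`, so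
`∑ b, y b * FF a X y i b h = -⟨a i h, u⟩²`.  By linearity (`S_Pe` (3), (2)) `0 = ∑ b, y b * gn a b X y = (1 - si y) * ph _ _ ∅ (⟨a 0 h, u⟩²) + si y * ‖u‖²`; both terms are `≥ 0` (`ph … ∅ F ≥ 0` for `F ≥ 0` as `len ≥ 0`, the definition), so `si y = 0` and `ph … ∅ (⟨a 0 h, u⟩²) = 0`.
For `i ≠ 0`: `∑ b, y b * (function (b, i)) = -ph … ∅ (⟨a i h, u⟩²)`, so it is `0` too.  By `S_Pf` (the weight conditions are the functions `inl ⟨i, χ, none⟩`; `xx X i ∈ DomF`) there are for every `i` disjoint nonempty sets `P g`, `g : Fin (e i) → Bool`, with `⟨a i h, u⟩ = 0` for all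
`h ∈ P g`, `h ≤ ∑ t, ni k e i t`; so at least `2 ^ e i` hyperplanes of the family `i` are parallel to `u`, for every `i`, `u ≠ 0`. -/
def S_In : Prop := ∀ (d k : ℕ), 1 ≤ k → k ≤ d → ∀ (e : Fin (d - k + 1) → ℕ)
  (a : Fin (d - k + 1) → ℕ → E d), ∀ z ∈ (Dom nn : Set ((Jx k e → ℕ → ℝ) × (Fin k → ℝ))),
    (∀ c : Cx k e, fn a c z.1 z.2 = 0) → (∀ b, gn a b z.1 z.2 = 0) → 1 / 2 ≤ ‖z.2‖ →
    ∃ u : E d, u ≠ 0 ∧ ∀ i, 2 ^ e i ≤
      ((Finset.range (∑ t, ni k e i t + 1)).filter (fun h => inner ℝ (a i h) u = (0 : ℝ))).card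

/-- (120 lines; uses `S_Pe`, `S_Pf`, `S_Fm`) **Zeros in the interior.**

Proof.  Let `‖y‖ < 1/2` for a zero `(X, y)`, `v b = vv d X b`, nonzero and pairwise orthogonal, so linearly independent (`linearIndependent_of_ne_zero_of_inner_eq_zero`).  `τ = ta y > 0`, `si y = 0`; `q = τ⁻¹ • uu d X y`, in the span.  All `ph … χ (FF a X y i b) = 0`: for `χ ≠ ∅` the functions
`inl ⟨i, χ, some b⟩`, for `χ = ∅`, `i ≠ 0` the functions `inr (inr (b, i))`, for `χ = ∅`, `i = 0` the functions `gn` (`si y = 0`).  `P` from `S_Pf`.  Let `w = ∑ b, c b • v b` be in the span (`Submodule.mem_span_range_iff_exists_fun`);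
`F h = ∑ b, c b * FF a X y i b h = (τ - ⟨a i h, u⟩) ⟨a i h, w⟩ = τ (1 - ⟨a i h, q⟩) ⟨a i h, w⟩` has `ph … χ F = 0` for all `χ` (`S_Pe` (3)), so there is `h ∈ P g` with `F h ≥ 0`. -/
def S_It : Prop := ∀ (d k : ℕ), 1 ≤ k → k ≤ d → ∀ (e : Fin (d - k + 1) → ℕ)
  (a : Fin (d - k + 1) → ℕ → E d), ∀ z ∈ (Dom nn : Set ((Jx k e → ℕ → ℝ) × (Fin k → ℝ))),
    (∀ c : Cx k e, fn a c z.1 z.2 = 0) → (∀ b, gn a b z.1 z.2 = 0) → ‖z.2‖ < 1 / 2 →
    ∃ (v : Fin k → E d) (q : E d), LinearIndependent ℝ v ∧ q ∈ Submodule.span ℝ (Set.range v) ∧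
      ∀ i, ∃ P : (Fin (e i) → Bool) → Finset ℕ, (∀ g g', g ≠ g' → Disjoint (P g) (P g')) ∧
        (∀ g, ∀ h ∈ P g, h ≤ ∑ t, ni k e i t) ∧
        ∀ g, ∀ w ∈ Submodule.span ℝ (Set.range v), ∃ h ∈ P g,
          (inner ℝ (a i h) q - 1) * inner ℝ (a i h) w ≤ (0 : ℝ)

/-- (100 lines; uses `S_Ct`, `S_Zr`, `S_In`, `S_It`) **The vector statement.**

Proof.  Extend `a i` to a function on `ℕ` (`0` for `h > (k+1)(2^(e i) - 1)`), `∑ t, ni k e i t = (k+1)(2^(e i) - 1)` (`S_Ct`).  `S_Zr` gives a zero; `‖y‖ ≥ 1/2` contradicts the hypothesis by `S_In`; otherwise `S_It`.  `Fin (2 ^ e i) ≃ (Fin (e i) → Bool)`; the sets `P g` are sets of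
numbers `≤ (k+1)(2^(e i) - 1)`, i.e. of elements of `Fin ((k+1)(2^(e i) - 1) + 1)`. -/
def S_Geo : Prop := ∀ (d k : ℕ), 1 ≤ k → k ≤ d → ∀ (e : Fin (d - k + 1) → ℕ)
  (a : (i : Fin (d - k + 1)) → Fin ((k + 1) * (2 ^ e i - 1) + 1) → E d),
  (∀ u : E d, u ≠ 0 →
    ∃ i, (Finset.univ.filter (fun l => inner ℝ (a i l) u = (0 : ℝ))).card < 2 ^ e i) →
  ∃ (v : Fin k → E d) (q : E d), LinearIndependent ℝ v ∧ q ∈ Submodule.span ℝ (Set.range v) ∧
    ∀ i, ∃ P : Fin (2 ^ e i) → Finset (Fin ((k + 1) * (2 ^ e i - 1) + 1)),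
      (∀ j j', j ≠ j' → Disjoint (P j) (P j')) ∧
      ∀ j, ∀ w ∈ Submodule.span ℝ (Set.range v), ∃ l ∈ P j,
        (inner ℝ (a i l) q - 1) * inner ℝ (a i l) w ≤ (0 : ℝ)

end Pool.Agent.MPc05127.PP
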