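import Pool.Agent.Lib.MP_c05127_co.PP.SpecT

/-!
# MP_c05127_co, project PP, module Cb: the combinatorial theorem
-/

set_option autoImplicit false

open scoped Classical

namespace Pool.Agent.MPc05127.PP

namespace CbAux

private theorem abs_inn_le (e : ℤ) : |inn e| ≤ |e| := by
  unfold inn
  rcases lt_trichotomy e 0 with h | h | h
  · rw [Int.sign_eq_neg_one_of_neg h, abs_of_neg h, abs_le]
    constructor <;> linarith
  · subst h
    simp
  · rw [Int.sign_eq_one_of_pos h, abs_of_pos h, abs_le]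
    constructor <;> linarith

private theorem abs_sub_inn_le (e : ℤ) : |e - inn e| ≤ 1 := by
  unfold inn
  rw [sub_sub_cancel]
  rcases lt_trichotomy e 0 with h | h | h
  · rw [Int.sign_eq_neg_one_of_neg h]; norm_num
  · subst h
    simp
  · rw [Int.sign_eq_one_of_pos h]; norm_num

end CbAux

theorem tCb (hIv : S_Iv) (hRf : S_Rf) (hRe : S_Re) : S_Cb := by
  intro C J _ _ b N s hN hs
  have : Fact (Nat.Prime 2) := ⟨Nat.prime_two⟩
  set T : Num C := Fintype.equivFin C with hT
  have h1 : tsum N T s = 1 :=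
    (hIv C J b N T s (rf b T) hN hs (hRf C J b N T hN)).trans (hRe C J b N T hN)
  have h2 : tsum N T s ≠ 0 := by
    rw [h1]; exact one_ne_zero
  unfold tsum at h2
  obtain ⟨w, hw, h3⟩ := Finset.exists_ne_zero_of_sum_ne_zero h2
  obtain ⟨pos, _, h4⟩ := Finset.exists_ne_zero_of_sum_ne_zero h3
  unfold alt at h4
  rw [Finset.prod_ne_zero_iff] at h4
  have hwc : ∀ c, |w c| ≤ N := by
    intro c
    have h5 := Fintype.mem_piFinset.1 hw c
    unfold ZN at h5
    have h6 := Finset.mem_Icc.1 (Finset.mem_of_mem_erase h5)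
    exact abs_le.2 h6
  have hgr : ∀ l, vert w pos.n l ∈ Gr C N := by
    intro l c
    show |if pos.n c < l then w c else inn (w c)| ≤ N
    split_ifs
    · exact hwc c
    · exact (CbAux.abs_inn_le _).trans (hwc c)
  have hdist : ∀ l c, |vert w pos.n l c - vert w pos.n 0 c| ≤ 1 := by
    intro l c
    show |(if pos.n c < l then w c else inn (w c)) - (if pos.n c < 0 then w c else inn (w c))| ≤ 1
    rw [if_neg (Nat.not_lt_zero _)]
    split_ifs
    · exact CbAux.abs_sub_inn_le _
    · simp
  refine ⟨vert w pos.n 0, hgr 0, fun c => ?_⟩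
  have hlt : T.n c < Fintype.card C := (T c).2
  have hsg : ∀ v, sg T s (T.n c) v = s c v := by
    intro v
    unfold sg
    rw [dif_pos hlt]
    have h7 : (⟨T.n c, hlt⟩ : Fin (Fintype.card C)) = T c := Fin.ext rfl
    rw [h7, Equiv.symm_apply_apply]
  refine ⟨vert w pos.n (T.n c), hgr _, vert w pos.n (T.n c + 1), hgr _,
    fun c' => ⟨hdist _ c', hdist _ c'⟩, fun heq => ?_⟩
  have h8 := h4 (T.n c) (Finset.mem_range.2 hlt)
  rw [hsg, hsg, heq] at h8
  exact h8 (CharTwo.add_self_eq_zero _)

end Pool.Agent.MPc05127.PP
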