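import Pool.Agent.Lib.MP_c05127_co.PP.SpecG

/-!
# MP_c05127_co, project PP: counting the functions of every block (`S_Ct`)
-/

set_option autoImplicit false

open scoped Classical

namespace Pool.Agent.MPc05127.PP

namespace CtAux

/-- The number of nonempty subsets of `Fin n`. -/
theorem card_ne (n : ℕ) : Fintype.card {χ : Finset (Fin n) // χ.Nonempty} = 2 ^ n - 1 := by
  rw [Fintype.card_subtype]
  have h : (Finset.univ.filter (fun χ : Finset (Fin n) => χ.Nonempty)) =
      (Finset.univ : Finset (Finset (Fin n))).erase ∅ := by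
    ext χ
    simp [Finset.nonempty_iff_ne_empty]
  rw [h, Finset.card_erase_of_mem (Finset.mem_univ _), Finset.card_univ, Fintype.card_finset,
    Fintype.card_fin]

/-- The functions of the blocks of the family `i`. -/
theorem card_fam {m : ℕ} (k : ℕ) (e : Fin m → ℕ) (i : Fin m) :
    ∑ t : Fin (e i), ni k e i t = (k + 1) * (2 ^ e i - 1) := by
  have h1 : ∑ t : Fin (e i), ni k e i t =
      Fintype.card (Σ t : Fin (e i), {c : Cx k e // BB c = Sum.inl ⟨i, t⟩}) := by
    rw [Fintype.card_sigma]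
    rfl
  have h2 : Fintype.card ({χ : Finset (Fin (e i)) // χ.Nonempty} × Option (Fin k)) =
      Fintype.card (Σ t : Fin (e i), {c : Cx k e // BB c = Sum.inl ⟨i, t⟩}) := by
    refine Fintype.card_of_bijective
      (f := fun p => ⟨p.1.1.min' p.1.2, ⟨Sum.inl ⟨i, p.1, p.2⟩, rfl⟩⟩) ⟨?_, ?_⟩
    · rintro ⟨χ, o⟩ ⟨χ', o'⟩ h
      have h3 := congrArg (fun z : (Σ t : Fin (e i), {c : Cx k e // BB c = Sum.inl ⟨i, t⟩}) =>
        z.2.1) h
      simp only [Sum.inl.injEq, Sigma.mk.injEq, heq_eq_eq, true_and] at h3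
      exact h3
    · rintro ⟨t, ⟨c, hc⟩⟩
      rcases c with ⟨i', χ, o⟩ | (p | p)
      · have h4 : (⟨i', χ.1.min' χ.2⟩ : Σ i : Fin m, Fin (e i)) = ⟨i, t⟩ := by
          have h5 : (Sum.inl ⟨i', χ.1.min' χ.2⟩ : Jx k e) = Sum.inl ⟨i, t⟩ := hc
          exact Sum.inl.inj h5
        obtain rfl : i' = i := congrArg Sigma.fst h4
        obtain rfl : χ.1.min' χ.2 = t := by
          have := (Sigma.mk.injEq _ _ _ _).mp h4
          exact eq_of_heq this.2
        exact ⟨(χ, o), rfl⟩
      · exact absurd hc (by simp [BB])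
      · rcases p with ⟨b, j⟩
        exact absurd hc (by simp [BB])
  rw [h1, ← h2, Fintype.card_prod, Fintype.card_option, Fintype.card_fin, card_ne, Nat.mul_comm]

/-- The functions of the block of the `b`-th vector. -/
theorem card_vec {m k : ℕ} (hm : 1 ≤ m) (e : Fin m → ℕ) (b : Fin k) :
    nn (e := e) (Sum.inr b) + 1 + (b : ℕ) + 1 ≤ k + m := by
  have h1 : nn (e := e) (Sum.inr b) ≤
      Fintype.card ({b' : Fin k // b < b'} ⊕ {i : Fin m // (i : ℕ) ≠ 0}) := by
    refine Fintype.card_le_of_surjective (fun z : {b' : Fin k // b < b'} ⊕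
      {i : Fin m // (i : ℕ) ≠ 0} => (Sum.elim
        (fun b' => ⟨Sum.inr (Sum.inl ⟨(b, b'.1), b'.2⟩), rfl⟩)
        (fun i => ⟨Sum.inr (Sum.inr (b, i)), rfl⟩) z : {c : Cx k e // BB c = Sum.inr b})) ?_
    rintro ⟨c, hc⟩
    rcases c with ⟨i', χ, o⟩ | (⟨⟨p, q⟩, hp⟩ | ⟨b', i⟩)
    · exact absurd hc (by simp [BB])
    · obtain rfl : p = b := by
        have h5 : (Sum.inr p : Jx k e) = Sum.inr b := hc
        exact Sum.inr.inj h5
      exact ⟨Sum.inl ⟨q, hp⟩, rfl⟩
    · obtain rfl : b' = b := by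
        have h5 : (Sum.inr b' : Jx k e) = Sum.inr b := hc
        exact Sum.inr.inj h5
      exact ⟨Sum.inr i, rfl⟩
  have h2 : Fintype.card {b' : Fin k // b < b'} = k - 1 - b := by
    rw [Fintype.card_subtype, ← Fin.card_Ioi b]
    congr 1
    ext x
    simp
  have h3 : Fintype.card {i : Fin m // (i : ℕ) ≠ 0} = m - 1 := by
    have hm0 : 0 < m := hm
    rw [Fintype.card_subtype]
    have h4 : (Finset.univ.filter (fun i : Fin m => (i : ℕ) ≠ 0)) =
        (Finset.univ : Finset (Fin m)).erase ⟨0, hm0⟩ := by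
      ext i
      rw [Finset.mem_filter, Finset.mem_erase]
      refine ⟨fun h => ⟨fun h0 => h.2 (congrArg Fin.val h0), h.1⟩, fun h => ⟨h.2, fun h0 =>
        h.1 (Fin.ext h0)⟩⟩
    rw [h4, Finset.card_erase_of_mem (Finset.mem_univ _), Finset.card_univ, Fintype.card_fin]
  rw [Fintype.card_sum, h2, h3] at h1
  have h5 := b.2
  omega

end CtAux

/-- **Counting.** -/
theorem tCt : S_Ct := by
  intro d k hk hkd e
  refine ⟨fun i => CtAux.card_fam k e i, fun b => ?_⟩
  have h := CtAux.card_vec (k := k) (Nat.le_add_left 1 (d - k)) e b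
  omega

end Pool.Agent.MPc05127.PP
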