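import Pool.Agent.Lib.MP_c05127_co.PP.SpecT

/-!
# MP_c05127_co, project PP: the cube theorem (`S_Cu`)
-/

set_option autoImplicit false

open scoped Classical

namespace Pool.Agent.MPc05127.PP

namespace CuAux

/-- The point `v / N`. -/
private noncomputable def pt {C : Type} (N : ℕ) (v : C → ℤ) : C → ℝ := fun c => (v c : ℝ) / N

/-- The signs of the functions at the grid points. -/
private noncomputable def sgn {C J : Type} [Fintype C] [Fintype J] (b : Blk C J)
    (f : C → (C → ℝ) → ℝ) (N : ℕ) (T : Num C) (c : C) (v : C → ℤ) : ZMod 2 :=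
  if f c (pt N v) < 0 then 1 else if 0 < f c (pt N v) then 0 else rf b T c v

private theorem pt_mem {C : Type} {N : ℕ} (hN : 1 ≤ N) {v : C → ℤ} (hv : v ∈ Gr C N) (c : C) :
    |pt N v c| ≤ 1 := by
  have hN' : (0 : ℝ) < N := by exact_mod_cast hN
  unfold pt
  rw [abs_div, abs_of_pos hN', div_le_one hN']
  have := hv c
  exact_mod_cast this

private theorem pt_flip {C : Type} (N : ℕ) (S : C → Prop) (v : C → ℤ) :
    pt N (flip S v) = flip S (pt N v) := by
  funext c
  unfold pt flip
  split_ifs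
  · push_cast
    ring
  · rfl

private theorem pt_sub {C : Type} {N : ℕ} (hN : 1 ≤ N) {v v' : C → ℤ} {c : C}
    (h : |v c - v' c| ≤ 1) : |pt N v c - pt N v' c| ≤ 1 / N := by
  have hN' : (0 : ℝ) < N := by exact_mod_cast hN
  unfold pt
  rw [← sub_div, abs_div, abs_of_pos hN']
  refine div_le_div_of_nonneg_right ?_ hN'.le
  exact_mod_cast h

private theorem two : (1 : ZMod 2) + 1 = 0 := by decide

private theorem ok {C J : Type} [Fintype C] [Fintype J] (hRf : S_Rf) (b : Blk C J)
    (f : C → (C → ℝ) → ℝ) (N : ℕ) (hN : 1 ≤ N) (T : Num C)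
    (hflip : ∀ (j : J) (x : C → ℝ), (∀ c, |x c| ≤ 1) → (∃ c, b.B c = some j ∧ |x c| = 1) → ∀ c,
      f c (flip (b.R j) x) = if b.χ c j then -f c x else f c x)
    (hmir : ∀ c, b.B c = none → ∀ x : C → ℝ, (∀ c', |x c'| ≤ 1) →
      (x c = 1 → 0 < f c x) ∧ (x c = -1 → f c x < 0)) : b.Ok N (sgn b f N T) := by
  have hN' : (N : ℝ) ≠ 0 := by
    have : (0 : ℝ) < N := by exact_mod_cast hN
    exact this.ne'
  have hR := hRf C J b N T hN
  constructor
  · intro j v hv hex c
    obtain ⟨c0, hc0, hc1⟩ := hex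
    have h1 := hflip j (pt N v) (pt_mem hN hv) ⟨c0, hc0, by
      unfold pt
      rw [abs_div, Nat.abs_cast]
      have : |(v c0 : ℝ)| = N := by exact_mod_cast hc1
      rw [this, div_self hN']⟩ c
    have h2 := hR.blk j v hv ⟨c0, hc0, hc1⟩ c
    unfold sgn
    rw [pt_flip, h1]
    by_cases hx : b.χ c j
    · rw [if_pos hx] at h2
      rw [if_pos hx, if_pos hx]
      rcases lt_trichotomy (f c (pt N v)) 0 with h | h | h
      · rw [if_neg (by linarith), if_pos (by linarith), if_pos h, two]
      · rw [if_neg (by linarith), if_neg (by linarith), if_neg (by linarith), if_neg (by linarith)]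
        exact h2
      · rw [if_pos (by linarith), if_neg (by linarith), if_pos h, zero_add]
    · rw [if_neg hx] at h2
      rw [if_neg hx, if_neg hx]
      split_ifs
      · rw [add_zero]
      · rw [add_zero]
      · exact h2
  · intro c v hv hB
    have h1 := hmir c hB (pt N v) (pt_mem hN hv)
    constructor
    · intro hc
      have h2 : 0 < f c (pt N v) := h1.1 (by
        unfold pt
        rw [hc]
        push_cast
        exact div_self hN')
      unfold sgn
      rw [if_neg (by linarith), if_pos h2]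
    · intro hc
      have h2 : f c (pt N v) < 0 := h1.2 (by
        unfold pt
        rw [hc]
        push_cast
        rw [neg_div, div_self hN'])
      unfold sgn
      rw [if_pos h2]

end CuAux

open CuAux in
theorem tCu (hRf : S_Rf) (hCb : S_Cb) : S_Cu := by
  intro C J _ _ b f hf hflip hmir
  by_contra hno
  push Not at hno
  set Q : Set (C → ℝ) := {x | ∀ c', |x c'| ≤ 1} with hQ
  have hQc : IsCompact Q := by
    have h : Q = Set.pi Set.univ (fun _ : C => Set.Icc (-1 : ℝ) 1) := by
      ext x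
      simp only [hQ, Set.mem_setOf_eq, Set.mem_pi, Set.mem_univ, true_implies, Set.mem_Icc, abs_le]
    rw [h]
    exact isCompact_univ_pi fun _ => isCompact_Icc
  have h0Q : (0 : C → ℝ) ∈ Q := fun c => by simp
  have hg : ContinuousOn (fun x => ∑ c, |f c x|) Q :=
    continuousOn_finsetSum _ fun c _ => (hf c).abs
  obtain ⟨x0, hx0, hmin⟩ := hQc.exists_isMinOn ⟨0, h0Q⟩ hg
  have hpos : 0 < ∑ c, |f c x0| := by
    obtain ⟨c, hc⟩ := hno x0 hx0
    exact Finset.sum_pos' (fun c _ => abs_nonneg _) ⟨c, Finset.mem_univ c, abs_pos.mpr hc⟩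
  set ε : ℝ := (∑ c, |f c x0|) / (Fintype.card C + 1) with hε
  have hcard : (0 : ℝ) < (Fintype.card C : ℝ) + 1 := by positivity
  have hε0 : 0 < ε := div_pos hpos hcard
  have hbig : ∀ x ∈ Q, ∃ c, ε ≤ |f c x| := by
    intro x hx
    by_contra hcon
    push Not at hcon
    have h1 : ∑ c, |f c x| ≤ (Fintype.card C : ℝ) * ε := by
      have h2 := Finset.sum_le_card_nsmul Finset.univ (fun c => |f c x|) ε
        (fun c _ => (hcon c).le)
      rwa [Finset.card_univ, nsmul_eq_mul] at h2
    have h3 : ∑ c, |f c x0| ≤ ∑ c, |f c x| := hmin hx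
    have h4 : ∑ c, |f c x0| = (Fintype.card C + 1) * ε := by
      rw [hε]
      field_simp
    nlinarith
  have hFc : ContinuousOn (fun x => fun c => f c x) Q := continuousOn_pi.mpr hf
  have hFu := hQc.uniformContinuousOn_of_continuous hFc
  obtain ⟨δ, hδ0, hδ⟩ := Metric.uniformContinuousOn_iff.mp hFu ε hε0
  obtain ⟨n, hn⟩ := exists_nat_one_div_lt hδ0
  have hclose : ∀ x ∈ Q, ∀ x' ∈ Q, (∀ c, |x c - x' c| ≤ 1 / ((n + 1 : ℕ) : ℝ)) → ∀ c,
      |f c x - f c x'| < ε := by
    intro x hx x' hx' h c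
    have h1 : dist x x' ≤ 1 / ((n + 1 : ℕ) : ℝ) := by
      rw [dist_pi_le_iff (by positivity)]
      intro c'
      rw [Real.dist_eq]
      exact h c'
    have h2 : dist x x' < δ := lt_of_le_of_lt h1 (by push_cast; exact hn)
    have h3 := hδ x hx x' hx' h2
    have h4 := dist_le_pi_dist (fun c => f c x) (fun c => f c x') c
    rw [← Real.dist_eq]
    exact lt_of_le_of_lt h4 h3
  have hN : 1 ≤ n + 1 := by omega
  have hok := ok hRf b f (n + 1) hN (Fintype.equivFin C) hflip hmir
  obtain ⟨v₀, hv₀, hv⟩ := hCb C J b (n + 1) _ hN hok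
  obtain ⟨c, hc⟩ := hbig (pt (n + 1) v₀) (pt_mem hN hv₀)
  obtain ⟨v, hvG, v', hvG', hd, hne⟩ := hv c
  apply hne
  have k1 := hclose (pt (n + 1) v) (pt_mem hN hvG) (pt (n + 1) v₀) (pt_mem hN hv₀)
    (fun c' => pt_sub hN (hd c').1) c
  have k2 := hclose (pt (n + 1) v') (pt_mem hN hvG') (pt (n + 1) v₀) (pt_mem hN hv₀)
    (fun c' => pt_sub hN (hd c').2) c
  rw [abs_lt] at k1 k2
  unfold sgn
  rcases le_abs.mp hc with h | h
  · rw [if_neg (by linarith), if_pos (by linarith), if_neg (by linarith), if_pos (by linarith)]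
  · rw [if_pos (by linarith), if_pos (by linarith)]

end Pool.Agent.MPc05127.PP
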