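import Pool.Agent.Lib.MP_c05127_co.PP.SpecG

/-!
# MP_c05127_co, project PP: `S_Fc`, continuity of the functions
-/

set_option autoImplicit false

open scoped Classical

namespace Pool.Agent.MPc05127.PP

section

variable {m k d : ℕ} {e : Fin m → ℕ}

private theorem contX (j : Jx k e) (c : ℕ) :
    Continuous (fun z : (Jx k e → ℕ → ℝ) × (Fin k → ℝ) => z.1 j c) :=
  (continuous_apply c).comp ((continuous_apply j).comp continuous_fst)

private theorem contY (b : Fin k) :
    Continuous (fun z : (Jx k e → ℕ → ℝ) × (Fin k → ℝ) => z.2 b) :=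
  (continuous_apply b).comp continuous_snd

private theorem contVV (b : Fin k) :
    Continuous (fun z : (Jx k e → ℕ → ℝ) × (Fin k → ℝ) => vv d z.1 b) := by
  unfold vv
  exact (PiLp.continuous_toLp 2 _).comp (continuous_pi (fun c => contX (Sum.inr b) (c : ℕ)))

private theorem contUU :
    Continuous (fun z : (Jx k e → ℕ → ℝ) × (Fin k → ℝ) => uu d z.1 z.2) := by
  unfold uu
  exact continuous_finsetSum _ (fun b _ => (contY b).smul (contVV b))

private theorem contTa :
    Continuous (fun z : (Jx k e → ℕ → ℝ) × (Fin k → ℝ) => ta z.2) := by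
  unfold ta
  exact continuous_const.max (continuous_const.sub (continuous_const.mul continuous_snd.norm))

private theorem contSi :
    Continuous (fun z : (Jx k e → ℕ → ℝ) × (Fin k → ℝ) => si z.2) := by
  unfold si
  exact continuous_const.max ((continuous_const.mul continuous_snd.norm).sub continuous_const)

private theorem contFF (a : Fin m → ℕ → E d) (i : Fin m) (b : Fin k) :
    Continuous (fun z : (Jx k e → ℕ → ℝ) × (Fin k → ℝ) => FF a z.1 z.2 i b) := by
  refine continuous_pi (fun h => ?_)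
  unfold FF
  exact (contTa.sub (continuous_const.inner contUU)).mul (continuous_const.inner (contVV b))

private theorem contXX (i : Fin m) :
    Continuous (fun z : (Jx k e → ℕ → ℝ) × (Fin k → ℝ) => xx z.1 i) := by
  refine continuous_pi (fun t => ?_)
  exact (continuous_apply (Sum.inl ⟨i, t⟩ : Jx k e)).comp continuous_fst

private theorem xxDom (i : Fin m) {z : (Jx k e → ℕ → ℝ) × (Fin k → ℝ)} (hz : z ∈ Dom nn) :
    xx z.1 i ∈ DomF (ni k e i) := by
  intro t
  exact (hz.1 (Sum.inl ⟨i, t⟩)).1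

private theorem contPhG (hPc : S_Pc) (i : Fin m) (χ : Finset (Fin (e i)))
    (F : (Jx k e → ℕ → ℝ) × (Fin k → ℝ) → ℕ → ℝ) (hF : Continuous F)
    (D : Set ((Jx k e → ℕ → ℝ) × (Fin k → ℝ))) (hD : ∀ z ∈ D, xx z.1 i ∈ DomF (ni k e i)) :
    ContinuousOn (fun z : (Jx k e → ℕ → ℝ) × (Fin k → ℝ) =>
      ph (ni k e i) (xx z.1 i) χ (F z)) D := by
  have h := hPc (e i) (ni k e i) χ
  have hf : Continuous (fun z : (Jx k e → ℕ → ℝ) × (Fin k → ℝ) => (xx z.1 i, F z)) :=
    (contXX i).prodMk hF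
  have hm : Set.MapsTo (fun z : (Jx k e → ℕ → ℝ) × (Fin k → ℝ) => (xx z.1 i, F z)) D
      {z | z.1 ∈ DomF (ni k e i)} := fun z hz => hD z hz
  have h3 := ContinuousOn.comp (g := fun z : (Fin (e i) → ℕ → ℝ) × (ℕ → ℝ) => ph (ni k e i) z.1 χ z.2)
    (f := fun z : (Jx k e → ℕ → ℝ) × (Fin k → ℝ) => (xx z.1 i, F z)) h hf.continuousOn hm
  exact h3

private theorem contPh (hPc : S_Pc) (a : Fin m → ℕ → E d) (i : Fin m) (χ : Finset (Fin (e i))) (b : Fin k) :
    ContinuousOn (fun z : (Jx k e → ℕ → ℝ) × (Fin k → ℝ) =>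
      ph (ni k e i) (xx z.1 i) χ (FF a z.1 z.2 i b)) (Dom nn) :=
  contPhG hPc i χ (fun z => FF a z.1 z.2 i b) (contFF a i b) (Dom nn) (fun _ hz => xxDom i hz)

private theorem contPh1 (hPc : S_Pc) (i : Fin m) (χ : Finset (Fin (e i))) :
    ContinuousOn (fun z : (Jx k e → ℕ → ℝ) × (Fin k → ℝ) =>
      ph (ni k e i) (xx z.1 i) χ (fun _ => 1)) (Dom nn) :=
  contPhG hPc i χ (fun _ _ => 1) continuous_const (Dom nn) (fun _ hz => xxDom i hz)

end

theorem tFc (hPc : S_Pc) : S_Fc := by
  intro m k d _ e a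
  refine ⟨?_, ?_⟩
  · intro c
    match c with
    | Sum.inl ⟨i, χ, none⟩ => exact contPh1 hPc i χ.1
    | Sum.inl ⟨i, χ, some b⟩ => exact contPh hPc a i χ.1 b
    | Sum.inr (Sum.inl p) => exact ((contVV p.1.1).inner (contVV p.1.2)).continuousOn
    | Sum.inr (Sum.inr (b, i)) => exact contPh hPc a i ∅ b
  · intro b
    unfold gn
    exact (((continuous_const.sub contSi).continuousOn.mul (contPh hPc a 0 ∅ b)).neg).add
      ((contSi.mul ((contY b).mul ((contVV b).norm.pow 2))).continuousOn)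

end Pool.Agent.MPc05127.PP
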