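import Pool.Agent.Lib.MP_c05127_co.PP.SpecT

/-!
# MP_c05127_co, project PP: inner faces cancel
-/

set_option autoImplicit false

open scoped Classical

namespace Pool.Agent.MPc05127.PP

namespace FiAux

theorem vert_eq {C : Type} [Fintype C] (w : C → ℤ) (pos : Num C) {i : ℕ} (hi : 0 < i)
    (hiD : i < Fintype.card C) (l : ℕ) (hl : l ≠ i) :
    vert w (Num.n (pos.trans (Equiv.swap (⟨i - 1, by omega⟩ : Fin (Fintype.card C)) ⟨i, hiD⟩))) l =
      vert w pos.n l := by
  funext c
  have h : (Num.n (pos.trans (Equiv.swap (⟨i - 1, by omega⟩ : Fin (Fintype.card C)) ⟨i, hiD⟩)) c < l)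
      ↔ (pos.n c < l) := by
    unfold Num.n
    rw [Equiv.trans_apply]
    by_cases h1 : pos c = ⟨i - 1, by omega⟩
    · rw [h1, Equiv.swap_apply_left]
      simp only
      omega
    · by_cases h2 : pos c = ⟨i, hiD⟩
      · rw [h2, Equiv.swap_apply_right]
        simp only
        omega
      · rw [Equiv.swap_apply_of_ne_of_ne h1 h2]
  unfold vert
  by_cases hc : pos.n c < l
  · rw [if_pos hc, if_pos (h.2 hc)]
  · rw [if_neg hc, if_neg (fun h' => hc (h.1 h'))]

theorem skip_eq {C : Type} [Fintype C] (w : C → ℤ) (pos : Num C) {i : ℕ} (hi : 0 < i)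
    (hiD : i < Fintype.card C) :
    skip i (vert w (Num.n (pos.trans
      (Equiv.swap (⟨i - 1, by omega⟩ : Fin (Fintype.card C)) ⟨i, hiD⟩)))) =
      skip i (vert w pos.n) := by
  funext l
  unfold skip
  by_cases h : l < i
  · rw [if_pos h, if_pos h, vert_eq w pos hi hiD l (by omega)]
  · rw [if_neg h, if_neg h, vert_eq w pos hi hiD (l + 1) (by omega)]

end FiAux

open FiAux in
theorem tFi : S_Fi := by
  intro C _ b w i hi hiD
  refine Finset.sum_involution (fun (pos : Num C) _ => pos.trans
    (Equiv.swap (⟨i - 1, by omega⟩ : Fin (Fintype.card C)) ⟨i, hiD⟩)) ?_ ?_ ?_ ?_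
  · intro pos _
    rw [skip_eq w pos hi hiD]
    exact CharTwo.add_self_eq_zero _
  · intro pos _ _ heq
    have h1 := congrArg (fun T : Num C => T (pos.symm ⟨i, hiD⟩)) heq
    simp only [Equiv.trans_apply, Equiv.apply_symm_apply, Equiv.swap_apply_right] at h1
    have h2 := congrArg Fin.val h1
    simp only at h2
    omega
  · intro pos _
    exact Finset.mem_univ _
  · intro pos _
    ext c
    simp only [Equiv.trans_apply, Equiv.swap_apply_self]

end Pool.Agent.MPc05127.PP
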