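import Pool.Agent.Lib.MP_c05127_co.PP.SpecG

/-!
# MP_c05127_co, project PP: the vectors of the frame; the Miranda conditions
-/

set_option autoImplicit false

open scoped Classical

namespace Pool.Agent.MPc05127.PP

theorem tFm (hCt : S_Ct) : S_Fm := by
  intro d k hk1 hkd e a z hz
  have h1 : ∀ b, vv d z.1 b ≠ 0 := by
    intro b hb
    obtain ⟨⟨i, hi, hne⟩, -⟩ := hz.1 (Sum.inr b)
    have h2 := (hCt d k hk1 hkd e).2 b
    have h3 : i < d := by omega
    apply hne
    have h4 : vv d z.1 b ⟨i, h3⟩ = 0 := by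
      rw [hb]
      rfl
    exact h4
  refine ⟨h1, fun b => ?_⟩
  have hsi : |z.2 b| = 1 → si z.2 = 1 := by
    intro hb
    have h2 : ‖z.2‖ ≤ 1 := (pi_norm_le_iff_of_nonneg zero_le_one).2 fun i => hz.2 i
    have h3 : 1 ≤ ‖z.2‖ := by
      rw [← hb]
      exact norm_le_pi_norm z.2 b
    have h4 : ‖z.2‖ = 1 := le_antisymm h2 h3
    rw [si, h4]
    norm_num
  have hpos : 0 < ‖vv d z.1 b‖ ^ 2 := pow_pos (norm_pos_iff.2 (h1 b)) 2
  constructor
  · intro hb
    rw [gn, hsi (by rw [hb, abs_one]), hb]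
    linarith
  · intro hb
    rw [gn, hsi (by rw [hb, abs_neg, abs_one]), hb]
    linarith

end Pool.Agent.MPc05127.PP
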