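import Pool.Agent.Lib.MP_c05127_co.PP.SpecT

/-!
# MP_c05127_co, project PP: the first and the last face (helper62)
-/

set_option autoImplicit false

open scoped Classical

namespace Pool.Agent.MPc05127.PP

namespace FoAux

/-- The rotation of the numbers. -/
def rotF (D : ℕ) (x : Fin D) : Fin D :=
  if (x : ℕ) = 0 then ⟨D - 1, by have := x.2; omega⟩ else ⟨(x : ℕ) - 1, by have := x.2; omega⟩

lemma rotF_val (D : ℕ) (x : Fin D) :
    (rotF D x : ℕ) = if (x : ℕ) = 0 then D - 1 else (x : ℕ) - 1 := by
  unfold rotF
  split_ifs <;> rfl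

lemma rotF_inj (D : ℕ) : Function.Injective (rotF D) := by
  intro x y h
  have h1 : (rotF D x : ℕ) = (rotF D y : ℕ) := by rw [h]
  rw [rotF_val, rotF_val] at h1
  have hx := x.2
  have hy := y.2
  apply Fin.ext
  split_ifs at h1 <;> omega

noncomputable def rot (D : ℕ) : Fin D ≃ Fin D :=
  Equiv.ofBijective (rotF D) (Finite.injective_iff_bijective.1 (rotF_inj D))

/-- Renumbering. -/
def shift {C : Type} [Fintype C] (e : Fin (Fintype.card C) ≃ Fin (Fintype.card C)) : Num C ≃ Num C where
  toFun pos := pos.trans e
  invFun pos := pos.trans e.symm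
  left_inv pos := by ext c; simp
  right_inv pos := by ext c; simp

lemma shift_n {C : Type} [Fintype C] (pos : Num C) (c : C) :
    Num.n (shift (rot (Fintype.card C)) pos) c =
      if pos.n c = 0 then Fintype.card C - 1 else pos.n c - 1 := by
  exact rotF_val _ _

lemma n_lt {C : Type} [Fintype C] (pos : Num C) (c : C) : pos.n c < Fintype.card C := (pos c).2

lemma n_inj {C : Type} [Fintype C] (pos : Num C) {c c' : C} (h : pos.n c = pos.n c') : c = c' :=
  pos.injective (Fin.ext h)

lemma inn_neg (e : ℤ) : inn (-e) = -inn e := by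
  unfold inn
  rw [Int.sign_neg]
  ring

lemma inn_abs (e : ℤ) : |inn e| ≤ |e| := by
  unfold inn
  rcases lt_trichotomy e 0 with h | h | h
  · rw [Int.sign_eq_neg_one_of_neg h, abs_of_neg h, abs_le]
    constructor <;> omega
  · rw [h]; simp
  · rw [Int.sign_eq_one_of_pos h, abs_of_pos h, abs_le]
    constructor <;> omega

lemma mem_ZN (N : ℕ) (e : ℤ) : e ∈ ZN N ↔ e ≠ 0 ∧ |e| ≤ N := by
  unfold ZN
  rw [Finset.mem_erase, Finset.mem_Icc, abs_le]

/-- Telescoping. -/
lemma tele (h : ℤ → ZMod 2) (N : ℕ) : ∑ e ∈ ZN N, (h e + h (inn e)) = h N + h (-(N : ℤ)) := by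
  induction N with
  | zero =>
    have h0 : ZN 0 = ∅ := by
      ext e
      rw [mem_ZN]
      simp
    rw [h0, Finset.sum_empty]
    simp only [Nat.cast_zero, neg_zero]
    exact (CharTwo.add_self_eq_zero _).symm
  | succ N ih =>
    have h1 : ZN (N + 1) = insert ((N : ℤ) + 1) (insert (-((N : ℤ) + 1)) (ZN N)) := by
      ext e
      rw [Finset.mem_insert, Finset.mem_insert, mem_ZN, mem_ZN, abs_le, abs_le]
      push_cast
      omega
    have h2 : -((N : ℤ) + 1) ∉ ZN N := by
      rw [mem_ZN, abs_le]
      omega
    have h3 : ((N : ℤ) + 1) ∉ insert (-((N : ℤ) + 1)) (ZN N) := by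
      rw [Finset.mem_insert, mem_ZN, abs_le]
      omega
    have h4 : inn ((N : ℤ) + 1) = N := by
      unfold inn
      rw [Int.sign_eq_one_of_pos (by omega)]
      ring
    rw [h1, Finset.sum_insert h3, Finset.sum_insert h2, ih, inn_neg, h4]
    push_cast
    have e1 : h (N : ℤ) + h (N : ℤ) = 0 := CharTwo.add_self_eq_zero _
    have e2 : h (-(N : ℤ)) + h (-(N : ℤ)) = 0 := CharTwo.add_self_eq_zero _
    linear_combination e1 + e2

variable {C : Type}

/-- The sequence of points with the value `x` of the coordinate `p`. -/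
noncomputable def tup (p : C) (n : C → ℕ) (w : C → ℤ) (x : ℤ) (l : ℕ) : C → ℤ :=
  fun c => if c = p then x else vert w n l c

lemma tup_update (p : C) (n : C → ℕ) (w : C → ℤ) (x y : ℤ) :
    tup p n (Function.update w p y) x = tup p n w x := by
  funext l c
  unfold tup vert
  by_cases h : c = p
  · rw [if_pos h, if_pos h]
  · rw [if_neg h, if_neg h, Function.update_of_ne h]

lemma tup_self (p : C) (n : C → ℕ) (w : C → ℤ) (x : ℤ) (l : ℕ) : tup p n w x l p = x := if_pos rfl

lemma tup_ne (p : C) (n : C → ℕ) (w : C → ℤ) (x : ℤ) (l : ℕ) {c : C} (h : c ≠ p) :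
    tup p n w x l c = vert w n l c := if_neg h

lemma tup_flip (p : C) (n : C → ℕ) (w : C → ℤ) (x : ℤ) (S : C → Prop) (hp : S p) (l : ℕ) :
    tup p n (flip S w) (-x) l = flip S (tup p n w x l) := by
  funext c
  have hf : ∀ u : C → ℤ, flip S u c = if S c then -u c else u c := fun u => rfl
  rw [hf]
  by_cases h : c = p
  · rw [h, tup_self, tup_self, if_pos hp]
  · rw [tup_ne p n _ _ l h, tup_ne p n _ _ l h]
    unfold vert
    rw [hf]
    by_cases hS : S c
    · rw [if_pos hS, if_pos hS, inn_neg]
      split_ifs <;> rfl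
    · rw [if_neg hS, if_neg hS]

lemma tup_gr (p : C) (n : C → ℕ) (w : C → ℤ) (x : ℤ) (N : ℕ) (hx : |x| ≤ N) (hw : ∀ c, w c ∈ ZN N)
    (l : ℕ) : tup p n w x l ∈ Gr C N := by
  intro c
  unfold tup vert
  have h := ((mem_ZN N _).1 (hw c)).2
  split_ifs
  · exact hx
  · exact h
  · exact le_trans (inn_abs _) h

variable [Fintype C]

/-- Sum over one coordinate first. -/
lemma sum_split (N : ℕ) (hN : 1 ≤ N) (p : C) (F : (C → ℤ) → ZMod 2) :
    ∑ w ∈ Fintype.piFinset (fun _ : C => ZN N), F w =
      ∑ r ∈ (Fintype.piFinset (fun _ : C => ZN N)).filter (fun w : C → ℤ => w p = (N : ℤ)),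
        ∑ e ∈ ZN N, F (Function.update r p e) := by
  have hNN : (N : ℤ) ∈ ZN N := by
    rw [mem_ZN, abs_of_nonneg (by omega)]
    omega
  rw [← Finset.sum_product']
  symm
  refine Finset.sum_nbij' (fun x => Function.update x.1 p x.2)
    (fun w => (Function.update w p (N : ℤ), w p)) ?_ ?_ ?_ ?_ ?_
  · rintro ⟨r, e⟩ h
    rw [Finset.mem_product, Finset.mem_filter, Fintype.mem_piFinset] at h
    rw [Fintype.mem_piFinset]
    intro c
    by_cases hc : c = p
    · rw [hc]
      simp only [Function.update_self]
      exact h.2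
    · simp only [Function.update_of_ne hc]
      exact h.1.1 c
  · intro w h
    rw [Fintype.mem_piFinset] at h
    rw [Finset.mem_product, Finset.mem_filter, Fintype.mem_piFinset]
    refine ⟨⟨fun c => ?_, ?_⟩, h p⟩
    · by_cases hc : c = p
      · rw [hc]
        simp only [Function.update_self]
        exact hNN
      · simp only [Function.update_of_ne hc]
        exact h c
    · simp only [Function.update_self]
  · rintro ⟨r, e⟩ h
    rw [Finset.mem_product, Finset.mem_filter, Fintype.mem_piFinset] at h
    have h1 : r p = N := h.1.2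
    simp only [Function.update_idem, Function.update_self]
    rw [← h1, Function.update_eq_self]
  · intro w h
    simp only [Function.update_idem, Function.update_eq_self]
  · rintro ⟨r, e⟩ h
    rfl

end FoAux

open FoAux in
theorem tFo : S_Fo := by
  intro C _ N b hN hD hb hp
  have hsum : ∀ w : C → ℤ, ∑ pos : Num C, b (skip 0 (vert w pos.n)) =
      ∑ pos : Num C, b (tup (pos.symm ⟨Fintype.card C - 1, by omega⟩) pos.n w
        (w (pos.symm ⟨Fintype.card C - 1, by omega⟩))) := by
    intro w
    refine Eq.trans ?_ (Equiv.sum_comp (shift (rot (Fintype.card C))) (fun pos : Num C =>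
      b (tup (pos.symm ⟨Fintype.card C - 1, by omega⟩) pos.n w
        (w (pos.symm ⟨Fintype.card C - 1, by omega⟩)))))
    refine Finset.sum_congr rfl fun pos _ => ?_
    apply hb
    intro l hl
    set p := (shift (rot (Fintype.card C)) pos).symm ⟨Fintype.card C - 1, by omega⟩ with hpdef
    have hp1 : Num.n (shift (rot (Fintype.card C)) pos) p = Fintype.card C - 1 := by
      unfold Num.n
      rw [hpdef, Equiv.apply_symm_apply]
    have hp2 : pos.n p = 0 := by
      rw [shift_n] at hp1
      have := n_lt pos p
      split_ifs at hp1 <;> omega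
    funext c
    unfold skip tup vert
    rw [if_neg (Nat.not_lt_zero l)]
    by_cases hc : c = p
    · rw [if_pos hc, hc, if_pos (by omega)]
    · rw [if_neg hc]
      have hc2 : pos.n c ≠ 0 := fun h => hc (n_inj pos (by rw [h, hp2]))
      rw [shift_n, if_neg hc2]
      by_cases h : pos.n c < l + 1
      · rw [if_pos h, if_pos (by omega)]
      · rw [if_neg h, if_neg (by omega)]
  have hlast : ∀ (w : C → ℤ) (pos : Num C), b (skip (Fintype.card C) (vert w pos.n)) =
      b (tup (pos.symm ⟨Fintype.card C - 1, by omega⟩) pos.n w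
        (inn (w (pos.symm ⟨Fintype.card C - 1, by omega⟩)))) := by
    intro w pos
    apply hb
    intro l hl
    set p := pos.symm ⟨Fintype.card C - 1, by omega⟩ with hpdef
    have hp1 : pos.n p = Fintype.card C - 1 := by
      unfold Num.n
      rw [hpdef, Equiv.apply_symm_apply]
    funext c
    unfold skip tup vert
    rw [if_pos hl]
    by_cases hc : c = p
    · rw [if_pos hc, hc, if_neg (by omega)]
    · rw [if_neg hc]
  have h1 : ∑ w ∈ Fintype.piFinset (fun _ : C => ZN N), ∑ pos : Num C,
      (b (skip 0 (vert w pos.n)) + b (skip (Fintype.card C) (vert w pos.n))) =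
      ∑ pos : Num C, ∑ w ∈ Fintype.piFinset (fun _ : C => ZN N),
        (b (tup (pos.symm ⟨Fintype.card C - 1, by omega⟩) pos.n w
          (w (pos.symm ⟨Fintype.card C - 1, by omega⟩))) +
        b (tup (pos.symm ⟨Fintype.card C - 1, by omega⟩) pos.n w
          (inn (w (pos.symm ⟨Fintype.card C - 1, by omega⟩))))) := by
    rw [Finset.sum_comm (s := Finset.univ)]
    refine Finset.sum_congr rfl fun w _ => ?_
    rw [Finset.sum_add_distrib, Finset.sum_add_distrib, hsum w,
      Finset.sum_congr rfl fun pos _ => hlast w pos]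
  rw [h1]
  refine Finset.sum_eq_zero fun pos _ => ?_
  generalize pos.symm ⟨Fintype.card C - 1, by omega⟩ = p
  generalize hn : pos.n = n
  rw [sum_split N hN p]
  have h2 : ∀ r : C → ℤ, ∑ e ∈ ZN N,
      (b (tup p n (Function.update r p e) (Function.update r p e p)) +
        b (tup p n (Function.update r p e) (inn (Function.update r p e p)))) =
      b (tup p n r N) + b (tup p n r (-(N : ℤ))) := by
    intro r
    rw [← tele (fun x => b (tup p n r x)) N]
    refine Finset.sum_congr rfl fun e _ => ?_
    rw [tup_update, tup_update, Function.update_self]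
  rw [Finset.sum_congr rfl fun r _ => h2 r]
  have hNN : (N : ℤ) ∈ ZN N := by
    rw [mem_ZN, abs_of_nonneg (by omega)]
    omega
  have hNa : |(N : ℤ)| ≤ N := le_of_eq (abs_of_nonneg (by omega))
  have hNa' : |(-(N : ℤ))| ≤ N := by rw [abs_neg]; exact hNa
  rcases hp p with ⟨S, hS, hSb⟩ | hz
  · rw [Finset.sum_add_distrib]
    have h3 : ∑ r ∈ (Fintype.piFinset (fun _ : C => ZN N)).filter (fun w : C → ℤ => w p = (N : ℤ)),
        b (tup p n r N) =
        ∑ r ∈ (Fintype.piFinset (fun _ : C => ZN N)).filter (fun w : C → ℤ => w p = (N : ℤ)),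
        b (tup p n r (-(N : ℤ))) := by
      have hmem : ∀ r ∈ (Fintype.piFinset (fun _ : C => ZN N)).filter (fun w : C → ℤ => w p = (N : ℤ)),
          Function.update (flip S r) p (N : ℤ) ∈
            (Fintype.piFinset (fun _ : C => ZN N)).filter (fun w : C → ℤ => w p = (N : ℤ)) := by
        intro r hr
        rw [Finset.mem_filter, Fintype.mem_piFinset] at hr ⊢
        refine ⟨fun c => ?_, Function.update_self _ _ _⟩
        by_cases hc : c = p
        · rw [hc, Function.update_self]
          exact hNN
        · rw [Function.update_of_ne hc]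
          have h4 := (mem_ZN N _).1 (hr.1 c)
          rw [mem_ZN]
          unfold flip
          split_ifs
          · rw [abs_neg, neg_ne_zero]
            exact h4
          · exact h4
      have hinv : ∀ r ∈ (Fintype.piFinset (fun _ : C => ZN N)).filter (fun w : C → ℤ => w p = (N : ℤ)),
          Function.update (flip S (Function.update (flip S r) p (N : ℤ))) p (N : ℤ) = r := by
        intro r hr
        rw [Finset.mem_filter, Fintype.mem_piFinset] at hr
        funext c
        by_cases hc : c = p
        · rw [hc, Function.update_self]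
          exact hr.2.symm
        · rw [Function.update_of_ne hc]
          unfold flip
          rw [Function.update_of_ne hc]
          by_cases hSc : S c
          · rw [if_pos hSc, if_pos hSc, neg_neg]
          · rw [if_neg hSc, if_neg hSc]
      refine Finset.sum_nbij' (fun r => Function.update (flip S r) p (N : ℤ))
        (fun r => Function.update (flip S r) p (N : ℤ)) hmem hmem hinv hinv ?_
      intro r hr
      rw [tup_update]
      have h5 : tup p n (flip S r) (-(N : ℤ)) = fun l => flip S (tup p n r N l) := by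
        funext l
        exact tup_flip p n r N S hS l
      rw [h5, hSb]
      intro l _
      rw [Finset.mem_filter, Fintype.mem_piFinset] at hr
      refine ⟨tup_gr p n r N N hNa hr.1 l, ?_⟩
      unfold tup
      rw [if_pos rfl]
    rw [h3]
    exact CharTwo.add_self_eq_zero _
  · refine Finset.sum_eq_zero fun r hr => ?_
    rw [Finset.mem_filter, Fintype.mem_piFinset] at hr
    rw [hz _ (fun l _ => tup_gr p n r N N hNa hr.1 l) (Or.inl fun l _ => by
        unfold tup; rw [if_pos rfl]),
      hz _ (fun l _ => tup_gr p n r (-(N : ℤ)) N hNa' hr.1 l) (Or.inr fun l _ => by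
        unfold tup; rw [if_pos rfl]), add_zero]

end Pool.Agent.MPc05127.PP
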