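import Pool.Agent.Lib.MP_c05127_co.PP.SpecG

/-! MP_c05127_co, project PP: symmetry of the functions of the cube theorem. -/

set_option autoImplicit false

open scoped Classical

namespace Pool.Agent.MPc05127.PP

namespace FsAux

variable {m k d : ℕ} {e : Fin m → ℕ}

theorem flX_self {J : Type} (j : J) (X : J → ℕ → ℝ) : flX j X j = -X j := by
  unfold flX
  rw [Function.update_self]

theorem flX_ne {J : Type} (j j' : J) (X : J → ℕ → ℝ) (h : j' ≠ j) : flX j X j' = X j' := by
  unfold flX
  rw [Function.update_of_ne h]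

/-- Flip of a sphere of the family `i`: its spheres. -/
theorem xx_self (X : Jx k e → ℕ → ℝ) (i : Fin m) (t : Fin (e i)) :
    xx (flX (Sum.inl ⟨i, t⟩) X) i = Function.update (xx X i) t (-xx X i t) := by
  funext u
  by_cases h : u = t
  · subst h
    rw [Function.update_self]
    exact flX_self _ _
  · rw [Function.update_of_ne h]
    refine flX_ne _ _ _ fun h' => h ?_
    exact eq_of_heq (Sigma.mk.inj (Sum.inl_injective h')).2

/-- Flip of a sphere of the family `i`: the spheres of the other families. -/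
theorem xx_ne (X : Jx k e → ℕ → ℝ) (i i' : Fin m) (t : Fin (e i)) (h : i' ≠ i) :
    xx (flX (Sum.inl ⟨i, t⟩) X) i' = xx X i' := by
  funext u
  refine flX_ne _ _ _ fun h' => h ?_
  exact (Sigma.mk.inj (Sum.inl_injective h')).1

theorem vv_inl (X : Jx k e → ℕ → ℝ) (p : Σ i : Fin m, Fin (e i)) (b : Fin k) :
    vv d (flX (Sum.inl p) X) b = vv d X b := by
  unfold vv
  rw [flX_ne _ _ _ Sum.inr_ne_inl]

theorem xx_inr (X : Jx k e → ℕ → ℝ) (b : Fin k) (i : Fin m) :
    xx (flX (Sum.inr b) X) i = xx X i := by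
  funext u
  exact flX_ne _ _ _ Sum.inl_ne_inr

theorem vv_inr (X : Jx k e → ℕ → ℝ) (b c : Fin k) :
    vv d (flX (Sum.inr b) X) c = if c = b then -vv d X c else vv d X c := by
  by_cases h : c = b
  · subst h
    rw [if_pos rfl]
    unfold vv
    rw [flX_self]
    rfl
  · rw [if_neg h]
    unfold vv
    rw [flX_ne _ _ _ fun h' => h (Sum.inr_injective h')]

theorem flip_inl (p : Σ i : Fin m, Fin (e i)) (y : Fin k → ℝ) :
    flip (fun b => XK b (Sum.inl p : Jx k e)) y = y := by
  funext c
  unfold flip XK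
  rw [if_neg (by exact fun h => by cases h)]

theorem flip_inr (b : Fin k) (y : Fin k → ℝ) (c : Fin k) :
    flip (fun b' => XK b' (Sum.inr b : Jx k e)) y c = if c = b then -y c else y c := by
  unfold flip XK
  by_cases h : c = b
  · rw [if_pos h, if_pos (by rw [h])]
  · rw [if_neg h, if_neg (fun h' => h (Sum.inr_injective h').symm)]

theorem uu_inl (X : Jx k e → ℕ → ℝ) (p : Σ i : Fin m, Fin (e i)) (y : Fin k → ℝ) :
    uu d (flX (Sum.inl p) X) y = uu d X y := by
  unfold uu
  exact Finset.sum_congr rfl fun b _ => by rw [vv_inl]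

theorem uu_inr (X : Jx k e → ℕ → ℝ) (b : Fin k) (y : Fin k → ℝ) :
    uu d (flX (Sum.inr b) X) (flip (fun b' => XK b' (Sum.inr b : Jx k e)) y) = uu d X y := by
  unfold uu
  refine Finset.sum_congr rfl fun c _ => ?_
  rw [vv_inr, flip_inr]
  by_cases h : c = b
  · rw [if_pos h, if_pos h, neg_smul_neg]
  · rw [if_neg h, if_neg h]

theorem norm_flip (b : Fin k) (y : Fin k → ℝ) :
    ‖flip (fun b' => XK b' (Sum.inr b : Jx k e)) y‖ = ‖y‖ := by
  apply le_antisymm
  · rw [pi_norm_le_iff_of_nonneg (norm_nonneg _)]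
    intro c
    rw [flip_inr]
    split_ifs
    · rw [norm_neg]
      exact norm_le_pi_norm y c
    · exact norm_le_pi_norm y c
  · rw [pi_norm_le_iff_of_nonneg (norm_nonneg _)]
    intro c
    have h := norm_le_pi_norm (flip (fun b' => XK b' (Sum.inr b : Jx k e)) y) c
    rw [flip_inr] at h
    split_ifs at h
    · rwa [norm_neg] at h
    · exact h

theorem FF_inl (a : Fin m → ℕ → E d) (X : Jx k e → ℕ → ℝ) (p : Σ i : Fin m, Fin (e i))
    (y : Fin k → ℝ) (i : Fin m) (b : Fin k) :
    FF a (flX (Sum.inl p) X) y i b = FF a X y i b := by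
  funext h
  unfold FF
  rw [uu_inl, vv_inl]

theorem FF_inr (a : Fin m → ℕ → E d) (X : Jx k e → ℕ → ℝ) (b : Fin k)
    (y : Fin k → ℝ) (i : Fin m) (c : Fin k) :
    FF a (flX (Sum.inr b) X) (flip (fun b' => XK b' (Sum.inr b : Jx k e)) y) i c =
      if c = b then (fun h => -FF a X y i c h) else FF a X y i c := by
  funext h
  unfold FF ta
  rw [uu_inr, vv_inr, norm_flip]
  by_cases hc : c = b
  · rw [if_pos hc, if_pos hc, inner_neg_right]
    ring
  · rw [if_neg hc, if_neg hc]

theorem fn_none (a : Fin m → ℕ → E d) (X : Jx k e → ℕ → ℝ) (y : Fin k → ℝ) (i : Fin m)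
    (χ : {χ : Finset (Fin (e i)) // χ.Nonempty}) :
    fn a (Sum.inl ⟨i, χ, none⟩) X y = ph (ni k e i) (xx X i) χ.1 (fun _ => 1) := rfl

theorem fn_some (a : Fin m → ℕ → E d) (X : Jx k e → ℕ → ℝ) (y : Fin k → ℝ) (i : Fin m)
    (χ : {χ : Finset (Fin (e i)) // χ.Nonempty}) (b : Fin k) :
    fn a (Sum.inl ⟨i, χ, some b⟩) X y = ph (ni k e i) (xx X i) χ.1 (FF a X y i b) := rfl

theorem mem_domF {z : (Jx k e → ℕ → ℝ) × (Fin k → ℝ)}
    (hz : z ∈ (Dom nn : Set ((Jx k e → ℕ → ℝ) × (Fin k → ℝ)))) (i : Fin m) :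
    xx z.1 i ∈ DomF (ni k e i) := by
  intro t
  obtain ⟨b, hb, h⟩ := (hz.1 (Sum.inl ⟨i, t⟩)).1
  exact ⟨b, hb, h⟩

end FsAux

open FsAux

theorem tFs (hPe : S_Pe) : S_Fs := by
  intro m k d _ e a j z hz
  have hd : ∀ i, xx z.1 i ∈ DomF (ni k e i) := mem_domF hz
  rcases j with ⟨i, t⟩ | b
  · -- a sphere of the family `i`
    have key : ∀ (i' : Fin m) (χ : Finset (Fin (e i'))) (F : ℕ → ℝ),
        ((∃ t' ∈ χ, (⟨i, t⟩ : Σ i : Fin m, Fin (e i)) = ⟨i', t'⟩) →
          ph (ni k e i') (xx (flX (Sum.inl ⟨i, t⟩) z.1) i') χ F =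
            -ph (ni k e i') (xx z.1 i') χ F) ∧
        (¬ (∃ t' ∈ χ, (⟨i, t⟩ : Σ i : Fin m, Fin (e i)) = ⟨i', t'⟩) →
          ph (ni k e i') (xx (flX (Sum.inl ⟨i, t⟩) z.1) i') χ F =
            ph (ni k e i') (xx z.1 i') χ F) := by
      intro i' χ F
      by_cases hi : i' = i
      · subst hi
        rw [xx_self, (hPe _ (ni k e i') _ (hd i') χ).1 t F]
        by_cases ht : t ∈ χ
        · rw [if_pos ht]
          exact ⟨fun _ => rfl, fun h => absurd ⟨t, ht, rfl⟩ h⟩
        · rw [if_neg ht]
          refine ⟨?_, fun _ => rfl⟩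
          rintro ⟨t', ht', h⟩
          have h2 := eq_of_heq (Sigma.mk.inj h).2
          exact absurd (by rw [h2]; exact ht') ht
      · rw [xx_ne _ _ _ _ hi]
        refine ⟨?_, fun _ => rfl⟩
        rintro ⟨t', ht', h⟩
        exact absurd (Sigma.mk.inj h).1.symm hi
    have key0 : ∀ (i' : Fin m) (F : ℕ → ℝ),
        ph (ni k e i') (xx (flX (Sum.inl ⟨i, t⟩) z.1) i') ∅ F =
          ph (ni k e i') (xx z.1 i') ∅ F := by
      intro i' F
      refine (key i' ∅ F).2 ?_
      rintro ⟨t', ht', _⟩
      exact absurd ht' (Finset.notMem_empty _)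
    rw [flip_inl]
    constructor
    · rintro (⟨i', χ, o⟩ | p | ⟨b, i'⟩)
      · by_cases hX : XX (Sum.inl ⟨i', χ, o⟩ : Cx k e) (Sum.inl ⟨i, t⟩)
        · rw [if_pos hX]
          rcases o with _ | b
          · rw [fn_none, fn_none]
            exact (key i' χ.1 _).1 hX
          · rw [fn_some, fn_some, FF_inl]
            exact (key i' χ.1 _).1 hX
        · rw [if_neg hX]
          rcases o with _ | b
          · rw [fn_none, fn_none]
            exact (key i' χ.1 _).2 hX
          · rw [fn_some, fn_some, FF_inl]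
            exact (key i' χ.1 _).2 hX
      · have hX : ¬ XX (Sum.inr (Sum.inl p) : Cx k e) (Sum.inl ⟨i, t⟩) := by
          rintro (h | h) <;> cases h
        rw [if_neg hX]
        change inner ℝ (vv d _ _) (vv d _ _) = inner ℝ _ _
        rw [vv_inl, vv_inl]
      · have hX : ¬ XX (Sum.inr (Sum.inr (b, i')) : Cx k e) (Sum.inl ⟨i, t⟩) := by
          intro h
          cases h
        rw [if_neg hX]
        change ph _ _ _ _ = ph _ _ _ _
        rw [FF_inl, key0]
    · intro b
      have hX : ¬ XK b (Sum.inl ⟨i, t⟩ : Jx k e) := by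
        intro h
        cases h
      rw [if_neg hX]
      unfold gn
      rw [FF_inl, key0, vv_inl]
  · -- a vector of the frame
    have key : ∀ (i' : Fin m) (χ : Finset (Fin (e i'))) (c : Fin k),
        ph (ni k e i') (xx (flX (Sum.inr b) z.1) i') χ
          (FF a (flX (Sum.inr b) z.1) (flip (fun b' => XK b' (Sum.inr b : Jx k e)) z.2) i' c) =
          if c = b then -ph (ni k e i') (xx z.1 i') χ (FF a z.1 z.2 i' c) else
            ph (ni k e i') (xx z.1 i') χ (FF a z.1 z.2 i' c) := by
      intro i' χ c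
      rw [xx_inr, FF_inr]
      by_cases hc : c = b
      · rw [if_pos hc, if_pos hc]
        exact (hPe _ (ni k e i') _ (hd i') χ).2.1 _
      · rw [if_neg hc, if_neg hc]
    constructor
    · rintro (⟨i', χ, o⟩ | p | ⟨c, i'⟩)
      · rcases o with _ | c
        · have hX : ¬ XX (Sum.inl ⟨i', χ, none⟩ : Cx k e) (Sum.inr b) := by
            intro h
            cases h
          rw [if_neg hX, fn_none, fn_none, xx_inr]
        · change ph _ _ _ _ = _
          rw [key]
          by_cases hc : c = b
          · have hX : XX (Sum.inl ⟨i', χ, some c⟩ : Cx k e) (Sum.inr b) := by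
              change some c = some b
              rw [hc]
            rw [if_pos hc, if_pos hX]
            rfl
          · have hX : ¬ XX (Sum.inl ⟨i', χ, some c⟩ : Cx k e) (Sum.inr b) := by
              intro h
              exact hc (Option.some_injective _ h)
            rw [if_neg hc, if_neg hX]
            rfl
      · change inner ℝ (vv d _ _) (vv d _ _) = _
        rw [vv_inr, vv_inr]
        have hne : p.1.1 ≠ p.1.2 := ne_of_lt p.2
        by_cases h1 : p.1.1 = b
        · have h2 : p.1.2 ≠ b := fun h => hne (h1.trans h.symm)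
          have hX : XX (Sum.inr (Sum.inl p) : Cx k e) (Sum.inr b) := Or.inl (by rw [h1])
          rw [if_pos h1, if_neg h2, if_pos hX, inner_neg_left]
          rfl
        · by_cases h2 : p.1.2 = b
          · have hX : XX (Sum.inr (Sum.inl p) : Cx k e) (Sum.inr b) := Or.inr (by rw [h2])
            rw [if_neg h1, if_pos h2, if_pos hX, inner_neg_right]
            rfl
          · have hX : ¬ XX (Sum.inr (Sum.inl p) : Cx k e) (Sum.inr b) := by
              rintro (h | h)
              · exact h1 (Sum.inr_injective h).symm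
              · exact h2 (Sum.inr_injective h).symm
            rw [if_neg h1, if_neg h2, if_neg hX]
            rfl
      · change ph _ _ _ _ = _
        rw [key]
        by_cases hc : c = b
        · have hX : XX (Sum.inr (Sum.inr (c, i')) : Cx k e) (Sum.inr b) := by
            change (Sum.inr b : Jx k e) = Sum.inr c
            rw [hc]
          rw [if_pos hc, if_pos hX]
          rfl
        · have hX : ¬ XX (Sum.inr (Sum.inr (c, i')) : Cx k e) (Sum.inr b) := by
            intro h
            exact hc (Sum.inr_injective h).symm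
          rw [if_neg hc, if_neg hX]
          rfl
    · intro c
      unfold gn si
      rw [key, vv_inr, norm_flip, flip_inr]
      by_cases hc : c = b
      · have hX : XK c (Sum.inr b : Jx k e) := by
          change (Sum.inr b : Jx k e) = Sum.inr c
          rw [hc]
        rw [if_pos hc, if_pos hc, if_pos hc, if_pos hX, norm_neg]
        ring
      · have hX : ¬ XK c (Sum.inr b : Jx k e) := by
          intro h
          exact hc (Sum.inr_injective h).symm
        rw [if_neg hc, if_neg hc, if_neg hc, if_neg hX]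

end Pool.Agent.MPc05127.PP
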