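import Pool.Agent.Lib.MP_c05127_co.PP.SpecG

/-!
# MP_c05127_co, project PP: zeros at infinity are excluded
-/

set_option autoImplicit false

open scoped Classical

namespace Pool.Agent.MPc05127.PP

private theorem In_ta {k : ℕ} {y : Fin k → ℝ} (h : 1 / 2 ≤ ‖y‖) : ta y = 0 := by
  unfold ta
  exact max_eq_left (by linarith)

private theorem In_si0 {k : ℕ} (y : Fin k → ℝ) : 0 ≤ si y := le_max_left _ _

private theorem In_si1 {k : ℕ} {y : Fin k → ℝ} (h : ‖y‖ ≤ 1) : si y ≤ 1 := by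
  unfold si
  exact max_le (by norm_num) (by linarith)

private theorem In_sum {m k d : ℕ} {e : Fin m → ℕ} (a : Fin m → ℕ → E d)
    (X : Jx k e → ℕ → ℝ) (y : Fin k → ℝ) (i : Fin m) (h : ℕ) (h0 : ta y = 0) :
    ∑ b, y b * FF a X y i b h = -(inner ℝ (a i h) (uu d X y) ^ 2) := by
  have h1 : ∀ b, y b * FF a X y i b h =
      -(inner ℝ (a i h) (uu d X y)) * (y b * inner ℝ (a i h) (vv d X b)) := by
    intro b
    unfold FF
    rw [h0]
    ring
  rw [Finset.sum_congr rfl fun b _ => h1 b, ← Finset.mul_sum]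
  have h2 : ∑ b, y b * inner ℝ (a i h) (vv d X b) = inner ℝ (a i h) (uu d X y) := by
    unfold uu
    rw [inner_sum]
    exact Finset.sum_congr rfl fun b _ => by rw [inner_smul_right]
  rw [h2]
  ring

private theorem In_nn {s : ℕ} (n : Fin s → ℕ) (x : Fin s → ℕ → ℝ) (F : ℕ → ℝ)
    (hF : ∀ h, 0 ≤ F h) : 0 ≤ ph n x ∅ F := by
  unfold ph
  refine Finset.sum_nonneg fun α _ => ?_
  rw [Finset.prod_empty, mul_one]
  exact mul_nonneg (le_max_left _ _) (hF _)

private theorem In_card {N : ℕ} {κ : Type} [Fintype κ] (P : κ → Finset ℕ)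
    (hP1 : ∀ g g', g ≠ g' → Disjoint (P g) (P g')) (hP2 : ∀ g, ∀ h ∈ P g, h ≤ N)
    (hP3 : ∀ g, (P g).Nonempty) (q : ℕ → Prop) (hq : ∀ g, ∀ h ∈ P g, q h) :
    Fintype.card κ ≤ ((Finset.range (N + 1)).filter q).card := by
  choose f hf using hP3
  have hinj : Function.Injective f := by
    intro g g' h
    by_contra hne
    exact (Finset.disjoint_left.1 (hP1 g g' hne)) (hf g) (h ▸ hf g')
  rw [← Finset.card_univ]
  refine Finset.card_le_card_of_injOn f (fun g _ => ?_) hinj.injOn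
  exact Finset.mem_coe.2 (Finset.mem_filter.2
    ⟨Finset.mem_range.2 (Nat.lt_succ_of_le (hP2 g _ (hf g))), hq g _ (hf g)⟩)

theorem tIn (hPe : S_Pe) (hPf : S_Pf) (hFm : S_Fm) : S_In := by
  intro d k hk hkd e a z hz hf hg hy
  obtain ⟨hv0, -⟩ := hFm d k hk hkd e a z hz
  have hort : Pairwise fun b b' => inner ℝ (vv d z.1 b) (vv d z.1 b') = (0 : ℝ) := by
    intro b b' hbb
    rcases lt_or_gt_of_ne hbb with h | h
    · exact hf (Sum.inr (Sum.inl ⟨(b, b'), h⟩))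
    · rw [real_inner_comm]
      exact hf (Sum.inr (Sum.inl ⟨(b', b), h⟩))
  have hli : LinearIndependent ℝ (fun b => vv d z.1 b) :=
    linearIndependent_of_ne_zero_of_inner_eq_zero hv0 hort
  have hτ := In_ta hy
  have hy1 : ‖z.2‖ ≤ 1 := (pi_norm_le_iff_of_nonneg zero_le_one).2 fun b => by
    rw [Real.norm_eq_abs]
    exact hz.2 b
  have hs0 := In_si0 z.2
  have hs1 := In_si1 hy1
  have hy0 : ∃ b, z.2 b ≠ 0 := by
    by_contra hcon
    have h0 : z.2 = 0 := by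
      funext b
      by_contra hb
      exact hcon ⟨b, hb⟩
    rw [h0, norm_zero] at hy
    norm_num at hy
  have hu0 : uu d z.1 z.2 ≠ 0 := by
    intro h0
    obtain ⟨b, hb⟩ := hy0
    exact hb ((Fintype.linearIndependent_iff.1 hli) z.2 h0 b)
  have hdom : ∀ i, xx z.1 i ∈ DomF (ni k e i) := fun i t => (hz.1 (Sum.inl ⟨i, t⟩)).1
  -- the combination
  have hcomb : ∀ i, ∑ b, z.2 b * ph (ni k e i) (xx z.1 i) ∅ (FF a z.1 z.2 i b) =
      -ph (ni k e i) (xx z.1 i) ∅ (fun h => inner ℝ (a i h) (uu d z.1 z.2) ^ 2) := by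
    intro i
    obtain ⟨-, h2, h3⟩ := hPe (e i) (ni k e i) (xx z.1 i) (hdom i) ∅
    rw [← h2, ← h3 (Fin k) z.2 (fun b => FF a z.1 z.2 i b)]
    exact congrArg _ (funext fun h => In_sum a z.1 z.2 i h hτ)
  have hnn : ∀ i, 0 ≤ ph (ni k e i) (xx z.1 i) ∅
      (fun h => inner ℝ (a i h) (uu d z.1 z.2) ^ 2) := fun i =>
    In_nn _ _ _ fun h => sq_nonneg _
  have hzero : ∀ i, ph (ni k e i) (xx z.1 i) ∅
      (fun h => inner ℝ (a i h) (uu d z.1 z.2) ^ 2) = 0 := by
    intro i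
    by_cases hi : (i : ℕ) = 0
    · have hi0 : i = 0 := Fin.ext hi
      subst hi0
      have hS : 0 < ∑ b, z.2 b * (z.2 b * ‖vv d z.1 b‖ ^ 2) := by
        obtain ⟨b, hb⟩ := hy0
        refine Finset.sum_pos' (fun b' _ => ?_) ⟨b, Finset.mem_univ _, ?_⟩
        · rw [← mul_assoc, ← sq]
          positivity
        · rw [← mul_assoc, ← sq]
          have h1 := norm_pos_iff.2 (hv0 b)
          positivity
      have h1 : ∑ b, z.2 b * gn a b z.1 z.2 = 0 :=
        Finset.sum_eq_zero fun b _ => by rw [hg b, mul_zero]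
      have h2 : ∀ b, z.2 b * gn a b z.1 z.2 =
          -(1 - si z.2) * (z.2 b * ph (ni k e 0) (xx z.1 0) ∅ (FF a z.1 z.2 0 b)) +
            si z.2 * (z.2 b * (z.2 b * ‖vv d z.1 b‖ ^ 2)) := by
        intro b
        unfold gn
        ring
      rw [Finset.sum_congr rfl fun b _ => h2 b, Finset.sum_add_distrib, ← Finset.mul_sum,
        ← Finset.mul_sum, hcomb 0] at h1
      have h3 := mul_nonneg (sub_nonneg.2 hs1) (hnn 0)
      have h4 := mul_nonneg hs0 hS.le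
      have h5 : si z.2 * ∑ b, z.2 b * (z.2 b * ‖vv d z.1 b‖ ^ 2) = 0 := by linarith
      have h6 : si z.2 = 0 := (mul_eq_zero.1 h5).resolve_right hS.ne'
      rw [h6] at h1
      linarith
    · have h1 : ∀ b, ph (ni k e i) (xx z.1 i) ∅ (FF a z.1 z.2 i b) = 0 := fun b =>
        hf (Sum.inr (Sum.inr (b, ⟨i, hi⟩)))
      have h2 := hcomb i
      rw [Finset.sum_eq_zero fun b _ => by rw [h1 b, mul_zero]] at h2
      linarith
  refine ⟨uu d z.1 z.2, hu0, fun i => ?_⟩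
  obtain ⟨P, hP1, hP2, hP3, -, hP5⟩ := hPf (e i) (ni k e i) (xx z.1 i) (hdom i)
    (fun χ hχ => hf (Sum.inl ⟨i, ⟨χ, hχ⟩, none⟩))
  have hc : Fintype.card (Fin (e i) → Bool) = 2 ^ e i := by simp
  rw [← hc]
  refine In_card P hP1 hP2 hP3 _ fun g h hh => ?_
  have h7 := hP5 (fun h => inner ℝ (a i h) (uu d z.1 z.2) ^ 2) (fun h => sq_nonneg _) (hzero i)
    g h hh
  exact pow_eq_zero_iff (two_ne_zero) |>.1 h7

end Pool.Agent.MPc05127.PP
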