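import Pool.Agent.Lib.MP_c05127_co.PP.SpecT

/-!
# MP_c05127_co, project PP: the sum does not depend on the signs (helper62)
-/

set_option autoImplicit false

open scoped Classical

namespace Pool.Agent.MPc05127.PP

namespace IvAux

lemma two (a : ZMod 2) : a + a = 0 := CharTwo.add_self_eq_zero a

lemma alt_update {V : Type} (D m : ℕ) (hm : m < D) (σ : ℕ → V → ZMod 2) (τ : V → ZMod 2) (v : ℕ → V) :
    alt D (Function.update σ m τ) v =
      (τ (v m) + τ (v (m + 1))) * ∏ l ∈ (Finset.range D).erase m, (σ l (v l) + σ l (v (l + 1))) := by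
  unfold alt
  rw [← Finset.mul_prod_erase (Finset.range D) _ (Finset.mem_range.2 hm), Function.update_self]
  refine congrArg _ (Finset.prod_congr rfl fun l hl => ?_)
  rw [Function.update_of_ne (Finset.ne_of_mem_erase hl)]

lemma alt_add {V : Type} (D m : ℕ) (hm : m < D) (σ : ℕ → V → ZMod 2) (β : V → ZMod 2) (v : ℕ → V) :
    alt D σ v + alt D (Function.update σ m (σ m + β)) v = alt D (Function.update σ m β) v := by
  have h := alt_update D m hm σ (σ m) v
  rw [Function.update_eq_self] at h
  rw [h, alt_update D m hm, alt_update D m hm, ← add_mul]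
  congr 1
  simp only [Pi.add_apply]
  linear_combination two (σ m (v m)) + two (σ m (v (m + 1)))

lemma sum_ends (f : ℕ → ZMod 2) (D : ℕ) (hD : 0 < D) (h : ∀ i, 0 < i → i < D → f i = 0) :
    ∑ i ∈ Finset.range (D + 1), f i = f 0 + f D := by
  rw [Finset.sum_range_succ, Finset.sum_eq_single_of_mem 0 (Finset.mem_range.2 hD)
    (fun i hi hne => h i (Nat.pos_of_ne_zero hne) (Finset.mem_range.1 hi))]

lemma bb_congr {V : Type} (D m : ℕ) (hm : m < D) (σ : ℕ → V → ZMod 2) (β : V → ZMod 2) (u u' : ℕ → V)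
    (h : ∀ l < D, u l = u' l) : bb D m σ β u = bb D m σ β u' := by
  unfold bb
  rw [h m hm, Finset.prod_congr rfl fun l hl => (by
      have := Finset.mem_range.1 hl
      rw [h l (by omega), h (l + 1) (by omega)] :
      σ l (u l) + σ l (u (l + 1)) = σ l (u' l) + σ l (u' (l + 1))),
    Finset.prod_congr (s₁ := Finset.Ico (m + 1) D) rfl fun l hl => (by
      have := Finset.mem_Ico.1 hl
      rw [h l (by omega), h (l - 1) (by omega)] :
      σ l (u (l - 1)) + σ l (u l) = σ l (u' (l - 1)) + σ l (u' l))]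

/-- The change by a map which changes every sign function by a constant. -/
lemma bb_flip {V : Type} (D m : ℕ) (hm : m < D) (σ : ℕ → V → ZMod 2) (β : V → ZMod 2) (φ : V → V)
    (κ : ℕ → ZMod 2) (u : ℕ → V) (h : ∀ l, ∀ k < D, σ l (φ (u k)) = σ l (u k) + κ l)
    (hβ : β (φ (u m)) = β (u m)) : bb D m σ β (fun l => φ (u l)) = bb D m σ β u := by
  unfold bb
  simp only [hβ]
  rw [Finset.prod_congr rfl fun l hl => (by
      have := Finset.mem_range.1 hl
      rw [h l l (by omega), h l (l + 1) (by omega)]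
      linear_combination two (κ l) :
      σ l (φ (u l)) + σ l (φ (u (l + 1))) = σ l (u l) + σ l (u (l + 1))),
    Finset.prod_congr (s₁ := Finset.Ico (m + 1) D) rfl fun l hl => (by
      have := Finset.mem_Ico.1 hl
      rw [h l l (by omega), h l (l - 1) (by omega)]
      linear_combination two (κ l) :
      σ l (φ (u (l - 1))) + σ l (φ (u l)) = σ l (u (l - 1)) + σ l (u l))]

variable {C J : Type} [Fintype C]

/-- The mixed signs. -/
noncomputable def mix (T : Num C) (s s' : C → (C → ℤ) → ZMod 2) (m : ℕ) (c : C) : (C → ℤ) → ZMod 2 :=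
  if T.n c < m then s' c else s c

lemma mix_cases (T : Num C) (s s' : C → (C → ℤ) → ZMod 2) (m : ℕ) (c : C) :
    mix T s s' m c = s' c ∨ mix T s s' m c = s c := by
  unfold mix
  split_ifs
  · exact Or.inl rfl
  · exact Or.inr rfl

lemma mix_ok (b : Blk C J) (N : ℕ) (T : Num C) (s s' : C → (C → ℤ) → ZMod 2) (h : b.Ok N s)
    (h' : b.Ok N s') (m : ℕ) : b.Ok N (mix T s s' m) := by
  constructor
  · intro j v hv hc c
    rcases mix_cases T s s' m c with h1 | h1
    · rw [h1]; exact h'.blk j v hv hc c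
    · rw [h1]; exact h.blk j v hv hc c
  · intro c v hv hc
    rcases mix_cases T s s' m c with h1 | h1
    · rw [h1]; exact h'.mir c v hv hc
    · rw [h1]; exact h.mir c v hv hc

lemma n_symm (T : Num C) (l : ℕ) (hl : l < Fintype.card C) : T.n (T.symm ⟨l, hl⟩) = l := by
  unfold Num.n
  rw [Equiv.apply_symm_apply]

lemma sg_n (T : Num C) (s : C → (C → ℤ) → ZMod 2) (p : C) (v : C → ℤ) : sg T s (T.n p) v = s p v := by
  have h : T.n p < Fintype.card C := (T p).2
  have h1 : T.symm ⟨T.n p, h⟩ = p := by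
    rw [Equiv.symm_apply_eq]
    rfl
  unfold sg
  rw [dif_pos h, h1]

lemma sg_mix (T : Num C) (s s' : C → (C → ℤ) → ZMod 2) (m : ℕ) (hm : m < Fintype.card C) :
    sg T (mix T s s' (m + 1)) = Function.update (sg T (mix T s s' m)) m
      (sg T (mix T s s' m) m + fun v => s (T.symm ⟨m, hm⟩) v + s' (T.symm ⟨m, hm⟩) v) := by
  funext l v
  by_cases hl : l = m
  · rw [hl, Function.update_self]
    simp only [Pi.add_apply]
    unfold sg mix
    rw [dif_pos hm, dif_pos hm, n_symm, if_pos (Nat.lt_succ_self m), if_neg (lt_irrefl m)]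
    linear_combination -two (s (T.symm ⟨m, hm⟩) v)
  · rw [Function.update_of_ne hl]
    unfold sg
    by_cases h : l < Fintype.card C
    · rw [dif_pos h, dif_pos h]
      unfold mix
      rw [n_symm]
      by_cases h1 : l < m
      · rw [if_pos h1, if_pos (by omega)]
      · rw [if_neg h1, if_neg (by omega)]
    · rw [dif_neg h, dif_neg h]

lemma step (hLz : S_Lz) (hFi : S_Fi) (hFo : S_Fo) (b : Blk C J) (N : ℕ) (T : Num C)
    (s s' : C → (C → ℤ) → ZMod 2) (hN : 1 ≤ N) (h : b.Ok N s) (h' : b.Ok N s') (m : ℕ)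
    (hm : m < Fintype.card C) : tsum N T (mix T s s' m) + tsum N T (mix T s s' (m + 1)) = 0 := by
  set β : (C → ℤ) → ZMod 2 := fun v => s (T.symm ⟨m, hm⟩) v + s' (T.symm ⟨m, hm⟩) v with hβ
  set σ := sg T (mix T s s' m) with hσ
  have hok := mix_ok b N T s s' h h' m
  have h1 : tsum N T (mix T s s' m) + tsum N T (mix T s s' (m + 1)) =
      ∑ w ∈ Fintype.piFinset (fun _ : C => ZN N), ∑ pos : Num C,
        (bb (Fintype.card C) m σ β (skip 0 (vert w pos.n)) +
          bb (Fintype.card C) m σ β (skip (Fintype.card C) (vert w pos.n))) := by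
    unfold tsum
    rw [← Finset.sum_add_distrib]
    refine Finset.sum_congr rfl fun w _ => ?_
    rw [← Finset.sum_add_distrib]
    have h2 : ∀ pos : Num C, alt (Fintype.card C) (sg T (mix T s s' m)) (vert w pos.n) +
        alt (Fintype.card C) (sg T (mix T s s' (m + 1))) (vert w pos.n) =
        ∑ i ∈ Finset.range (Fintype.card C + 1), bb (Fintype.card C) m σ β (skip i (vert w pos.n)) := by
      intro pos
      rw [hLz _ _ _ _ _ _ hm, ← alt_add _ _ hm, sg_mix T s s' m hm]
    rw [Finset.sum_congr rfl fun pos _ => h2 pos, Finset.sum_comm,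
      sum_ends (fun i => ∑ pos : Num C, bb (Fintype.card C) m σ β (skip i (vert w pos.n))) _ (by omega)
        (fun i hi hi' => hFi C _ w i hi hi'), ← Finset.sum_add_distrib]
  rw [h1]
  refine hFo C N (bb (Fintype.card C) m σ β) hN (by omega) (fun u u' hu => bb_congr _ _ hm _ _ _ _ hu) ?_
  intro p
  rcases hp : b.B p with _ | j
  · right
    intro u hu hc
    have h2 : ∃ κ : ZMod 2, ∀ l < Fintype.card C,
        mix T s s' m p (u l) = κ ∧ s p (u l) = κ ∧ s' p (u l) = κ := by
      rcases hc with hc | hc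
      · exact ⟨0, fun l hl => ⟨(hok.mir p _ (hu l hl) hp).1 (hc l hl), (h.mir p _ (hu l hl) hp).1 (hc l hl),
          (h'.mir p _ (hu l hl) hp).1 (hc l hl)⟩⟩
      · exact ⟨1, fun l hl => ⟨(hok.mir p _ (hu l hl) hp).2 (hc l hl), (h.mir p _ (hu l hl) hp).2 (hc l hl),
          (h'.mir p _ (hu l hl) hp).2 (hc l hl)⟩⟩
    obtain ⟨κ, hκ⟩ := h2
    have hq : T.n p < Fintype.card C := (T p).2
    have hσ' : ∀ v, σ (T.n p) v = mix T s s' m p v := fun v => sg_n T _ p v
    unfold bb
    rcases lt_trichotomy (T.n p) m with h3 | h3 | h3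
    · rw [Finset.prod_eq_zero (Finset.mem_range.2 h3), zero_mul, zero_mul]
      rw [hσ', hσ', (hκ _ (by omega)).1, (hκ _ (by omega)).1]
      exact two κ
    · have h4 : T.symm ⟨m, hm⟩ = p := by
        rw [Equiv.symm_apply_eq]
        exact Fin.ext h3.symm
      have h5 : β (u m) = 0 := by
        rw [hβ]
        simp only [h4]
        rw [(hκ m hm).2.1, (hκ m hm).2.2]
        exact two κ
      rw [h5, mul_zero, zero_mul]
    · rw [Finset.prod_eq_zero (s := Finset.Ico (m + 1) (Fintype.card C)) (i := T.n p)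
        (Finset.mem_Ico.2 ⟨by omega, hq⟩), mul_zero]
      rw [hσ', hσ', (hκ _ (by omega)).1, (hκ _ (by omega)).1]
      exact two κ
  · left
    refine ⟨b.R j, Or.inl hp, fun u hu => ?_⟩
    have hex : ∀ l < Fintype.card C, ∃ c, b.B c = some j ∧ |u l c| = N := fun l hl =>
      ⟨p, hp, by rw [(hu l hl).2]; exact abs_of_nonneg (by omega)⟩
    refine bb_flip (Fintype.card C) m hm σ β (flip (b.R j))
      (fun l => if hl : l < Fintype.card C then (if b.χ (T.symm ⟨l, hl⟩) j then 1 else 0) else 0) u ?_ ?_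
    · intro l k hk
      rw [hσ]
      unfold sg
      by_cases hl : l < Fintype.card C
      · rw [dif_pos hl, dif_pos hl, dif_pos hl]
        exact hok.blk j _ (hu k hk).1 (hex k hk) _
      · rw [dif_neg hl, dif_neg hl, dif_neg hl, add_zero]
    · rw [hβ]
      simp only []
      rw [h.blk j _ (hu m hm).1 (hex m hm), h'.blk j _ (hu m hm).1 (hex m hm)]
      linear_combination two (if b.χ (T.symm ⟨m, hm⟩) j then (1 : ZMod 2) else 0)

end IvAux

open IvAux in
theorem tIv (hLz : S_Lz) (hFi : S_Fi) (hFo : S_Fo) : S_Iv := by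
  intro C J _ b N T s s' hN h h'
  have h0 : mix T s s' 0 = s := by
    funext c
    unfold mix
    rw [if_neg (Nat.not_lt_zero _)]
  have hD : mix T s s' (Fintype.card C) = s' := by
    funext c
    unfold mix
    rw [if_pos (show T.n c < Fintype.card C from (T c).2)]
  have h1 : ∀ m ≤ Fintype.card C, tsum N T s = tsum N T (mix T s s' m) := by
    intro m
    induction m with
    | zero =>
      intro _
      rw [h0]
    | succ m ih =>
      intro hm
      rw [ih (by omega)]
      have h2 := step hLz hFi hFo b N T s s' hN h h' m (by omega)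
      linear_combination h2 - two (tsum N T (mix T s s' (m + 1)))
  have h2 := h1 _ le_rfl
  rw [hD] at h2
  exact h2

end Pool.Agent.MPc05127.PP
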