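import Pool.Agent.Lib.MP_c05127_co.PP.SpecG

/-!
# MP_c05127_co, project PP: the partitions (module Ku)
-/

set_option autoImplicit false

open scoped Classical

namespace Pool.Agent.MPc05127.PP

theorem tKu : S_Ku := by
  intro s n x hx t
  obtain ⟨b, hb, hxb⟩ := hx t
  have ht : 0 < tot n x t := by
    unfold tot
    refine lt_of_lt_of_le (abs_pos.2 hxb) ?_
    exact Finset.single_le_sum (f := fun b => |x t b|) (fun _ _ => abs_nonneg _)
      (Finset.mem_range.2 (Nat.lt_succ_of_le hb))
  have hstep : ∀ b, cut n x t (b + 1) - cut n x t b = |x t b| / tot n x t := by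
    intro b
    unfold cut
    rw [Finset.sum_range_succ, ← sub_div, add_sub_cancel_left]
  refine ⟨ht, ?_, ?_, hstep, ?_⟩
  · unfold cut
    rw [Finset.range_zero, Finset.sum_empty, zero_div]
  · unfold cut
    exact div_self ht.ne'
  · refine monotone_nat_of_le_succ fun b => ?_
    have h1 := hstep b
    have h2 : 0 ≤ |x t b| / tot n x t := div_nonneg (abs_nonneg _) ht.le
    linarith

end Pool.Agent.MPc05127.PP
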