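import Pool.Agent.Lib.MP_c05127_co.PP.SpecG

/-!
# MP_c05127_co, project PP: the pieces
-/

set_option autoImplicit false

open scoped Classical

namespace Pool.Agent.MPc05127.PP

namespace LeAux

variable {s : ℕ}

theorem le_lo (n : Fin s → ℕ) (x : Fin s → ℕ → ℝ) (α : Fin s → ℕ) (t : Fin s) :
    cut n x t (α t) ≤ lo n x α :=
  Finset.le_sup' (fun o : Option (Fin s) => o.elim 0 (fun t => cut n x t (α t)))
    (Finset.mem_univ (some t))

theorem up_le (n : Fin s → ℕ) (x : Fin s → ℕ → ℝ) (α : Fin s → ℕ) (t : Fin s) :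
    up n x α ≤ cut n x t (α t + 1) :=
  Finset.inf'_le (fun o : Option (Fin s) => o.elim 1 (fun t => cut n x t (α t + 1)))
    (Finset.mem_univ (some t))

theorem len_nonneg (n : Fin s → ℕ) (x : Fin s → ℕ → ℝ) (α : Fin s → ℕ) : 0 ≤ len n x α :=
  le_max_left _ _

theorem lt_of_len {n : Fin s → ℕ} {x : Fin s → ℕ → ℝ} {α : Fin s → ℕ} (h : 0 < len n x α) :
    lo n x α < up n x α := by
  unfold len at h
  rcases lt_max_iff.1 h with h1 | h1
  · exact absurd h1 (lt_irrefl _)
  · linarith

theorem exists_lt {α α' : Fin s → ℕ} (h : α ≠ α') (hs : ∑ t, α t = ∑ t, α' t) :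
    ∃ t, α t < α' t := by
  by_contra hcon
  push Not at hcon
  have h1 := (Finset.sum_eq_sum_iff_of_le (fun t (_ : t ∈ Finset.univ) => hcon t)).1 hs.symm
  exact h (funext fun t => (h1 t (Finset.mem_univ t)).symm)

theorem abs_upd (x : Fin s → ℕ → ℝ) (t t' : Fin s) (b : ℕ) :
    |Function.update x t (-x t) t' b| = |x t' b| := by
  by_cases h : t' = t
  · subst h
    rw [Function.update_self, Pi.neg_apply, abs_neg]
  · rw [Function.update_of_ne h]

theorem tot_upd (n : Fin s → ℕ) (x : Fin s → ℕ → ℝ) (t t' : Fin s) :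
    tot n (Function.update x t (-x t)) t' = tot n x t' := by
  unfold tot
  exact Finset.sum_congr rfl fun b _ => abs_upd x t t' b

theorem cut_upd (n : Fin s → ℕ) (x : Fin s → ℕ → ℝ) (t t' : Fin s) (b : ℕ) :
    cut n (Function.update x t (-x t)) t' b = cut n x t' b := by
  unfold cut
  rw [tot_upd]
  congr 1
  exact Finset.sum_congr rfl fun b _ => abs_upd x t t' b

end LeAux

open LeAux in
theorem tLe (hKu : S_Ku) : S_Le := by
  intro s n x hx
  have hK := hKu s n x hx
  have hlen : ∀ α t, 0 ≤ len n x α ∧ len n x α ≤ |x t (α t)| / tot n x t := by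
    intro α t
    refine ⟨len_nonneg n x α, ?_⟩
    obtain ⟨h1, _, _, h4, _⟩ := hK t
    have h5 := le_lo n x α t
    have h6 := up_le n x α t
    have h7 := h4 (α t)
    unfold len
    apply max_le
    · positivity
    · linarith
  refine ⟨hlen, ?_, ?_, ?_, ?_⟩
  · intro α t h h0
    have h1 := (hlen α t).2
    rw [h0, abs_zero, zero_div] at h1
    linarith
  · intro α _ α' _ hne hsum
    by_contra hcon
    push Not at hcon
    have h1 : 0 < len n x α := lt_of_le_of_ne (len_nonneg _ _ _) (Ne.symm hcon.1)
    have h2 : 0 < len n x α' := lt_of_le_of_ne (len_nonneg _ _ _) (Ne.symm hcon.2)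
    have h3 := lt_of_len h1
    have h4 := lt_of_len h2
    obtain ⟨t, ht⟩ := exists_lt hne hsum
    obtain ⟨t', ht'⟩ := exists_lt (Ne.symm hne) hsum.symm
    have h5 : cut n x t (α t + 1) ≤ cut n x t (α' t) := (hK t).2.2.2.2 ht
    have h6 : cut n x t' (α' t' + 1) ≤ cut n x t' (α t') := (hK t').2.2.2.2 ht'
    have h7 := up_le n x α t
    have h8 := le_lo n x α' t
    have h9 := up_le n x α' t'
    have h10 := le_lo n x α t'
    linarith
  · have hfin : (⋃ t : Fin s, (fun b => cut n x t b) '' (Set.Iic (n t))).Finite :=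
      Set.finite_iUnion fun t => (Set.finite_Iic (n t)).image _
    have hinf : (Set.Ioo (0 : ℝ) 1).Infinite := Set.Ioo_infinite one_pos
    obtain ⟨c, ⟨hc0, hc1⟩, hc⟩ := hinf.exists_notMem_finite hfin
    have hc' : ∀ t : Fin s, ∀ b ≤ n t, cut n x t b ≠ c := by
      intro t b hb h
      exact hc (Set.mem_iUnion.2 ⟨t, b, hb, h⟩)
    refine ⟨fun t => Nat.findGreatest (fun b => cut n x t b < c) (n t), ?_, ?_⟩
    · unfold idx
      rw [Fintype.mem_piFinset]
      intro t
      rw [Finset.mem_range]
      exact Nat.lt_succ_of_le (Nat.findGreatest_le _)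
    · have h1 : ∀ t, cut n x t (Nat.findGreatest (fun b => cut n x t b < c) (n t)) < c := by
        intro t
        have h2 : cut n x t 0 < c := by rw [(hK t).2.1]; exact hc0
        exact Nat.findGreatest_spec (P := fun b => cut n x t b < c) (Nat.zero_le _) h2
      have h3 : ∀ t, c < cut n x t (Nat.findGreatest (fun b => cut n x t b < c) (n t) + 1) := by
        intro t
        rcases Nat.lt_or_ge (Nat.findGreatest (fun b => cut n x t b < c) (n t)) (n t) with h | h
        · have h4 := Nat.findGreatest_is_greatest (P := fun b => cut n x t b < c)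
            (Nat.lt_succ_self _) (Nat.succ_le_of_lt h)
          have h5 := hc' t _ (Nat.succ_le_of_lt h)
          exact lt_of_le_of_ne (not_lt.1 h4) (Ne.symm h5)
        · have h4 : Nat.findGreatest (fun b => cut n x t b < c) (n t) = n t :=
            le_antisymm (Nat.findGreatest_le _) h
          rw [h4, (hK t).2.2.1]
          exact hc1
      have h5 : lo n x (fun t => Nat.findGreatest (fun b => cut n x t b < c) (n t)) < c := by
        unfold lo
        rw [Finset.sup'_lt_iff]
        rintro (_ | t) _
        · exact hc0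
        · exact h1 t
      have h6 : c < up n x (fun t => Nat.findGreatest (fun b => cut n x t b < c) (n t)) := by
        unfold up
        rw [Finset.lt_inf'_iff]
        rintro (_ | t) _
        · exact hc1
        · exact h3 t
      unfold len
      exact lt_max_of_lt_right (by linarith)
  · intro t α
    unfold len lo up
    simp only [cut_upd]

end Pool.Agent.MPc05127.PP
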