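import Pool.Agent.Lib.MP_c05127_co.PP.SpecT

/-!
# MP_c05127_co, project PP: the coboundary of a cup product (statement `S_Lz`)
-/

set_option autoImplicit false

open scoped Classical

namespace Pool.Agent.MPc05127.PP

namespace LzAux

open Finset

variable {V : Type}

/-- The product of the coboundaries over the steps in `[a, b)`. -/
noncomputable def P (σ : ℕ → V → ZMod 2) (a b : ℕ) (v : ℕ → V) : ZMod 2 :=
  ∏ l ∈ Ico a b, (σ l (v l) + σ l (v (l + 1)))

theorem skip_lt (v : ℕ → V) {i l : ℕ} (h : l < i) : skip i v l = v l := by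
  simp [skip, h]

theorem skip_ge (v : ℕ → V) {i l : ℕ} (h : i ≤ l) : skip i v l = v (l + 1) := by
  simp [skip, Nat.not_lt.2 h]

theorem sumIcc (f : ℕ → ZMod 2) {a n : ℕ} (h : a ≤ n + 1) :
    ∑ i ∈ Icc a (n + 1), f i = f (n + 1) + ∑ i ∈ Icc a n, f i := by
  have h1 : Icc a (n + 1) = insert (n + 1) (Icc a n) := by
    ext x; simp only [mem_Icc, mem_insert]; omega
  rw [h1, sum_insert (by simp)]

theorem P_skip (σ : ℕ → V → ZMod 2) (a b i : ℕ) (v : ℕ → V) (h : b < i) :
    P σ a b (skip i v) = P σ a b v := by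
  unfold P
  refine prod_congr rfl fun l hl => ?_
  have hl2 := (mem_Ico.1 hl).2
  rw [skip_lt v (by omega), skip_lt v (by omega)]

theorem Z (σ : ℕ → V → ZMod 2) (a : ℕ) (v : ℕ → V) (b : ℕ) (hab : a ≤ b) :
    ∑ i ∈ Icc a (b + 1), P σ a b (skip i v) = 0 := by
  have h2 : (2 : ZMod 2) = 0 := by decide
  induction b, hab using Nat.le_induction with
  | base =>
    rw [← Finset.sum_Ioc_add_eq_sum_Icc (by omega : a ≤ a + 1)]
    have h1 : Ioc a (a + 1) = {a + 1} := by
      ext x; simp only [mem_Ioc, mem_singleton]; omega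
    rw [h1, sum_singleton]
    simp only [P, Ico_self, prod_empty]
    decide
  | succ b hab ih =>
    have hP : ∀ u : ℕ → V, P σ a (b + 1) u = P σ a b u * (σ b (u b) + σ b (u (b + 1))) := by
      intro u
      unfold P
      rw [prod_Ico_succ_top hab]
    rw [sumIcc _ (by omega : a ≤ b + 1 + 1), sumIcc _ (by omega : a ≤ b + 1)]
    rw [sumIcc _ (by omega : a ≤ b + 1)] at ih
    have h3 : ∑ i ∈ Icc a b, P σ a (b + 1) (skip i v) =
        (∑ i ∈ Icc a b, P σ a b (skip i v)) * (σ b (v (b + 1)) + σ b (v (b + 2))) := by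
      rw [sum_mul]
      refine sum_congr rfl fun i hi => ?_
      have hi2 := (mem_Icc.1 hi).2
      rw [hP, skip_ge v hi2, skip_ge v (by omega : i ≤ b + 1)]
    rw [h3, hP, hP, skip_ge v (le_refl (b + 1)), skip_lt v (by omega : b < b + 1),
      skip_lt v (by omega : b < b + 1 + 1), skip_lt v (by omega : b + 1 < b + 1 + 1),
      P_skip σ a b (b + 1) v (by omega), P_skip σ a b (b + 1 + 1) v (by omega)]
    rw [P_skip σ a b (b + 1) v (by omega)] at ih
    linear_combination (σ b (v (b + 1)) + σ b (v (b + 2))) * ih +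
      P σ a b v * σ b (v b) * h2

end LzAux

open Finset LzAux in
theorem tLz : S_Lz := by
  intro V D m σ β v hm
  have h2 : (2 : ZMod 2) = 0 := by decide
  obtain ⟨d, rfl⟩ : ∃ d, D = m + d + 1 := ⟨D - m - 1, by omega⟩
  set σ' : ℕ → V → ZMod 2 := fun l => σ (l + 1) with hσ'
  set Q : ZMod 2 := P σ (m + 1) (m + d + 1) v with hQ
  have hshift : ∀ f : ℕ → ZMod 2, ∏ l ∈ Ico (m + 1) (m + d + 1), f l =
      ∏ l ∈ Ico m (m + d), f (l + 1) := by
    intro f
    rw [prod_Ico_add' f m (m + d) 1]
  -- part 1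
  have h1 : ∀ i ∈ range (m + 1), bb (m + d + 1) m σ β (skip i v) =
      P σ 0 m (skip i v) * (β (v (m + 1)) * Q) := by
    intro i hi
    have hi' : i ≤ m := by have := mem_range.1 hi; omega
    unfold bb
    rw [skip_ge v hi', range_eq_Ico, mul_assoc]
    have h3 : ∏ l ∈ Ico (m + 1) (m + d + 1), (σ l (skip i v (l - 1)) + σ l (skip i v l)) = Q := by
      rw [hQ]
      unfold P
      refine prod_congr rfl fun l hl => ?_
      have hl1 := (mem_Ico.1 hl).1
      rw [skip_ge v (by omega : i ≤ l - 1), skip_ge v (by omega : i ≤ l),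
        show l - 1 + 1 = l by omega]
    rw [h3]
    rfl
  have h1s : ∑ i ∈ range (m + 1), P σ 0 m (skip i v) = P σ 0 m v := by
    have hz := Z σ 0 v m (Nat.zero_le m)
    rw [sumIcc _ (by omega : 0 ≤ m + 1), P_skip σ 0 m (m + 1) v (by omega)] at hz
    have h4 : Icc 0 m = range (m + 1) := by
      ext x; simp only [mem_Icc, mem_range]; omega
    rw [h4] at hz
    linear_combination hz - P σ 0 m v * h2
  -- part 2
  have h5 : ∀ i ∈ Icc (m + 1) (m + d + 1), bb (m + d + 1) m σ β (skip i v) =
      P σ' m (m + d) (skip i v) * (P σ 0 m v * β (v m)) := by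
    intro i hi
    have hi' := (mem_Icc.1 hi).1
    unfold bb
    rw [skip_lt v (by omega : m < i), hshift]
    have h6 : ∏ l ∈ range m, (σ l (skip i v l) + σ l (skip i v (l + 1))) = P σ 0 m v := by
      rw [range_eq_Ico]
      exact P_skip σ 0 m i v (by omega)
    rw [h6, mul_comm]
    rfl
  have h5s : ∑ i ∈ Icc (m + 1) (m + d + 1), P σ' m (m + d) (skip i v) = Q := by
    have hz := Z σ' m v (m + d) (by omega)
    have h7 : Icc m (m + d + 1) = insert m (Icc (m + 1) (m + d + 1)) := by
      ext x; simp only [mem_Icc, mem_insert]; omega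
    rw [h7, sum_insert (by simp)] at hz
    have h8 : P σ' m (m + d) (skip m v) = Q := by
      rw [hQ]
      unfold P
      rw [hshift]
      refine prod_congr rfl fun l hl => ?_
      have hl1 := (mem_Ico.1 hl).1
      rw [skip_ge v hl1, skip_ge v (by omega : m ≤ l + 1)]
    rw [h8] at hz
    linear_combination hz - Q * h2
  -- right hand side
  have h9 : alt (m + d + 1) (Function.update σ m β) v =
      P σ 0 m v * (β (v m) + β (v (m + 1))) * Q := by
    unfold alt
    rw [range_eq_Ico, ← prod_Ico_consecutive _ (Nat.zero_le (m + 1)) (by omega : m + 1 ≤ m + d + 1),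
      prod_Ico_succ_top (Nat.zero_le m), Function.update_self]
    congr 1
    · congr 1
      unfold P
      refine prod_congr rfl fun l hl => ?_
      have hl2 := (mem_Ico.1 hl).2
      rw [Function.update_of_ne (by omega)]
    · rw [hQ]
      unfold P
      refine prod_congr rfl fun l hl => ?_
      have hl1 := (mem_Ico.1 hl).1
      rw [Function.update_of_ne (by omega)]
  have h10 : range (m + d + 1 + 1) = range (m + 1) ∪ Icc (m + 1) (m + d + 1) := by
    ext x; simp only [mem_range, mem_union, mem_Icc]; omega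
  have h11 : Disjoint (range (m + 1)) (Icc (m + 1) (m + d + 1)) := by
    rw [disjoint_left]
    intro x hx hx'
    have h12 := mem_range.1 hx
    have h13 := (mem_Icc.1 hx').1
    omega
  rw [h10, sum_union h11, sum_congr rfl h1, sum_congr rfl h5, ← sum_mul, ← sum_mul, h1s, h5s, h9]
  ring

end Pool.Agent.MPc05127.PP
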