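import Pool.Agent.Lib.MP_c05127_co.PP.SpecG

/-!
# MP_c05127_co, project PP: continuity
-/

set_option autoImplicit false

open scoped Classical

namespace Pool.Agent.MPc05127.PP

namespace PcAux

open Filter Topology

variable {s : ℕ}

theorem sign_eq (r : ℝ) : Real.sign r = r / |r| := by
  rcases lt_trichotomy r 0 with h | h | h
  · rw [Real.sign_of_neg h, abs_of_neg h, div_neg, div_self h.ne]
  · rw [h]; simp
  · rw [Real.sign_of_pos h, abs_of_pos h, div_self h.ne']

theorem abs_sign_le (r : ℝ) : |Real.sign r| ≤ 1 := by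
  rcases lt_trichotomy r 0 with h | h | h
  · rw [Real.sign_of_neg h]; simp
  · rw [h]; simp
  · rw [Real.sign_of_pos h]; simp

theorem cont_coord (t : Fin s) (b : ℕ) : Continuous (fun x : Fin s → ℕ → ℝ => x t b) :=
  continuous_apply_apply t b

theorem cont_tot (n : Fin s → ℕ) (t : Fin s) :
    Continuous (fun x : Fin s → ℕ → ℝ => tot n x t) := by
  unfold tot
  exact continuous_finset_sum _ fun b _ => (cont_coord t b).abs

theorem cont_cut (hKu : S_Ku) (n : Fin s → ℕ) (t : Fin s) (b : ℕ) :
    ContinuousOn (fun x : Fin s → ℕ → ℝ => cut n x t b) (DomF n) := by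
  unfold cut
  refine ContinuousOn.div ?_ (cont_tot n t).continuousOn fun x hx => (hKu s n x hx t).1.ne'
  exact (continuous_finset_sum _ fun b _ => (cont_coord t b).abs).continuousOn

theorem cont_len (hKu : S_Ku) (n : Fin s → ℕ) (α : Fin s → ℕ) :
    ContinuousOn (fun x : Fin s → ℕ → ℝ => len n x α) (DomF n) := by
  unfold len lo up
  refine ContinuousOn.sup continuousOn_const (ContinuousOn.sub ?_ ?_)
  · refine ContinuousOn.finset_inf'_apply _ fun o _ => ?_
    cases o with
    | none => exact continuousOn_const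
    | some t => exact cont_cut hKu n t (α t + 1)
  · refine ContinuousOn.finset_sup'_apply _ fun o _ => ?_
    cases o with
    | none => exact continuousOn_const
    | some t => exact cont_cut hKu n t (α t)

theorem cont_A (hKu : S_Ku) (hLe : S_Le) (n : Fin s → ℕ) (χ : Finset (Fin s)) (α : Fin s → ℕ) :
    ContinuousOn (fun x : Fin s → ℕ → ℝ => len n x α * ∏ t ∈ χ, Real.sign (x t (α t)))
      (DomF n) := by
  intro x₀ hx₀
  by_cases h : ∀ t ∈ χ, x₀ t (α t) ≠ 0
  · refine ContinuousWithinAt.mul (cont_len hKu n α x₀ hx₀) ?_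
    refine ContinuousAt.continuousWithinAt ?_
    have h1 : ∀ t ∈ χ, ContinuousAt (fun x : Fin s → ℕ → ℝ => Real.sign (x t (α t))) x₀ := by
      intro t ht
      simp only [sign_eq]
      exact ContinuousAt.div (cont_coord t (α t)).continuousAt
        (cont_coord t (α t)).abs.continuousAt (abs_ne_zero.2 (h t ht))
    exact tendsto_finset_prod χ h1
  · push Not at h
    obtain ⟨t, ht, h0⟩ := h
    have hval : len n x₀ α * ∏ t ∈ χ, Real.sign (x₀ t (α t)) = 0 := by
      rw [Finset.prod_eq_zero ht (by rw [h0, Real.sign_zero]), mul_zero]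
    unfold ContinuousWithinAt
    simp only []
    rw [hval]
    have hb : ∀ᶠ x in 𝓝[DomF n] x₀, ‖len n x α * ∏ t ∈ χ, Real.sign (x t (α t))‖ ≤
        |x t (α t)| / tot n x t := by
      filter_upwards [self_mem_nhdsWithin] with x hx
      have h1 := (hLe s n x hx).1 α t
      rw [Real.norm_eq_abs, abs_mul, abs_of_nonneg h1.1]
      have h2 : |∏ t ∈ χ, Real.sign (x t (α t))| ≤ 1 := by
        rw [Finset.abs_prod]
        exact Finset.prod_le_one (fun _ _ => abs_nonneg _) fun _ _ => abs_sign_le _
      calc len n x α * |∏ t ∈ χ, Real.sign (x t (α t))| ≤ len n x α * 1 :=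
            mul_le_mul_of_nonneg_left h2 h1.1
        _ ≤ _ := by rw [mul_one]; exact h1.2
    refine squeeze_zero_norm' hb ?_
    have h3 : ContinuousAt (fun x : Fin s → ℕ → ℝ => |x t (α t)| / tot n x t) x₀ :=
      ContinuousAt.div (cont_coord t (α t)).abs.continuousAt (cont_tot n t).continuousAt
        (hKu s n x₀ hx₀ t).1.ne'
    have h4 : |x₀ t (α t)| / tot n x₀ t = 0 := by rw [h0]; simp
    have h5 := h3.tendsto
    rw [h4] at h5
    exact h5.mono_left nhdsWithin_le_nhds

end PcAux

open PcAux in
theorem tPc (hKu : S_Ku) (hLe : S_Le) : S_Pc := by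
  intro s n χ
  unfold ph
  refine continuousOn_finset_sum _ fun α _ => ?_
  refine ContinuousOn.mul ?_ ?_
  · exact (cont_A hKu hLe n χ α).comp continuous_fst.continuousOn fun z hz => hz
  · exact ((continuous_apply (∑ t, α t)).comp continuous_snd).continuousOn

end Pool.Agent.MPc05127.PP
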