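import Pool.Agent.Lib.MP_c05127_co.PP.SpecG

/-! MP_c05127_co, project PP: flips and linearity of the weighted sums. -/

set_option autoImplicit false

open scoped Classical

namespace Pool.Agent.MPc05127.PP

namespace PeAux

variable {s : ℕ}

theorem sgn_neg (r : ℝ) : Real.sign (-r) = -Real.sign r := by
  rcases lt_trichotomy r 0 with h | h | h
  · rw [Real.sign_of_neg h, Real.sign_of_pos (neg_pos.2 h), neg_neg]
  · rw [h, neg_zero, Real.sign_zero, neg_zero]
  · rw [Real.sign_of_pos h, Real.sign_of_neg (neg_lt_zero.2 h)]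

theorem prod_flip (x : Fin s → ℕ → ℝ) (χ : Finset (Fin s)) (t : Fin s) (α : Fin s → ℕ) :
    ∏ u ∈ χ, Real.sign (Function.update x t (-x t) u (α u)) =
      if t ∈ χ then -∏ u ∈ χ, Real.sign (x u (α u)) else ∏ u ∈ χ, Real.sign (x u (α u)) := by
  have h1 : ∀ u ∈ χ.erase t, Real.sign (Function.update x t (-x t) u (α u)) =
      Real.sign (x u (α u)) := by
    intro u hu
    rw [Function.update_of_ne (Finset.ne_of_mem_erase hu)]
  by_cases ht : t ∈ χ
  · rw [if_pos ht, ← Finset.mul_prod_erase χ _ ht,
      ← Finset.mul_prod_erase χ (fun u => Real.sign (x u (α u))) ht, Finset.prod_congr rfl h1,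
      Function.update_self, Pi.neg_apply, sgn_neg, neg_mul]
  · rw [if_neg ht]
    refine Finset.prod_congr rfl fun u hu => ?_
    have hne : u ≠ t := fun e => ht (by rw [← e]; exact hu)
    rw [Function.update_of_ne hne]

end PeAux

theorem tPe (hLe : S_Le) : S_Pe := by
  intro s n x hx χ
  refine ⟨fun t F => ?_, fun F => ?_, fun κ _ c F => ?_⟩
  · have h5 := (hLe s n x hx).2.2.2.2 t
    unfold ph
    by_cases ht : t ∈ χ
    · rw [if_pos ht, ← Finset.sum_neg_distrib]
      refine Finset.sum_congr rfl fun α _ => ?_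
      rw [h5, PeAux.prod_flip, if_pos ht]
      ring
    · rw [if_neg ht]
      refine Finset.sum_congr rfl fun α _ => ?_
      rw [h5, PeAux.prod_flip, if_neg ht]
  · unfold ph
    rw [← Finset.sum_neg_distrib]
    exact Finset.sum_congr rfl fun α _ => by ring
  · unfold ph
    simp only [Finset.mul_sum]
    rw [Finset.sum_comm]
    exact Finset.sum_congr rfl fun b _ => Finset.sum_congr rfl fun α _ => by ring

end Pool.Agent.MPc05127.PP
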