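import Pool.Agent.Lib.MP_c05127_co.PP.SpecG

/-!
# MP_c05127_co, project PP: the parts
-/

set_option autoImplicit false

open scoped Classical

namespace Pool.Agent.MPc05127.PP

namespace PfAux

variable {s : ℕ}

/-- The signs. -/
noncomputable def eps (g : Fin s → Bool) (t : Fin s) : ℝ := if g t = true then 1 else -1

/-- The pieces with the label `g`. -/
noncomputable def II (n : Fin s → ℕ) (x : Fin s → ℕ → ℝ) (g : Fin s → Bool) :
    Finset (Fin s → ℕ) :=
  (idx n).filter (fun α => 0 < len n x α ∧ ∀ t, (0 < x t (α t)) ↔ g t = true)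

lemma prod_sign (g : Fin s → Bool) (v : Fin s → ℝ) (hv : ∀ t, v t ≠ 0) :
    ∏ t, (1 + eps g t * Real.sign (v t)) =
      if (∀ t, (0 < v t) ↔ g t = true) then (2 : ℝ) ^ s else 0 := by
  split_ifs with h
  · have : ∀ t ∈ (Finset.univ : Finset (Fin s)), (1 + eps g t * Real.sign (v t)) = 2 := by
      intro t _
      unfold eps
      by_cases hg : g t = true
      · rw [if_pos hg, Real.sign_of_pos ((h t).2 hg)]; norm_num
      · have h1 : ¬ 0 < v t := fun h2 => hg ((h t).1 h2)
        have h2 : v t < 0 := lt_of_le_of_ne (not_lt.1 h1) (hv t)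
        rw [if_neg hg, Real.sign_of_neg h2]; norm_num
    rw [Finset.prod_congr rfl this]
    simp
  · rw [not_forall] at h
    obtain ⟨t, ht⟩ := h
    apply Finset.prod_eq_zero (Finset.mem_univ t)
    unfold eps
    by_cases hg : g t = true
    · have h1 : ¬ 0 < v t := fun h2 => ht ⟨fun _ => hg, fun _ => h2⟩
      have h2 : v t < 0 := lt_of_le_of_ne (not_lt.1 h1) (hv t)
      rw [if_pos hg, Real.sign_of_neg h2]; norm_num
    · have h1 : 0 < v t := by
        by_contra h2
        exact ht ⟨fun h3 => absurd h3 h2, fun h3 => absurd h3 hg⟩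
      rw [if_neg hg, Real.sign_of_pos h1]; norm_num

lemma fourier (n : Fin s → ℕ) (x : Fin s → ℕ → ℝ)
    (h0 : ∀ α, 0 ≤ len n x α) (hne : ∀ α t, 0 < len n x α → x t (α t) ≠ 0)
    (g : Fin s → Bool) (F : ℕ → ℝ) :
    ∑ χ : Finset (Fin s), (∏ t ∈ χ, eps g t) * ph n x χ F =
      (2 : ℝ) ^ s * ∑ α ∈ II n x g, len n x α * F (∑ t, α t) := by
  unfold ph
  simp_rw [Finset.mul_sum]
  rw [Finset.sum_comm]
  unfold II
  rw [Finset.sum_filter]
  apply Finset.sum_congr rfl
  intro α _
  have e1 : ∑ χ : Finset (Fin s), (∏ t ∈ χ, eps g t) *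
      (len n x α * (∏ t ∈ χ, Real.sign (x t (α t))) * F (∑ t, α t)) =
      (len n x α * F (∑ t, α t)) * ∏ t, (1 + eps g t * Real.sign (x t (α t))) := by
    rw [Finset.prod_one_add, Finset.mul_sum, Finset.powerset_univ]
    apply Finset.sum_congr rfl
    intro χ _
    rw [Finset.prod_mul_distrib]
    ring
  rw [e1]
  rcases (h0 α).eq_or_lt with hz | hp
  · rw [← hz]
    simp
  · rw [prod_sign g (fun t => x t (α t)) (fun t => hne α t hp)]
    by_cases hq : ∀ t, (0 < x t (α t)) ↔ g t = true
    · rw [if_pos hq, if_pos ⟨hp, hq⟩]; ring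
    · rw [if_neg hq, if_neg (fun h => hq h.2)]; ring

end PfAux

open PfAux in
theorem tPf (hLe : S_Le) : S_Pf := by
  intro s n x hx hw
  obtain ⟨hl1, hl2, hl3, hl4, -⟩ := hLe s n x hx
  have h0 : ∀ α, 0 ≤ len n x α := by
    intro α
    exact le_max_left _ _
  have hF := fourier n x h0 hl2
  have hpos : ∀ g, 0 < ∑ α ∈ II n x g, len n x α := by
    intro g
    have h1 := hF g (fun _ => 1)
    have h2 : ∑ χ : Finset (Fin s), (∏ t ∈ χ, eps g t) * ph n x χ (fun _ => 1) =
        ph n x ∅ (fun _ => 1) := by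
      rw [Finset.sum_eq_single (∅ : Finset (Fin s))]
      · simp
      · intro χ _ hχ
        rw [hw χ (Finset.nonempty_iff_ne_empty.2 hχ), mul_zero]
      · intro h; exact absurd (Finset.mem_univ _) h
    rw [h2] at h1
    have h3 : 0 < ph n x ∅ (fun _ => 1) := by
      unfold ph
      obtain ⟨α, hα, hαp⟩ := hl4
      apply Finset.sum_pos'
      · intro β _
        simp only [Finset.prod_empty, mul_one]
        exact h0 β
      · exact ⟨α, hα, by simpa using hαp⟩
    rw [h1] at h3
    have h4 : (0 : ℝ) < 2 ^ s := by positivity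
    have h5 := (pos_iff_pos_of_mul_pos h3).1 h4
    simpa using h5
  have hIne : ∀ g, (II n x g).Nonempty := by
    intro g
    by_contra h
    rw [Finset.not_nonempty_iff_eq_empty] at h
    have := hpos g
    rw [h] at this
    simp at this
  refine ⟨fun g => (II n x g).image (fun α => ∑ t, α t), ?_, ?_, ?_, ?_, ?_⟩
  · intro g g' hg
    rw [Finset.disjoint_left]
    intro a ha ha'
    rw [Finset.mem_image] at ha ha'
    obtain ⟨α, hα, rfl⟩ := ha
    obtain ⟨α', hα', he⟩ := ha'
    unfold II at hα hα'
    rw [Finset.mem_filter] at hα hα'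
    have hαα : α = α' := by
      by_contra hn
      rcases hl3 α hα.1 α' hα'.1 hn he.symm with h | h
      · exact absurd hα.2.1 (by rw [h]; exact lt_irrefl _)
      · exact absurd hα'.2.1 (by rw [h]; exact lt_irrefl _)
    subst hαα
    apply hg
    funext t
    have h1 := (hα.2.2 t).symm.trans (hα'.2.2 t)
    exact Bool.eq_iff_iff.2 h1
  · intro g h hh
    rw [Finset.mem_image] at hh
    obtain ⟨α, hα, rfl⟩ := hh
    unfold II at hα
    rw [Finset.mem_filter] at hα
    apply Finset.sum_le_sum
    intro t _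
    have := hα.1
    unfold idx at this
    rw [Fintype.mem_piFinset] at this
    have := this t
    rw [Finset.mem_range] at this
    omega
  · intro g
    exact (hIne g).image _
  · intro F hz g
    by_contra hc
    push Not at hc
    have h1 := hF g F
    have h2 : ∑ χ : Finset (Fin s), (∏ t ∈ χ, eps g t) * ph n x χ F = 0 := by
      apply Finset.sum_eq_zero
      intro χ _
      rw [hz χ, mul_zero]
    rw [h2] at h1
    have h4 : (2 : ℝ) ^ s ≠ 0 := by positivity
    have h5 : ∑ α ∈ II n x g, len n x α * F (∑ t, α t) = 0 := by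
      rcases mul_eq_zero.1 h1.symm with h | h
      · exact absurd h h4
      · exact h
    have h6 : ∑ α ∈ II n x g, len n x α * F (∑ t, α t) < 0 := by
      apply Finset.sum_neg
      · intro α hα
        have hF1 : F (∑ t, α t) < 0 := hc _ (Finset.mem_image_of_mem _ hα)
        unfold II at hα
        rw [Finset.mem_filter] at hα
        exact mul_neg_of_pos_of_neg hα.2.1 hF1
      · exact hIne g
    rw [h5] at h6
    exact lt_irrefl _ h6
  · intro F hF0 hz g h hh
    rw [Finset.mem_image] at hh
    obtain ⟨α, hα, rfl⟩ := hh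
    unfold II at hα
    rw [Finset.mem_filter] at hα
    unfold ph at hz
    rw [Finset.sum_eq_zero_iff_of_nonneg] at hz
    · have h1 := hz α hα.1
      simp only [Finset.prod_empty, mul_one] at h1
      rcases mul_eq_zero.1 h1 with h2 | h2
      · exact absurd h2 (ne_of_gt hα.2.1)
      · exact h2
    · intro β _
      simp only [Finset.prod_empty, mul_one]
      exact mul_nonneg (h0 β) (hF0 _)

end Pool.Agent.MPc05127.PP
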