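import Pool.Agent.Lib.MP_c05127_co.PP.SpecT

/-!
# MP_c05127_co, project PP: the reference sum is `1`
-/

set_option autoImplicit false

open scoped Classical

namespace Pool.Agent.MPc05127.PP

namespace ReAux

variable {C J : Type} [Fintype C]

/-- the signs given by a Boolean function -/
noncomputable def ee (T : Num C) (ω : Fin (Fintype.card C) → Bool) (c : C) : ℤ :=
  if ω (T c) then -1 else 1

theorem ee_inj (T : Num C) : Function.Injective (ee T) := by
  intro ω ω' h
  funext i
  have h1 := congrFun h (T.symm i)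
  unfold ee at h1
  rw [Equiv.apply_symm_apply] at h1
  by_cases h2 : ω i = true <;> by_cases h3 : ω' i = true
  · rw [h2, h3]
  · rw [if_pos h2, if_neg h3] at h1; norm_num at h1
  · rw [if_neg h2, if_pos h3] at h1; norm_num at h1
  · rw [Bool.not_eq_true] at h2 h3
    rw [h2, h3]

theorem inn_ee (T : Num C) (ω : Fin (Fintype.card C) → Bool) (c : C) : inn (ee T ω c) = 0 := by
  unfold ee inn
  split_ifs <;> decide

theorem vert_ee (T : Num C) (ω : Fin (Fintype.card C) → Bool) (l : ℕ) (c : C) :
    vert (ee T ω) T.n l c = if T.n c < l then ee T ω c else 0 := by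
  unfold vert
  rw [inn_ee]

theorem lx_congr (b : Blk C J) (T : Num C) (j : J) (v v' : C → ℤ)
    (h : ∀ c, b.B c = some j → v c = v' c) : lx b T j v = lx b T j v' := by
  have h1 : (∃ c, b.B c = some j ∧ v c < 0 ∧ ∀ c', b.B c' = some j → T.n c < T.n c' → v c' = 0) ↔
      (∃ c, b.B c = some j ∧ v' c < 0 ∧ ∀ c', b.B c' = some j → T.n c < T.n c' → v' c' = 0) := by
    constructor
    · rintro ⟨c, hc, h2, h3⟩
      exact ⟨c, hc, by rw [← h c hc]; exact h2, fun c' hc' hl => by rw [← h c' hc']; exact h3 c' hc' hl⟩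
    · rintro ⟨c, hc, h2, h3⟩
      exact ⟨c, hc, by rw [h c hc]; exact h2, fun c' hc' hl => by rw [h c' hc']; exact h3 c' hc' hl⟩
  unfold lx
  by_cases h2 : (∃ c, b.B c = some j ∧ v c < 0 ∧ ∀ c', b.B c' = some j → T.n c < T.n c' → v c' = 0)
  · rw [if_pos h2, if_pos (h1.1 h2)]
  · rw [if_neg h2, if_neg (fun h3 => h2 (h1.2 h3))]

theorem n_symm (T : Num C) (l : Fin (Fintype.card C)) : T.n (T.symm l) = (l : ℕ) := by
  unfold Num.n
  rw [Equiv.apply_symm_apply]

theorem eq_symm (T : Num C) (l : Fin (Fintype.card C)) (c : C) (h : T.n c = (l : ℕ)) :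
    c = T.symm l := by
  rw [Equiv.eq_symm_apply]
  exact Fin.ext h

/-- the new value -/
theorem lx_new (b : Blk C J) (T : Num C) (ω : Fin (Fintype.card C) → Bool)
    (l : Fin (Fintype.card C)) (j : J) (hj : b.B (T.symm l) = some j) :
    lx b T j (vert (ee T ω) T.n ((l : ℕ) + 1)) = if ω l then 1 else 0 := by
  have hv : vert (ee T ω) T.n ((l : ℕ) + 1) (T.symm l) = if ω l then -1 else 1 := by
    rw [vert_ee, n_symm, if_pos (Nat.lt_succ_self _)]
    unfold ee
    rw [Equiv.apply_symm_apply]
  unfold lx
  by_cases hω : ω l = true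
  · rw [if_pos hω, if_pos]
    refine ⟨T.symm l, hj, ?_, ?_⟩
    · rw [hv, if_pos hω]; norm_num
    · intro c' _ hc'
      rw [n_symm] at hc'
      rw [vert_ee, if_neg (by omega)]
  · rw [if_neg hω, if_neg]
    rintro ⟨c1, hc1, hneg, hz⟩
    rw [vert_ee] at hneg
    by_cases h1 : T.n c1 < (l : ℕ) + 1
    · by_cases h2 : T.n c1 = (l : ℕ)
      · have h3 := eq_symm T l c1 h2
        rw [if_pos h1, h3] at hneg
        unfold ee at hneg
        rw [Equiv.apply_symm_apply, if_neg hω] at hneg
        norm_num at hneg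
      · have h3 := hz (T.symm l) hj (by rw [n_symm]; omega)
        rw [hv, if_neg hω] at h3
        norm_num at h3
    · rw [if_neg h1] at hneg
      exact lt_irrefl _ hneg

/-- the other blocks do not change -/
theorem lx_old (b : Blk C J) (T : Num C) (ω : Fin (Fintype.card C) → Bool)
    (l : Fin (Fintype.card C)) (j : J) (hj : b.B (T.symm l) ≠ some j) :
    lx b T j (vert (ee T ω) T.n ((l : ℕ) + 1)) = lx b T j (vert (ee T ω) T.n (l : ℕ)) := by
  apply lx_congr
  intro c hc
  rw [vert_ee, vert_ee]
  by_cases h1 : T.n c < (l : ℕ)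
  · rw [if_pos h1, if_pos (by omega)]
  · by_cases h2 : T.n c = (l : ℕ)
    · exact absurd (by rw [← eq_symm T l c h2]; exact hc) hj
    · rw [if_neg h1, if_neg (by omega)]

variable [Fintype J]

/-- the second summand of the factor -/
noncomputable def qq (b : Blk C J) (T : Num C) (l : Fin (Fintype.card C))
    (ω : Fin (Fintype.card C) → Bool) : ZMod 2 :=
  match b.B (T.symm l) with
  | none => ∑ j, if b.χ (T.symm l) j then lx b T j (vert (ee T ω) T.n (l : ℕ)) else 0
  | some j => lx b T j (vert (ee T ω) T.n (l : ℕ))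

theorem qq_dep (b : Blk C J) (T : Num C) (l : Fin (Fintype.card C))
    (ω ω' : Fin (Fintype.card C) → Bool) (h : ∀ i < l, ω i = ω' i) : qq b T l ω = qq b T l ω' := by
  have h1 : ∀ j, lx b T j (vert (ee T ω) T.n (l : ℕ)) = lx b T j (vert (ee T ω') T.n (l : ℕ)) := by
    intro j
    apply lx_congr
    intro c _
    rw [vert_ee, vert_ee]
    by_cases h2 : T.n c < (l : ℕ)
    · rw [if_pos h2, if_pos h2]
      unfold ee
      rw [h (T c) h2]
    · rw [if_neg h2, if_neg h2]
  unfold qq
  cases hB : b.B (T.symm l) with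
  | none =>
    simp only
    apply Finset.sum_congr rfl
    intro j _
    rw [h1]
  | some j =>
    simp only
    exact h1 j

/-- the factor -/
theorem factor (b : Blk C J) (T : Num C) (ω : Fin (Fintype.card C) → Bool)
    (l : Fin (Fintype.card C)) :
    rf b T (T.symm l) (vert (ee T ω) T.n (l : ℕ)) +
      rf b T (T.symm l) (vert (ee T ω) T.n ((l : ℕ) + 1)) = (if ω l then 1 else 0) + qq b T l ω := by
  have hv0 : vert (ee T ω) T.n (l : ℕ) (T.symm l) = 0 := by
    rw [vert_ee, n_symm, if_neg (lt_irrefl _)]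
  have hv1 : vert (ee T ω) T.n ((l : ℕ) + 1) (T.symm l) = if ω l then -1 else 1 := by
    rw [vert_ee, n_symm, if_pos (Nat.lt_succ_self _)]
    unfold ee
    rw [Equiv.apply_symm_apply]
  cases hB : b.B (T.symm l) with
  | none =>
    have hq : qq b T l ω = ∑ j, if b.χ (T.symm l) j then
        lx b T j (vert (ee T ω) T.n (l : ℕ)) else 0 := by
      unfold qq
      rw [hB]
    rw [hq, add_comm]
    congr 1
    · unfold rf
      rw [hv1, hB]
      by_cases hω : ω l = true
      · rw [if_pos hω, if_pos ⟨rfl, by norm_num⟩, if_pos (by norm_num), if_pos hω]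
      · rw [if_neg hω, if_pos ⟨rfl, by norm_num⟩, if_neg (by norm_num), if_neg hω]
    · unfold rf
      rw [hv0, if_neg (fun h => h.2 rfl)]
  | some j =>
    have hq : qq b T l ω = lx b T j (vert (ee T ω) T.n (l : ℕ)) := by
      unfold qq
      rw [hB]
    have hr : ∀ v, rf b T (T.symm l) v = ∑ j', if b.χ (T.symm l) j' then lx b T j' v else 0 := by
      intro v
      unfold rf
      rw [if_neg]
      rintro ⟨h1, -⟩
      rw [hB] at h1
      exact Option.some_ne_none _ h1
    rw [hq, hr, hr, ← Finset.sum_add_distrib]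
    rw [Finset.sum_eq_single j]
    · rw [if_pos (b.self _ _ hB), if_pos (b.self _ _ hB), lx_new b T ω l j hB, add_comm]
    · intro j' _ hj'
      by_cases h1 : b.χ (T.symm l) j'
      · rw [if_pos h1, if_pos h1, lx_old b T ω l j' (by
          rw [hB]
          intro h2
          exact hj' (Option.some.inj h2).symm)]
        exact CharTwo.add_self_eq_zero _
      · rw [if_neg h1, if_neg h1, add_zero]
    · intro h
      exact absurd (Finset.mem_univ j) h

end ReAux

open ReAux in
theorem tRe (hRu : S_Ru) (hTr : S_Tr) : S_Re := by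
  intro C J _ _ b N T hN
  -- nonzero terms
  have key : ∀ w ∈ Fintype.piFinset (fun _ : C => ZN N), ∀ pos : Num C,
      alt (Fintype.card C) (sg T (rf b T)) (vert w pos.n) ≠ 0 →
      (∀ c, w c = 1 ∨ w c = -1) ∧ pos = T := by
    intro w hw pos hne
    apply hRu C J b N T pos w (fun c => Fintype.mem_piFinset.1 hw c)
    intro l hl heq
    apply hne
    unfold alt
    apply Finset.prod_eq_zero (Finset.mem_range.2 hl)
    rw [heq]
    exact CharTwo.add_self_eq_zero _
  have h1 : tsum N T (rf b T) = ∑ w ∈ Fintype.piFinset (fun _ : C => ZN N),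
      alt (Fintype.card C) (sg T (rf b T)) (vert w T.n) := by
    unfold tsum
    apply Finset.sum_congr rfl
    intro w hw
    apply Finset.sum_eq_single T
    · intro pos _ hpos
      by_contra hne
      exact hpos (key w hw pos hne).2
    · intro h
      exact absurd (Finset.mem_univ T) h
  have h2 : ∑ ω : Fin (Fintype.card C) → Bool,
      ∏ l, ((if ω l then 1 else 0) + qq b T l ω) = ∑ w ∈ Fintype.piFinset (fun _ : C => ZN N),
      alt (Fintype.card C) (sg T (rf b T)) (vert w T.n) := by
    apply Finset.sum_of_injOn (ee T)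
    · exact fun _ _ _ _ h => ee_inj T h
    · intro ω _
      rw [Finset.mem_coe, Fintype.mem_piFinset]
      intro c
      unfold ZN ee
      rw [Finset.mem_erase, Finset.mem_Icc]
      have hN' : (1 : ℤ) ≤ N := by exact_mod_cast hN
      split_ifs
      · refine ⟨by norm_num, ?_, ?_⟩ <;> omega
      · refine ⟨by norm_num, ?_, ?_⟩ <;> omega
    · intro w hw hnot
      by_contra hne
      apply hnot
      have h3 := (key w hw T hne).1
      refine ⟨fun i => decide (w (T.symm i) = -1), Finset.mem_coe.2 (Finset.mem_univ _), ?_⟩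
      funext c
      unfold ee
      simp only [Equiv.symm_apply_apply, decide_eq_true_eq]
      rcases h3 c with h4 | h4
      · rw [h4, if_neg (by norm_num)]
      · rw [h4, if_pos rfl]
    · intro ω _
      unfold alt
      rw [← Fin.prod_univ_eq_prod_range (fun l => sg T (rf b T) l (vert (ee T ω) T.n l) +
        sg T (rf b T) l (vert (ee T ω) T.n (l + 1)))]
      apply Finset.prod_congr rfl
      intro l _
      rw [← factor b T ω l]
      have h5 : ∀ v, sg T (rf b T) (l : ℕ) v = rf b T (T.symm l) v := by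
        intro v
        unfold sg
        rw [dif_pos l.2]
      rw [h5, h5]
  rw [h1, ← h2]
  exact hTr (Fintype.card C) (qq b T) (fun l w w' h => qq_dep b T l w w' h)

end Pool.Agent.MPc05127.PP
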