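import Pool.Agent.Lib.MP_c05127_co.PP.SpecT

/-!
# MP_c05127_co, project PP: the reference signs satisfy the conditions (helper62)
-/

set_option autoImplicit false

open scoped Classical

namespace Pool.Agent.MPc05127.PP

namespace RfAux

variable {C J : Type} [Fintype C]

/-- `lx` at a point whose last nonzero coordinate in the block is `c₀`. -/
lemma lx_eq (b : Blk C J) (T : Num C) (j : J) (v : C → ℤ) (c₀ : C) (h0 : b.B c₀ = some j)
    (h1 : v c₀ ≠ 0) (h2 : ∀ c', b.B c' = some j → T.n c₀ < T.n c' → v c' = 0) :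
    lx b T j v = if v c₀ < 0 then 1 else 0 := by
  unfold lx
  by_cases h : v c₀ < 0
  · rw [if_pos h, if_pos ⟨c₀, h0, h, h2⟩]
  · rw [if_neg h, if_neg]
    rintro ⟨c, hc, hc', hc''⟩
    rcases lt_trichotomy (T.n c) (T.n c₀) with h3 | h3 | h3
    · exact h1 (hc'' c₀ h0 h3)
    · have h4 : c = c₀ := T.injective (Fin.ext h3)
      rw [h4] at hc'
      exact h hc'
    · have := h2 c hc h3
      omega

lemma lx_congr (b : Blk C J) (T : Num C) (j : J) (v v' : C → ℤ)
    (h : ∀ c, b.B c = some j → v c = v' c) : lx b T j v = lx b T j v' := by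
  unfold lx
  have h1 : (∃ c, b.B c = some j ∧ v c < 0 ∧ ∀ c', b.B c' = some j → T.n c < T.n c' → v c' = 0) ↔
      (∃ c, b.B c = some j ∧ v' c < 0 ∧ ∀ c', b.B c' = some j → T.n c < T.n c' → v' c' = 0) := by
    constructor
    · rintro ⟨c, h0, h1, h2⟩
      exact ⟨c, h0, by rw [← h c h0]; exact h1, fun c' hc' hlt => by
        rw [← h c' hc']; exact h2 c' hc' hlt⟩
    · rintro ⟨c, h0, h1, h2⟩
      exact ⟨c, h0, by rw [h c h0]; exact h1, fun c' hc' hlt => by
        rw [h c' hc']; exact h2 c' hc' hlt⟩
  by_cases h2 : ∃ c, b.B c = some j ∧ v c < 0 ∧ ∀ c', b.B c' = some j → T.n c < T.n c' → v c' = 0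
  · rw [if_pos h2, if_pos (h1.1 h2)]
  · rw [if_neg h2, if_neg (fun h3 => h2 (h1.2 h3))]

lemma lx_flip (b : Blk C J) (T : Num C) (j : J) (v : C → ℤ) (c : C) (hc : b.B c = some j)
    (hv : v c ≠ 0) : lx b T j (flip (b.R j) v) = lx b T j v + 1 := by
  have hne : (Finset.univ.filter (fun c => b.B c = some j ∧ v c ≠ 0)).Nonempty :=
    ⟨c, Finset.mem_filter.2 ⟨Finset.mem_univ _, hc, hv⟩⟩
  obtain ⟨c₀, hc₀, hmax⟩ := Finset.exists_max_image _ T.n hne
  obtain ⟨_, h0, h1⟩ := Finset.mem_filter.1 hc₀
  have h2 : ∀ c', b.B c' = some j → T.n c₀ < T.n c' → v c' = 0 := by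
    intro c' hc' hlt
    by_contra hne'
    have := hmax c' (Finset.mem_filter.2 ⟨Finset.mem_univ _, hc', hne'⟩)
    omega
  have hf : ∀ c', b.B c' = some j → flip (b.R j) v c' = -v c' := by
    intro c' hc'
    have hR : b.R j c' := Or.inl hc'
    unfold flip
    rw [if_pos hR]
  rw [lx_eq b T j v c₀ h0 h1 h2, lx_eq b T j (flip (b.R j) v) c₀ h0 (by rw [hf c₀ h0]; omega)
    (fun c' hc' hlt => by rw [hf c' hc', h2 c' hc' hlt, neg_zero]), hf c₀ h0]
  by_cases h : v c₀ < 0
  · rw [if_neg (by omega), if_pos h]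
    decide
  · rw [if_pos (by omega), if_neg h, zero_add]

end RfAux

open RfAux in
theorem tRf : S_Rf := by
  intro C J _ _ b N T hN
  constructor
  · rintro j v hv ⟨p, hp, hpN⟩ c
    have hp0 : v p ≠ 0 := by
      intro h
      rw [h, abs_zero] at hpN
      omega
    have hlx : ∀ j', lx b T j' (flip (b.R j) v) = lx b T j' v + if j' = j then 1 else 0 := by
      intro j'
      by_cases h : j' = j
      · rw [h, if_pos rfl]
        exact lx_flip b T j v p hp hp0
      · rw [if_neg h, add_zero]
        refine lx_congr b T j' _ _ fun c' hc' => ?_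
        unfold flip
        rw [if_neg]
        rintro (h1 | ⟨h1, _⟩)
        · rw [hc'] at h1
          exact h (Option.some.inj h1)
        · rw [hc'] at h1
          exact absurd h1 (by simp)
    have hz : flip (b.R j) v c ≠ 0 ↔ v c ≠ 0 := by
      unfold flip
      split_ifs
      · rw [neg_ne_zero]
      · rfl
    unfold rf
    by_cases h : b.B c = none ∧ v c ≠ 0
    · rw [if_pos h, if_pos ⟨h.1, hz.2 h.2⟩]
      by_cases hχ : b.χ c j
      · have h1 : flip (b.R j) v c = -v c := by
          have hR : b.R j c := Or.inr ⟨h.1, hχ⟩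
          unfold flip
          rw [if_pos hR]
        rw [h1, if_pos hχ]
        have h2 := h.2
        by_cases h3 : v c < 0
        · rw [if_neg (by omega), if_pos h3]
          decide
        · rw [if_pos (by omega), if_neg h3, zero_add]
      · have h1 : flip (b.R j) v c = v c := by
          unfold flip
          rw [if_neg]
          rintro (h1 | ⟨_, h1⟩)
          · rw [h.1] at h1
            exact absurd h1 (by simp)
          · exact hχ h1
        rw [h1, if_neg hχ, add_zero]
    · rw [if_neg h, if_neg (fun h1 => h ⟨h1.1, hz.1 h1.2⟩)]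
      have h1 : ∀ j', (if b.χ c j' then lx b T j' (flip (b.R j) v) else 0) =
          (if b.χ c j' then lx b T j' v else 0) +
            if j' = j then (if b.χ c j then (1 : ZMod 2) else 0) else 0 := by
        intro j'
        rw [hlx]
        by_cases h2 : j' = j
        · rw [h2]
          by_cases h3 : b.χ c j
          · simp only [if_pos h3, if_true]
          · simp only [if_neg h3, if_true, add_zero]
        · simp only [if_neg h2, add_zero]
      rw [Finset.sum_congr rfl fun j' _ => h1 j', Finset.sum_add_distrib, Finset.sum_ite_eq',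
        if_pos (Finset.mem_univ j)]
  · intro c v hv hc
    constructor
    · intro h
      unfold rf
      rw [if_pos ⟨hc, by omega⟩, if_neg (by omega)]
    · intro h
      unfold rf
      rw [if_pos ⟨hc, by omega⟩, if_pos (by omega)]

end Pool.Agent.MPc05127.PP
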