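import Pool.Agent.Lib.MP_c05127_co.PP.SpecT

/-!
# MP_c05127_co, project PP: there is only one numbering for the reference signs (`S_Ru`)
-/

set_option autoImplicit false

open scoped Classical

namespace Pool.Agent.MPc05127.PP

namespace RuAux

set_option linter.unusedSectionVars false

variable {C J : Type} [Fintype C] [Fintype J]

/-- `lx j` depends only on the signs of the coordinates of the block `j`. -/
lemma lx_sign (b : Blk C J) (T : Num C) (j : J) (v v' : C → ℤ)
    (h1 : ∀ c, b.B c = some j → (v c < 0 ↔ v' c < 0))
    (h0 : ∀ c, b.B c = some j → (v c = 0 ↔ v' c = 0)) : lx b T j v = lx b T j v' := by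
  unfold lx
  have : (∃ c, b.B c = some j ∧ v c < 0 ∧ ∀ c', b.B c' = some j → T.n c < T.n c' → v c' = 0) ↔
      (∃ c, b.B c = some j ∧ v' c < 0 ∧ ∀ c', b.B c' = some j → T.n c < T.n c' → v' c' = 0) := by
    constructor
    · rintro ⟨c, hc, hv, hm⟩
      exact ⟨c, hc, (h1 c hc).1 hv, fun c' hc' hlt => (h0 c' hc').1 (hm c' hc' hlt)⟩
    · rintro ⟨c, hc, hv, hm⟩
      exact ⟨c, hc, (h1 c hc).2 hv, fun c' hc' hlt => (h0 c' hc').2 (hm c' hc' hlt)⟩
  simp only [this]

/-- `lx j` depends only on the block `j`. -/
lemma lx_congr (b : Blk C J) (T : Num C) (j : J) (v v' : C → ℤ)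
    (h : ∀ c, b.B c = some j → v c = v' c) : lx b T j v = lx b T j v' :=
  lx_sign b T j v v' (fun c hc => by rw [h c hc]) (fun c hc => by rw [h c hc])

/-- `lx j` does not depend on a coordinate `p` of the block if there is a nonzero coordinate with a
larger number. -/
lemma lx_above (b : Blk C J) (T : Num C) (j : J) (v v' : C → ℤ) (p p' : C)
    (hag : ∀ c, c ≠ p → v c = v' c) (hp' : b.B p' = some j) (hlt : T.n p < T.n p')
    (hne : v p' ≠ 0) : lx b T j v = lx b T j v' := by
  have hpp : p' ≠ p := by rintro rfl; exact lt_irrefl _ hlt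
  have hne' : v' p' ≠ 0 := by rw [← hag p' hpp]; exact hne
  unfold lx
  have : (∃ c, b.B c = some j ∧ v c < 0 ∧ ∀ c', b.B c' = some j → T.n c < T.n c' → v c' = 0) ↔
      (∃ c, b.B c = some j ∧ v' c < 0 ∧ ∀ c', b.B c' = some j → T.n c < T.n c' → v' c' = 0) := by
    constructor
    · rintro ⟨c, hc, hv, hm⟩
      have hcp : c ≠ p := by
        rintro rfl; exact hne (hm p' hp' hlt)
      refine ⟨c, hc, by rw [← hag c hcp]; exact hv, fun c' hc' hl => ?_⟩
      have hc'p : c' ≠ p := by
        rintro rfl; exact hne (hm p' hp' (hl.trans hlt))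
      rw [← hag c' hc'p]; exact hm c' hc' hl
    · rintro ⟨c, hc, hv, hm⟩
      have hcp : c ≠ p := by
        rintro rfl; exact hne' (hm p' hp' hlt)
      refine ⟨c, hc, by rw [hag c hcp]; exact hv, fun c' hc' hl => ?_⟩
      have hc'p : c' ≠ p := by
        rintro rfl; exact hne' (hm p' hp' (hl.trans hlt))
      rw [hag c' hc'p]; exact hm c' hc' hl
  simp only [this]

lemma rf_congr (b : Blk C J) (T : Num C) (c : C) (v v' : C → ℤ) (hc : v c = v' c)
    (h : ∀ j, b.χ c j → lx b T j v = lx b T j v') : rf b T c v = rf b T c v' := by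
  unfold rf
  have hs : (∑ j, if b.χ c j then lx b T j v else 0) = ∑ j, if b.χ c j then lx b T j v' else 0 := by
    refine Finset.sum_congr rfl fun j _ => ?_
    by_cases hj : b.χ c j
    · rw [if_pos hj, if_pos hj, h j hj]
    · rw [if_neg hj, if_neg hj]
  rw [hs, hc]

lemma rf_congr_blk (b : Blk C J) (T : Num C) (c : C) (v v' : C → ℤ) (hc : b.B c ≠ none)
    (h : ∀ j, lx b T j v = lx b T j v') : rf b T c v = rf b T c v' := by
  unfold rf
  rw [if_neg (fun hh => hc hh.1), if_neg (fun hh => hc hh.1)]
  exact Finset.sum_congr rfl fun j _ => by rw [h j]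

/-- `rf` depends only on the signs. -/
lemma rf_sign (b : Blk C J) (T : Num C) (c : C) (v v' : C → ℤ)
    (h1 : ∀ c, (v c < 0 ↔ v' c < 0)) (h0 : ∀ c, (v c = 0 ↔ v' c = 0)) :
    rf b T c v = rf b T c v' := by
  unfold rf
  have hs : (∑ j, if b.χ c j then lx b T j v else 0) = ∑ j, if b.χ c j then lx b T j v' else 0 := by
    refine Finset.sum_congr rfl fun j _ => ?_
    rw [lx_sign b T j v v' (fun c _ => h1 c) (fun c _ => h0 c)]
  have h0' : (v c ≠ 0) ↔ (v' c ≠ 0) := not_congr (h0 c)
  rw [hs]
  simp only [h0', h1 c]

lemma inn_sign (e : ℤ) (h : inn e ≠ 0) : (inn e < 0 ↔ e < 0) ∧ (inn e = 0 ↔ e = 0) := by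
  unfold inn at h ⊢
  rcases lt_trichotomy e 0 with he | he | he
  · rw [Int.sign_eq_neg_one_of_neg he] at h ⊢
    constructor <;> constructor <;> intro _ <;> omega
  · subst he; simp at h
  · rw [Int.sign_eq_one_of_pos he] at h ⊢
    constructor <;> constructor <;> intro _ <;> omega

lemma inn_zero (e : ℤ) (he : e ≠ 0) (h : inn e = 0) : e = 1 ∨ e = -1 := by
  unfold inn at h
  rcases lt_trichotomy e 0 with h' | h' | h'
  · rw [Int.sign_eq_neg_one_of_neg h'] at h; right; omega
  · exact absurd h' he
  · rw [Int.sign_eq_one_of_pos h'] at h; left; omega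

/-- An increasing selfmap of a block is the identity. -/
lemma mono_id (T : Num C) (P : C → Prop) (g : C → C) (hg : ∀ p, P p → P (g p))
    (hm : ∀ p p', P p → P p' → T.n p < T.n p' → T.n (g p) < T.n (g p')) (p : C) (hp : P p) :
    g p = p := by
  have hle : ∀ n : ℕ, ∀ p, P p → T.n p = n → T.n p ≤ T.n (g p) := by
    intro n
    induction n using Nat.strong_induction_on with
    | _ n ih =>
      intro p hp hn
      by_contra hcon
      rw [not_le] at hcon
      have h1 := hm (g p) p (hg p hp) hp hcon
      have h2 := ih (T.n (g p)) (by omega) (g p) (hg p hp) rfl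
      omega
  have hge : ∀ n : ℕ, ∀ p, P p → Fintype.card C - T.n p = n → T.n (g p) ≤ T.n p := by
    intro n
    induction n using Nat.strong_induction_on with
    | _ n ih =>
      intro p hp hn
      by_contra hcon
      rw [not_le] at hcon
      have h1 := hm p (g p) hp (hg p hp) hcon
      have hlt : T.n (g p) < Fintype.card C := (T (g p)).2
      have h2 := ih (Fintype.card C - T.n (g p)) (by omega) (g p) (hg p hp) rfl
      omega
  have heq : T.n (g p) = T.n p := le_antisymm (hge _ p hp rfl) (hle _ p hp rfl)
  exact T.injective (Fin.ext heq)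

end RuAux

open RuAux in
theorem tRu : S_Ru := by
  intro C J _ _ b N T pos w hw H
  set g : C → C := fun p => T.symm (pos p) with hg
  have ginj : Function.Injective g := fun x y hxy => pos.injective (T.symm.injective hxy)
  have gn : ∀ p, T.n (g p) = pos.n p := by
    intro p
    show ((T (T.symm (pos p))) : ℕ) = (pos p : ℕ)
    rw [T.apply_symm_apply]
  have hw0 : ∀ c, w c ≠ 0 := by
    intro c
    have := hw c
    unfold ZN at this
    exact (Finset.mem_erase.1 this).1
  -- the two vertices of the step of `p`
  set V : C → C → ℤ := fun p => vert w pos.n (pos.n p) with hV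
  set V' : C → C → ℤ := fun p => vert w pos.n (pos.n p + 1) with hV'
  have posinj : ∀ c p, pos.n c = pos.n p → c = p := fun c p h => pos.injective (Fin.ext h)
  have hag : ∀ p c, c ≠ p → V p c = V' p c := by
    intro p c hc
    have hne : pos.n c ≠ pos.n p := fun h => hc (posinj c p h)
    show (if pos.n c < pos.n p then w c else inn (w c)) =
      (if pos.n c < pos.n p + 1 then w c else inn (w c))
    by_cases hlt : pos.n c < pos.n p
    · rw [if_pos hlt, if_pos (by omega)]
    · rw [if_neg hlt, if_neg (by omega)]
  have hVp : ∀ p, V p p = inn (w p) := by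
    intro p
    show (if pos.n p < pos.n p then w p else inn (w p)) = _
    rw [if_neg (lt_irrefl _)]
  have hVp' : ∀ p, V' p p = w p := by
    intro p
    show (if pos.n p < pos.n p + 1 then w p else inn (w p)) = _
    rw [if_pos (Nat.lt_succ_self _)]
  have H' : ∀ p, rf b T (g p) (V p) ≠ rf b T (g p) (V' p) := by
    intro p
    have hlt : pos.n p < Fintype.card C := (pos p).2
    have := H (pos.n p) hlt
    unfold sg at this
    rw [dif_pos hlt, dif_pos hlt] at this
    exact this
  -- (1)
  have h1 : ∀ p, inn (w p) = 0 := by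
    intro p
    by_contra hne
    have hs := inn_sign (w p) hne
    refine H' p (rf_sign b T (g p) (V p) (V' p) (fun c => ?_) (fun c => ?_))
    · by_cases hc : c = p
      · subst hc; rw [hVp, hVp']; exact hs.1
      · rw [hag p c hc]
    · by_cases hc : c = p
      · subst hc; rw [hVp, hVp']; exact hs.2
      · rw [hag p c hc]
  refine ⟨fun c => inn_zero (w c) (hw0 c) (h1 c), ?_⟩
  -- (2)
  have h2 : ∀ p, b.B p = none → g p = p := by
    intro p hp
    by_contra hne
    refine H' p (rf_congr b T (g p) (V p) (V' p) (hag p _ hne) (fun j _ => ?_))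
    refine lx_congr b T j _ _ (fun c hc => hag p c ?_)
    rintro rfl
    rw [hp] at hc
    exact absurd hc (by simp)
  -- blocks not containing `p`
  have hoff : ∀ p j j', b.B p = some j → j' ≠ j → lx b T j' (V p) = lx b T j' (V' p) := by
    intro p j j' hp hj
    refine lx_congr b T j' _ _ (fun c hc => hag p c ?_)
    rintro rfl
    rw [hp] at hc
    exact hj (Option.some.inj hc).symm
  -- (3)
  have h3 : ∀ p j, b.B p = some j → b.χ (g p) j := by
    intro p j hp
    by_cases hgp : g p = p
    · rw [hgp]; exact b.self p j hp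
    · by_contra hχ
      refine H' p (rf_congr b T (g p) (V p) (V' p) (hag p _ hgp) (fun j' hj' => ?_))
      refine hoff p j j' hp ?_
      rintro rfl
      exact hχ hj'
  have claim : ∀ n : ℕ, ∀ j, b.rank j = n → ∀ p, b.B p = some j → b.B (g p) = some j := by
    intro n
    induction n using Nat.strong_induction_on with
    | _ n ih =>
      intro j hj p hp
      rcases hB : b.B (g p) with _ | j'
      · exfalso
        have e1 := h2 (g p) hB
        have e2 := ginj e1
        rw [e2, hp] at hB
        exact absurd hB (by simp)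
      · by_cases hjj : j' = j
        · rw [hjj]
        · exfalso
          have hr : b.rank j' < b.rank j := by
            rcases b.up (g p) j' j hB (h3 p j hp) with h | h
            · exact absurd h.symm hjj
            · exact h
          have hIH := ih (b.rank j') (by omega) j' rfl
          set S : Finset C := Finset.univ.filter (fun c => b.B c = some j') with hS
          have hsub : S.image g ⊆ S := by
            intro x hx
            obtain ⟨c, hc, rfl⟩ := Finset.mem_image.1 hx
            exact Finset.mem_filter.2 ⟨Finset.mem_univ _, hIH c (Finset.mem_filter.1 hc).2⟩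
          have hcard : S.card ≤ (S.image g).card := by
            rw [Finset.card_image_of_injective _ ginj]
          have heq := Finset.eq_of_subset_of_card_le hsub hcard
          have hmem : g p ∈ S := Finset.mem_filter.2 ⟨Finset.mem_univ _, hB⟩
          rw [← heq] at hmem
          obtain ⟨p', hp', hpp'⟩ := Finset.mem_image.1 hmem
          have : p' = p := ginj hpp'
          subst this
          have h4 := (Finset.mem_filter.1 hp').2
          rw [hp] at h4
          exact hjj (Option.some.inj h4).symm
  -- (4)
  have h4 : ∀ j p p', b.B p = some j → b.B p' = some j → T.n p < T.n p' → pos.n p < pos.n p' := by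
    intro j p p' hp hp' hlt
    by_contra hcon
    have hne : pos.n p ≠ pos.n p' := by
      intro h
      have := posinj p p' h
      subst this
      exact lt_irrefl _ hlt
    have hlt' : pos.n p' < pos.n p := by omega
    have hv : V p p' ≠ 0 := by
      have : V p p' = w p' := by
        show (if pos.n p' < pos.n p then w p' else inn (w p')) = _
        rw [if_pos hlt']
      rw [this]; exact hw0 p'
    have hlx : lx b T j (V p) = lx b T j (V' p) :=
      lx_above b T j (V p) (V' p) p p' (hag p) hp' hlt hv
    have hBg : b.B (g p) = some j := claim _ j rfl p hp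
    refine H' p (rf_congr_blk b T (g p) (V p) (V' p) (by rw [hBg]; simp) (fun j' => ?_))
    by_cases hjj : j' = j
    · rw [hjj]; exact hlx
    · exact hoff p j j' hp hjj
  -- (5)
  have h5 : ∀ p, g p = p := by
    intro p
    rcases hB : b.B p with _ | j
    · exact h2 p hB
    · refine mono_id T (fun c => b.B c = some j) g (fun c hc => claim _ j rfl c hc) ?_ p hB
      intro c c' hc hc' hlt
      rw [gn, gn]
      exact h4 j c c' hc hc' hlt
  refine Equiv.ext fun p => ?_
  have := h5 p
  have h6 : T (g p) = T p := by rw [this]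
  have h7 : T (g p) = pos p := T.apply_symm_apply _
  rw [← h7, h6]

end Pool.Agent.MPc05127.PP
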