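import Pool.Agent.Lib.MP_c05127_co.PP.SpecT

/-!
# MP_c05127_co, project PP: Borsuk-Ulam for products of spheres, with Miranda directions (module Sp)
-/

set_option autoImplicit false

open scoped Classical

namespace Pool.Agent.MPc05127.PP

namespace SpAux

variable {C K J : Type}

/-- the blocks -/
private def bk (B : C → J) (χ : C → J → Prop) (χ' : K → J → Prop) (rank : J → ℕ)
    (h1 : ∀ c, χ c (B c)) (h2 : ∀ c j, χ c j → j = B c ∨ rank (B c) < rank j) :
    Blk (C ⊕ K) J where
  B := Sum.elim (fun c => some (B c)) (fun _ => none)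
  χ := fun s j => Sum.elim (fun c => χ c j) (fun a => χ' a j) s
  rank := rank
  self := by
    rintro (c | a) j h
    · have h3 : B c = j := Option.some.inj h
      rw [← h3]
      exact h1 c
    · exact absurd h (by simp)
  up := by
    rintro (c | a) j j' h h'
    · have h3 : B c = j := Option.some.inj h
      rw [← h3]
      exact h2 c j' h'
    · exact absurd h (by simp)

variable [Fintype C] [Fintype K] [Fintype J] (B : C → J) (n : J → ℕ)
  (ε : ∀ j, {c // B c = j} ≃ Fin (n j))

/-- the maximum of the coordinates of a block -/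
private noncomputable def mx (x : C ⊕ K → ℝ) (j : J) : ℝ :=
  ‖fun c : {c // B c = j} => x (Sum.inl c.1)‖

/-- the points of the spheres -/
private noncomputable def mp (x : C ⊕ K → ℝ) (j : J) (i : ℕ) : ℝ :=
  if h : i < n j then x (Sum.inl ((ε j).symm ⟨i, h⟩).1) else if i = n j then 1 - mx B x j else 0

private theorem mp_cont : Continuous (fun x : C ⊕ K → ℝ => mp B n ε x) := by
  refine continuous_pi fun j => continuous_pi fun i => ?_
  unfold mp
  by_cases h : i < n j
  · simp only [h, dif_pos]
    exact continuous_apply _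
  · by_cases h' : i = n j
    · simp only [dif_neg, h', if_true, not_false_eq_true, lt_self_iff_false]
      unfold mx
      exact continuous_const.sub (continuous_pi fun c => continuous_apply _).norm
    · simp only [h, dif_neg, h', if_false, not_false_eq_true]
      exact continuous_const

private theorem mp_dom (x : C ⊕ K → ℝ) (hx : ∀ c, |x c| ≤ 1) :
    ((mp B n ε x, fun a => x (Sum.inr a)) : (J → ℕ → ℝ) × (K → ℝ)) ∈
      (Dom n : Set ((J → ℕ → ℝ) × (K → ℝ))) := by
  refine ⟨fun j => ⟨?_, fun i hi => ?_⟩, fun a => hx _⟩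
  · by_contra hcon
    push Not at hcon
    have h1 : ∀ c : {c // B c = j}, x (Sum.inl c.1) = 0 := by
      intro c
      have h2 : mp B n ε x j (ε j c : ℕ) = 0 := hcon (ε j c : ℕ) (ε j c).2.le
      have h3 : mp B n ε x j (ε j c : ℕ) = x (Sum.inl c.1) := by
        unfold mp
        rw [dif_pos (ε j c).2, Fin.eta, Equiv.symm_apply_apply]
      rw [h3] at h2
      exact h2
    have h4 : mp B n ε x j (n j) = 0 := hcon (n j) le_rfl
    have h5 : mp B n ε x j (n j) = 1 - mx B x j := by
      unfold mp
      rw [dif_neg (lt_irrefl _), if_pos rfl]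
    rw [h5] at h4
    have h6 : mx B x j = 0 := by
      unfold mx
      rw [norm_eq_zero]
      funext c
      exact h1 c
    rw [h6] at h4
    norm_num at h4
  · show mp B n ε x j i = 0
    unfold mp
    rw [dif_neg (not_lt.2 hi.le), if_neg hi.ne']

end SpAux

open SpAux in
theorem tSp (hCu : S_Cu) : S_Sp := by
  intro C K J _ _ _ B χ χ' rank n F G hself hup hcard hFc hGc hsym hmir
  have ε : ∀ j, {c // B c = j} ≃ Fin (n j) := fun j => Fintype.equivFinOfCardEq (hcard j)
  obtain ⟨b, hb⟩ : ∃ b : Blk (C ⊕ K) J, b = bk B χ χ' rank hself hup := ⟨_, rfl⟩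
  have hcont : Continuous (fun x : C ⊕ K → ℝ => ((mp B n ε x, fun a => x (Sum.inr a)) :
      (J → ℕ → ℝ) × (K → ℝ))) :=
    (mp_cont B n ε).prodMk (continuous_pi fun a => continuous_apply _)
  have hmaps : Set.MapsTo (fun x : C ⊕ K → ℝ => ((mp B n ε x, fun a => x (Sum.inr a)) :
      (J → ℕ → ℝ) × (K → ℝ))) {x | ∀ c', |x c'| ≤ 1} (Dom n) := fun x hx => mp_dom B n ε x hx
  obtain ⟨f, hfdef⟩ : ∃ f : C ⊕ K → (C ⊕ K → ℝ) → ℝ, f = fun s x =>
      Sum.elim (fun c => F c (mp B n ε x) (fun a => x (Sum.inr a)))
      (fun a => G a (mp B n ε x) (fun a => x (Sum.inr a))) s := ⟨_, rfl⟩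
  suffices h : ∃ x : C ⊕ K → ℝ, (∀ c, |x c| ≤ 1) ∧ ∀ c, f c x = 0 by
    obtain ⟨x, hx, hf⟩ := h
    rw [hfdef] at hf
    exact ⟨_, mp_dom B n ε x hx, fun c => hf (Sum.inl c), fun a => hf (Sum.inr a)⟩
  rw [hfdef]
  refine hCu (C ⊕ K) J b _ ?_ ?_ ?_
  · rintro (c | a)
    · exact (hFc c).comp hcont.continuousOn hmaps
    · exact (hGc a).comp hcont.continuousOn hmaps
  · intro j x hx hex
    obtain ⟨s, hs, hs1⟩ := hex
    rcases s with c0 | a0
    swap
    · rw [hb] at hs
      exact absurd hs (by simp [bk])
    have hc0 : B c0 = j := by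
      rw [hb] at hs
      exact Option.some.inj hs
    have hRl : ∀ c, b.R j (Sum.inl c) ↔ B c = j := by
      intro c
      rw [hb]
      unfold Blk.R
      simp [bk]
    have hRr : ∀ a, b.R j (Sum.inr a) ↔ χ' a j := by
      intro a
      rw [hb]
      unfold Blk.R
      simp [bk]
    have hfl : ∀ c, flip (b.R j) x (Sum.inl c) = if B c = j then -x (Sum.inl c) else x (Sum.inl c) := by
      intro c
      unfold flip
      simp only [hRl]
    have hfr : (fun a => flip (b.R j) x (Sum.inr a)) =
        flip (fun a => χ' a j) (fun a => x (Sum.inr a)) := by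
      funext a
      unfold flip
      simp only [hRr]
    have hmx : mx B x j = 1 := by
      refine le_antisymm ?_ ?_
      · unfold mx
        rw [pi_norm_le_iff_of_nonneg zero_le_one]
        intro c
        exact hx _
      · unfold mx
        have h1 := norm_le_pi_norm (fun c : {c // B c = j} => x (Sum.inl c.1)) ⟨c0, hc0⟩
        simp only [Real.norm_eq_abs] at h1
        rw [hs1] at h1
        exact h1
    have hmp : mp B n ε (flip (b.R j) x) = flX j (mp B n ε x) := by
      funext j' i
      unfold flX
      by_cases hj : j' = j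
      · subst hj
        rw [Function.update_self, Pi.neg_apply]
        have hmx' : mx B (flip (b.R j') x) j' = 1 := by
          have h2 : (fun c : {c // B c = j'} => flip (b.R j') x (Sum.inl c.1)) =
              -fun c : {c // B c = j'} => x (Sum.inl c.1) := by
            funext c
            rw [hfl, if_pos c.2, Pi.neg_apply]
          unfold mx
          rw [h2, norm_neg]
          exact hmx
        unfold mp
        by_cases h : i < n j'
        · rw [dif_pos h, dif_pos h, hfl, if_pos ((ε j').symm ⟨i, h⟩).2]
        · by_cases h' : i = n j'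
          · rw [dif_neg h, dif_neg h, if_pos h', if_pos h', hmx, hmx']
            norm_num
          · rw [dif_neg h, dif_neg h, if_neg h', if_neg h', neg_zero]
      · rw [Function.update_of_ne hj]
        have hmx' : mx B (flip (b.R j) x) j' = mx B x j' := by
          unfold mx
          congr 1
          funext c
          rw [hfl, if_neg (by rw [c.2]; exact hj)]
        unfold mp
        by_cases h : i < n j'
        · rw [dif_pos h, dif_pos h, hfl,
            if_neg (by rw [((ε j').symm ⟨i, h⟩).2]; exact hj)]
        · by_cases h' : i = n j'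
          · rw [dif_neg h, dif_neg h, if_pos h', if_pos h', hmx']
          · rw [dif_neg h, dif_neg h, if_neg h', if_neg h']
    obtain ⟨hF, hG⟩ := hsym j _ (mp_dom B n ε x hx)
    rintro (c | a)
    · have h3 : b.χ (Sum.inl c) j ↔ χ c j := by
        rw [hb]
        rfl
      have h4 := hF c
      simp only at h4
      show F c (mp B n ε (flip (b.R j) x)) (fun a => flip (b.R j) x (Sum.inr a)) = _
      rw [hmp, hfr, h4]
      simp only [h3, Sum.elim_inl]
    · have h3 : b.χ (Sum.inr a) j ↔ χ' a j := by
        rw [hb]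
        rfl
      have h4 := hG a
      simp only at h4
      show G a (mp B n ε (flip (b.R j) x)) (fun a => flip (b.R j) x (Sum.inr a)) = _
      rw [hmp, hfr, h4]
      simp only [h3, Sum.elim_inr]
  · rintro (c | a) hc x hx
    · rw [hb] at hc
      exact absurd hc (by simp [bk])
    · exact hmir a _ (mp_dom B n ε x hx)

end Pool.Agent.MPc05127.PP
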