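import Pool.Agent.Lib.MP_c05127_co.PP.SpecG

/-!
# MP_c05127_co, project PP: `S_Zr`, the common zero
-/

set_option autoImplicit false

open scoped Classical

namespace Pool.Agent.MPc05127.PP

private theorem cardEq {α : Type} (i1 i2 : Fintype α) : @Fintype.card α i1 = @Fintype.card α i2 := by
  rw [Subsingleton.elim i1 i2]

theorem tZr (hSp : S_Sp) (hBl : S_Bl) (hFc : S_Fc) (hFs : S_Fs) (hFm : S_Fm) : S_Zr := by
  intro d k h1 hk e a
  obtain ⟨z, hz, h1, h2⟩ := hSp (Cx k e) (Fin k) (Jx k e) BB XX (fun b j => XK b j) rk nn (fun c => fn a c) (fun b => gn a b)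
    (fun c => (hBl _ k e c).1) (fun c j h => (hBl _ k e c).2 j h) (fun _ => cardEq _ _)
    (hFc _ k d e a).1 (hFc _ k d e a).2
    (fun j z hz => hFs _ k d e a j z hz)
    (fun b z hz => (hFm d k h1 hk e a z hz).2 b)
  exact ⟨z, hz, h1, h2⟩

end Pool.Agent.MPc05127.PP
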