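import Pool.Agent.Lib.MP_c05127_co.PP.Bl
import Pool.Agent.Lib.MP_c05127_co.PP.Cb
import Pool.Agent.Lib.MP_c05127_co.PP.Ct
import Pool.Agent.Lib.MP_c05127_co.PP.Cu
import Pool.Agent.Lib.MP_c05127_co.PP.Fc
import Pool.Agent.Lib.MP_c05127_co.PP.Fi
import Pool.Agent.Lib.MP_c05127_co.PP.Fm
import Pool.Agent.Lib.MP_c05127_co.PP.Fo
import Pool.Agent.Lib.MP_c05127_co.PP.Fs
import Pool.Agent.Lib.MP_c05127_co.PP.Geo
import Pool.Agent.Lib.MP_c05127_co.PP.In
import Pool.Agent.Lib.MP_c05127_co.PP.It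
import Pool.Agent.Lib.MP_c05127_co.PP.Iv
import Pool.Agent.Lib.MP_c05127_co.PP.Ku
import Pool.Agent.Lib.MP_c05127_co.PP.Le
import Pool.Agent.Lib.MP_c05127_co.PP.Lz
import Pool.Agent.Lib.MP_c05127_co.PP.Pc
import Pool.Agent.Lib.MP_c05127_co.PP.Pe
import Pool.Agent.Lib.MP_c05127_co.PP.Pf
import Pool.Agent.Lib.MP_c05127_co.PP.Re
import Pool.Agent.Lib.MP_c05127_co.PP.Rf
import Pool.Agent.Lib.MP_c05127_co.PP.Ru
import Pool.Agent.Lib.MP_c05127_co.PP.Sp
import Pool.Agent.Lib.MP_c05127_co.PP.Tr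
import Pool.Agent.Lib.MP_c05127_co.PP.Zr

/-!
# MP_c05127_co, project PP: the composition of the modules (the cube theorem, and the vector statement for `p = 2`)
-/

set_option autoImplicit false

namespace Pool.Agent.MPc05127.PP

/-- Borsuk-Ulam for products of spheres with Miranda directions (group `(ℤ/2)^J`, triangular characters). -/
theorem allSp : S_Sp :=
  tSp (tCu tRf (tCb (tIv tLz tFi tFo) tRf (tRe tRu tTr)))

/-- The facts on `len`. -/
theorem allLe : S_Le := tLe tKu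

/-- The vector statement for powers of two. -/
theorem allGeo : S_Geo := by
  have hLe := allLe
  have hPe := tPe hLe
  have hPf := tPf hLe
  have hFm := tFm tCt
  exact tGeo tCt (tZr allSp tBl (tFc (tPc tKu hLe)) (tFs hPe) hFm) (tIn hPe hPf hFm)
    (tIt hPe hPf hFm)

end Pool.Agent.MPc05127.PP
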