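import Pool.Agent.Lib.MP_c05127_co.PP.SpecG

/-!
# MP_c05127_co, project PP: the characters are triangular
-/

set_option autoImplicit false

open scoped Classical

namespace Pool.Agent.MPc05127.PP

theorem tBl : S_Bl := by
  intro m k e c
  rcases c with ⟨i, χ, o⟩ | p | ⟨b, i⟩
  · constructor
    · change ∃ t ∈ χ.1, (⟨i, χ.1.min' χ.2⟩ : Σ i : Fin m, Fin (e i)) = ⟨i, t⟩
      exact ⟨χ.1.min' χ.2, χ.1.min'_mem χ.2, rfl⟩
    · intro j hj
      rcases j with j | b
      · obtain ⟨t, ht, hjt⟩ : ∃ t ∈ χ.1, j = ⟨i, t⟩ := hj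
        subst hjt
        have hle : χ.1.min' χ.2 ≤ t := χ.1.min'_le t ht
        rcases hle.eq_or_lt with h | h
        · left
          change (Sum.inl ⟨i, t⟩ : Jx k e) = Sum.inl ⟨i, χ.1.min' χ.2⟩
          rw [h]
        · right
          change ((χ.1.min' χ.2 : Fin (e i)) : ℕ) < ((t : Fin (e i)) : ℕ)
          exact h
      · right
        change ((χ.1.min' χ.2 : Fin (e i)) : ℕ) < (∑ i, e i) + 1 + (b : ℕ)
        have h1 : ((χ.1.min' χ.2 : Fin (e i)) : ℕ) < e i := (χ.1.min' χ.2).isLt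
        have h2 : e i ≤ ∑ i, e i :=
          Finset.single_le_sum (f := fun i => e i) (fun _ _ => Nat.zero_le _) (Finset.mem_univ i)
        omega
  · constructor
    · change (Sum.inr p.1.1 : Jx k e) = Sum.inr p.1.1 ∨ (Sum.inr p.1.1 : Jx k e) = Sum.inr p.1.2
      exact Or.inl rfl
    · intro j hj
      have hj' : j = Sum.inr p.1.1 ∨ j = Sum.inr p.1.2 := hj
      rcases hj' with h | h
      · left
        exact h
      · right
        subst h
        change (∑ i, e i) + 1 + (p.1.1 : ℕ) < (∑ i, e i) + 1 + (p.1.2 : ℕ)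
        have h3 : (p.1.1 : ℕ) < (p.1.2 : ℕ) := p.2
        omega
  · constructor
    · change (Sum.inr b : Jx k e) = Sum.inr b
      rfl
    · intro j hj
      left
      exact hj

end Pool.Agent.MPc05127.PP
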