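import Mathlib

/-!
# MP_c05127_co, project PP (all `r i` powers of two): definitions of part T (the cube theorem)
-/

set_option autoImplicit false

open scoped Classical

namespace Pool.Agent.MPc05127.PP

/-! ### Negation of some coordinates -/

/-- Negation of the coordinates in `S`. -/
noncomputable def flip {C X : Type} [Neg X] (S : C → Prop) (v : C → X) : C → X :=
  fun c => if S c then -v c else v c

/-! ### Blocks and characters -/

/-- The combinatorial data of the cube theorem. `B c = some j`: the coordinate `c` belongs to the block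
`j`; `B c = none`: `c` is a Miranda coordinate. There is one function for every coordinate; `χ c j`: the
function of `c` changes its sign under the flip of the block `j`. -/
structure Blk (C J : Type) where
  B : C → Option J
  χ : C → J → Prop
  rank : J → ℕ
  self : ∀ c j, B c = some j → χ c j
  up : ∀ c j j', B c = some j → χ c j' → j' = j ∨ rank j < rank j'

section

variable {C J : Type}

/-- The coordinates negated by the flip of the block `j`. -/
def Blk.R (b : Blk C J) (j : J) (c : C) : Prop := b.B c = some j ∨ (b.B c = none ∧ b.χ c j)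

/-- Grid points of `[-N, N]^C`. -/
def Gr (C : Type) (N : ℕ) : Set (C → ℤ) := {v | ∀ c, |v c| ≤ N}

/-- The conditions on the signs (`0` positive, `1` negative) of the functions at the grid points. -/
structure Blk.Ok (b : Blk C J) (N : ℕ) (s : C → (C → ℤ) → ZMod 2) : Prop where
  blk : ∀ (j : J) (v : C → ℤ), v ∈ Gr C N → (∃ c, b.B c = some j ∧ |v c| = N) → ∀ c,
    s c (flip (b.R j) v) = s c v + if b.χ c j then 1 else 0
  mir : ∀ (c : C) (v : C → ℤ), v ∈ Gr C N → b.B c = none →
    (v c = N → s c v = 0) ∧ (v c = -(N : ℤ) → s c v = 1)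

/-! ### Simplices of the grid -/

/-- The neighbour of `e` in the direction of `0`. -/
def inn (e : ℤ) : ℤ := e - e.sign

/-- The nonzero integers of absolute value at most `N`. -/
noncomputable def ZN (N : ℕ) : Finset ℤ := (Finset.Icc (-(N : ℤ)) N).erase 0

/-- The vertex with the number `l` of the simplex `(w, pos)`: the coordinate `c` moves from `inn (w c)` to
`w c` between the vertices `pos c` and `pos c + 1`. -/
noncomputable def vert (w : C → ℤ) (pos : C → ℕ) (l : ℕ) : C → ℤ := fun c => if pos c < l then w c else inn (w c)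

/-- Omit the entry `i` of a sequence. -/
noncomputable def skip {V : Type} (i : ℕ) (v : ℕ → V) : ℕ → V := fun l => if l < i then v l else v (l + 1)

/-- The cup product of the coboundaries of `σ 0, …, σ (D-1)` on the simplex `v 0, …, v D`. -/
noncomputable def alt {V : Type} (D : ℕ) (σ : ℕ → V → ZMod 2) (v : ℕ → V) : ZMod 2 :=
  ∏ l ∈ Finset.range D, (σ l (v l) + σ l (v (l + 1)))

/-- The cup product of the coboundaries of the `σ l`, with the function `β` at the place `m`. -/
noncomputable def bb {V : Type} (D m : ℕ) (σ : ℕ → V → ZMod 2) (β : V → ZMod 2) (u : ℕ → V) : ZMod 2 :=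
  (∏ l ∈ Finset.range m, (σ l (u l) + σ l (u (l + 1)))) * β (u m) *
    ∏ l ∈ Finset.Ico (m + 1) D, (σ l (u (l - 1)) + σ l (u l))

variable [Fintype C]

/-- The numberings of the coordinates. -/
abbrev Num (C : Type) [Fintype C] : Type := C ≃ Fin (Fintype.card C)

/-- A numbering as a function. -/
def Num.n (T : Num C) (c : C) : ℕ := (T c : ℕ)

/-- The function used in the step from the vertex `l` to the vertex `l + 1`: the one of the coordinate
with the number `l`. -/
noncomputable def sg (T : Num C) (s : C → (C → ℤ) → ZMod 2) (l : ℕ) (v : C → ℤ) : ZMod 2 :=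
  if h : l < Fintype.card C then s (T.symm ⟨l, h⟩) v else 0

/-- The number (mod 2) of the alternating simplices. -/
noncomputable def tsum (N : ℕ) (T : Num C) (s : C → (C → ℤ) → ZMod 2) : ZMod 2 :=
  ∑ w ∈ Fintype.piFinset (fun _ : C => ZN N), ∑ pos : Num C,
    alt (Fintype.card C) (sg T s) (vert w pos.n)

/-! ### The reference signs -/

/-- The sign of the block `j`: the sign of the nonzero coordinate with the largest number. -/
noncomputable def lx (b : Blk C J) (T : Num C) (j : J) (v : C → ℤ) : ZMod 2 :=
  if ∃ c, b.B c = some j ∧ v c < 0 ∧ ∀ c', b.B c' = some j → T.n c < T.n c' → v c' = 0 then 1 else 0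

/-- The reference signs. -/
noncomputable def rf [Fintype J] (b : Blk C J) (T : Num C) (c : C) (v : C → ℤ) : ZMod 2 :=
  if b.B c = none ∧ v c ≠ 0 then (if v c < 0 then 1 else 0)
  else ∑ j, if b.χ c j then lx b T j v else 0

end

/-! ### Products of spheres -/

section

variable {J K : Type}

/-- The domain: for every `j` a point `X j ≠ 0` of `ℝ^(n j + 1)`, and a point `y` of a cube. -/
def Dom (n : J → ℕ) : Set ((J → ℕ → ℝ) × (K → ℝ)) :=
  {z | (∀ j, (∃ i ≤ n j, z.1 j i ≠ 0) ∧ ∀ i, n j < i → z.1 j i = 0) ∧ ∀ a, |z.2 a| ≤ 1}

/-- Negation of `X j`. -/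
noncomputable def flX (j : J) (X : J → ℕ → ℝ) : J → ℕ → ℝ := Function.update X j (-X j)

end

end Pool.Agent.MPc05127.PP
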