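import Pool.Agent.Lib.MP_c05127_co.PP.SpecG

/-!
# MP_c05127_co, project PP: zeros in the interior
-/

set_option autoImplicit false

open scoped Classical

namespace Pool.Agent.MPc05127.PP

private theorem It_ta {k : ℕ} {y : Fin k → ℝ} (h : ‖y‖ < 1 / 2) : 0 < ta y := by
  unfold ta
  exact lt_max_of_lt_right (by linarith)

private theorem It_si {k : ℕ} {y : Fin k → ℝ} (h : ‖y‖ < 1 / 2) : si y = 0 := by
  unfold si
  exact max_eq_left (by linarith)

private theorem It_sum {m k d : ℕ} {e : Fin m → ℕ} (a : Fin m → ℕ → E d)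
    (X : Jx k e → ℕ → ℝ) (y : Fin k → ℝ) (i : Fin m) (c : Fin k → ℝ) (h : ℕ) :
    ∑ b, c b * FF a X y i b h =
      (ta y - inner ℝ (a i h) (uu d X y)) * inner ℝ (a i h) (∑ b, c b • vv d X b) := by
  rw [inner_sum, Finset.mul_sum]
  refine Finset.sum_congr rfl fun b _ => ?_
  rw [inner_smul_right]
  unfold FF
  ring

theorem tIt (hPe : S_Pe) (hPf : S_Pf) (hFm : S_Fm) : S_It := by
  intro d k hk hkd e a z hz hf hg hy
  obtain ⟨hv0, -⟩ := hFm d k hk hkd e a z hz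
  have hort : Pairwise fun b b' => inner ℝ (vv d z.1 b) (vv d z.1 b') = (0 : ℝ) := by
    intro b b' hbb
    rcases lt_or_gt_of_ne hbb with h | h
    · exact hf (Sum.inr (Sum.inl ⟨(b, b'), h⟩))
    · rw [real_inner_comm]
      exact hf (Sum.inr (Sum.inl ⟨(b', b), h⟩))
  have hli : LinearIndependent ℝ (fun b => vv d z.1 b) :=
    linearIndependent_of_ne_zero_of_inner_eq_zero hv0 hort
  have hτ := It_ta hy
  have hσ := It_si hy
  have hdom : ∀ i, xx z.1 i ∈ DomF (ni k e i) := fun i t => (hz.1 (Sum.inl ⟨i, t⟩)).1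
  have hph : ∀ i b χ, ph (ni k e i) (xx z.1 i) χ (FF a z.1 z.2 i b) = 0 := by
    intro i b χ
    rcases χ.eq_empty_or_nonempty with rfl | hχ
    · by_cases hi : (i : ℕ) = 0
      · have hi0 : i = 0 := Fin.ext hi
        subst hi0
        have h := hg b
        unfold gn at h
        rw [hσ] at h
        linarith
      · exact hf (Sum.inr (Sum.inr (b, ⟨i, hi⟩)))
    · exact hf (Sum.inl ⟨i, ⟨χ, hχ⟩, some b⟩)
  have hu : uu d z.1 z.2 ∈ Submodule.span ℝ (Set.range fun b => vv d z.1 b) := by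
    unfold uu
    exact Submodule.sum_mem _ fun b _ =>
      Submodule.smul_mem _ _ (Submodule.subset_span ⟨b, rfl⟩)
  refine ⟨fun b => vv d z.1 b, (ta z.2)⁻¹ • uu d z.1 z.2, hli,
    Submodule.smul_mem _ _ hu, fun i => ?_⟩
  obtain ⟨P, hP1, hP2, -, hP4, -⟩ := hPf (e i) (ni k e i) (xx z.1 i) (hdom i)
    (fun χ hχ => hf (Sum.inl ⟨i, ⟨χ, hχ⟩, none⟩))
  refine ⟨P, hP1, hP2, fun g w hw => ?_⟩
  obtain ⟨c, rfl⟩ := (Submodule.mem_span_range_iff_exists_fun ℝ).1 hw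
  have hF : ∀ χ, ph (ni k e i) (xx z.1 i) χ
      (fun h => ∑ b, c b * FF a z.1 z.2 i b h) = 0 := by
    intro χ
    rw [((hPe (e i) (ni k e i) (xx z.1 i) (hdom i) χ).2.2 (Fin k) c
      (fun b => FF a z.1 z.2 i b))]
    exact Finset.sum_eq_zero fun b _ => by rw [hph, mul_zero]
  obtain ⟨h, hh, hpos⟩ := hP4 _ hF g
  refine ⟨h, hh, ?_⟩
  rw [It_sum] at hpos
  rw [inner_smul_right]
  set A := inner ℝ (a i h) (uu d z.1 z.2) with hA
  set W := inner ℝ (a i h) (∑ b, c b • vv d z.1 b) with hW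
  have h1 : ((ta z.2)⁻¹ * A - 1) * W = -((ta z.2)⁻¹ * ((ta z.2 - A) * W)) := by
    field_simp
    ring
  have h2 : 0 ≤ (ta z.2)⁻¹ * ((ta z.2 - A) * W) := mul_nonneg (inv_nonneg.2 hτ.le) hpos
  linarith

end Pool.Agent.MPc05127.PP
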