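import Pool.Agent.Lib.MP_c05127_co.PP.Brief

set_option autoImplicit false

/-!
# MP_c05127_co, project PP, the END: from vectors to hyperplanes, and general position

Every statement is a proposition `S_X`; the module `X.lean` proves `wX : (hypotheses named in the docstring) → S_X`.
-/

open scoped Classical

namespace Pool.Agent.Lib.MP_c05127_co.PP

open Pool.Agent.Lib.MP_c05127_co.Brief

/-- (Geo) THE VECTOR STATEMENT, proved by the modules of the other Spec files of this folder (it is only a HYPOTHESIS here). -/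
def S_Geo : Prop :=
  ∀ (d k : ℕ), 1 ≤ k → k ≤ d → ∀ (e : Fin (d - k + 1) → ℕ)
    (a : (i : Fin (d - k + 1)) → Fin ((k + 1) * (2 ^ e i - 1) + 1) → E d),
    (∀ u : E d, u ≠ 0 → ∃ i, (Finset.univ.filter (fun l => inner ℝ (a i l) u = (0 : ℝ))).card < 2 ^ e i) →
    ∃ (v : Fin k → E d) (q : E d), LinearIndependent ℝ v ∧ q ∈ Submodule.span ℝ (Set.range v) ∧
      ∀ i, ∃ P : Fin (2 ^ e i) → Finset (Fin ((k + 1) * (2 ^ e i - 1) + 1)),
        (∀ j j', j ≠ j' → Disjoint (P j) (P j')) ∧
        ∀ j, ∀ w ∈ Submodule.span ℝ (Set.range v), ∃ l ∈ P j, (inner ℝ (a i l) q - 1) * inner ℝ (a i l) w ≤ (0 : ℝ)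

/-- (Fink, 150 lines; uses `S_Geo`) From vectors to hyperplanes. The module `Pool/Agent/Lib/MP_c05127_co/Fin.lean` does this for `k = 2`;
copy it. PROOF. `r i = 2 ^ e i` (`choose`, `subst`-like: `obtain rfl : r = fun i => 2 ^ e i := funext _`). Enumerate `A i` by
`Fin ((k + 1) * (2 ^ e i - 1) + 1)` (`Finset.equivFinOfCardEq`); normal vectors from `Pool.Agent.Lib.MP_c05127_co.hypStmt` (file `Hyp.lean`,
import it; `E d` there is the same type). `S_Geo` gives `v`, `q`, `P`; `L = span (range v)`, dimension `k` (`finrank_span_eq_card`,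
`Fintype.card_fin`); `v ⟨0, _⟩ ≠ 0` is a nonzero vector of `L` (needed for `1 ≤ RD`: the infimum is over a nonempty set, so it is attained,
`Nat.sInf_mem`). The parts: `c h = j` if `h` is the member number `l` with `l ∈ P j`, and `c h = 0` if there is no such `j` (`2 ^ e i > 0`); the part `j` is
`(A i).filter (c · = j)`. For `v' ∈ L`, `v' ≠ 0` the `l ∈ P j` given by `S_Geo` for `w = v'` has `(⟪a, q⟫ - 1) ⟪a, v'⟫ ≤ 0`, so `Hits h q v'`: if `⟪a, v'⟫ = 0` the direction is
parallel, otherwise `t = (1 - ⟪a, q⟫) / ⟪a, v'⟫ ≥ 0` (`FinMod.hits_of` in `Fin.lean`, and `FinMod.one_le_RD`; the definitions of `Brief` and of `Stmt` are definitionally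
equal, `concl_iff` in `Brief.lean` shows how to pass from one to the other). -/
def S_Fink : Prop :=
  ∀ (d k : ℕ) (r : Fin (d - k + 1) → ℕ) (A : Fin (d - k + 1) → Finset (Aff d)),
    1 ≤ k → k ≤ d → (∀ i, ∃ e, r i = 2 ^ e) → (∀ i, IsArr (A i)) →
    (∀ i, (A i).card = (k + 1) * (r i - 1) + 1) → NoDirK r A → ConclK k r A

/-- (Gen1k, 60 lines) Compare `Pool/Agent/Lib/MP_c05127_co/Gen1.lean`. PROOF. Let `u ≠ 0` and suppose that for every `i` at least `r i` members `h` of `A i` have
`u ∈ dir h`; let `B i` be the set of these members, `B = Finset.univ.biUnion B`; the `B i` are disjoint (first part of `GenPosK`), so `B.card = ∑ i, (B i).card ≥ d`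
(`Finset.card_biUnion`). Choose `S ⊆ B` with `S.card = d` (`Finset.exists_subset_card_eq`). The second part gives `dim (meet S) + d = d`, so `meet S = ⊥`
(`Submodule.finrank_eq_zero`), but `u ∈ meet S` (`Submodule.mem_iInf` twice). Contradiction to `u ≠ 0`. -/
def S_Gen1k : Prop :=
  ∀ (d m : ℕ) (r : Fin m → ℕ) (A : Fin m → Finset (Aff d)), GenPosK A → d ≤ ∑ i, r i → NoDirK r A

/-- (Gen2k, 200 lines) Compare `Pool/Agent/Lib/MP_c05127_co/Gen2.lean` (there all `r i = 1`). PROOF. For every `i` choose `B i ⊆ A i` with `(B i).card = r i` (`Finset.exists_subset_card_eq`),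
and `S = Finset.univ.biUnion B`; the `B i` are disjoint, so `S.card = ∑ i, r i ≤ d`, and `dim (meet S) + S.card = d`. Every `h ∈ S` has a normal vector `a h` with
`x ∈ h ↔ ⟪a h, x⟫ = 1`, `x ∈ dir h ↔ ⟪a h, x⟫ = 0` (`Pool.Agent.Lib.MP_c05127_co.hypStmt`, file `Hyp.lean`, applied to `IsArr`). The linear map `Φ : E d → (S → ℝ)`, `x ↦ (⟪a h, x⟫)_h`, has the kernel `meet S`, so its
rank is `d - dim (meet S) = S.card` and it is surjective: there is `q` with `⟪a h, q⟫ = 1`, that is `q ∈ h`, for all `h ∈ S`. `S` is not empty (`0 < m`, `1 ≤ r i`), so `q ≠ 0` (the members do not contain `0`). There is a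
subspace `L` of dimension `k` containing `q` (for instance: `span {q} ≤ ⊤`, `finrank (span {q}) = 1 ≤ k ≤ d`; extend `q` to a basis, or use `Submodule.exists_finrank_eq...`; or by induction: if `q ∈ L`, `dim L < d`,
choose `x ∉ L` and take `L ⊔ span {x}`). The parts of `A i`: enumerate `B i` by `Fin (r i)`, `f j` its member number `j`; the part `j` is `{f j}` for `j ≠ 0` and `(A i) \ ((B i).erase (f 0))` for `j = 0`.
Every part contains a member `h` with `q ∈ h`, so `Hits h q v` for all `v` (`t = 0`) and `1 ≤ RD` (the infimum is over a nonempty set because `q ∈ L`, `q ≠ 0`, see `Gen2.one_le_RD`). -/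
def S_Gen2k : Prop :=
  ∀ (d k m : ℕ) (r : Fin m → ℕ) (A : Fin m → Finset (Aff d)), 0 < m → 1 ≤ k → k ≤ d → (∀ i, 1 ≤ r i) →
    (∀ i, IsArr (A i)) → (∀ i, r i ≤ (A i).card) → GenPosK A → ∑ i, r i ≤ d → ConclK k r A

/-- (Final, 40 lines; uses `S_Fink`, `S_Gen1k`, `S_Gen2k`, in this order) PROOF. `NoDirK`: `S_Fink`. `GenPosK`: if `d ≤ ∑ i, r i` then `NoDirK` holds by `S_Gen1k`; otherwise
`S_Gen2k` (`1 ≤ 2 ^ e`, `r ≤ (k + 1) (r - 1) + 1`). -/
def S_FinalE : Prop := S_Final

end Pool.Agent.Lib.MP_c05127_co.PP
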