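import Pool.Agent.Lib.MP_c05127_co.PP.SpecT

/-!
# MP_c05127_co, project PP: a triangular system has one solution
-/

set_option autoImplicit false

open scoped Classical

namespace Pool.Agent.MPc05127.PP

theorem tTr : S_Tr := by
  intro D
  induction D with
  | zero => intro q hq; simp
  | succ D ih =>
    intro q hq
    have e := (Fin.snocEquiv (fun _ : Fin (D + 1) => Bool)).sum_comp
      (fun w : Fin (D + 1) → Bool => ∏ l, ((if w l then (1 : ZMod 2) else 0) + q l w))
    rw [← e, Fintype.sum_prod_type, Finset.sum_comm]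
    have h1 : ∀ w : Fin D → Bool, ∑ a : Bool, ∏ l : Fin (D + 1),
        ((if (Fin.snocEquiv (fun _ : Fin (D + 1) => Bool)) (a, w) l then (1 : ZMod 2) else 0) +
          q l ((Fin.snocEquiv (fun _ : Fin (D + 1) => Bool)) (a, w))) =
        ∏ l : Fin D, ((if w l then (1 : ZMod 2) else 0) +
          q l.castSucc (Fin.snoc (α := fun _ : Fin (D + 1) => Bool) w false)) := by
      intro w
      have h2 : ∀ a : Bool, ∀ l : Fin (D + 1),
          q l (Fin.snoc (α := fun _ : Fin (D + 1) => Bool) w a) =
          q l (Fin.snoc (α := fun _ : Fin (D + 1) => Bool) w false) := by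
        intro a l
        apply hq
        intro i hi
        have hi' : (i : ℕ) < D := lt_of_lt_of_le (Fin.lt_def.1 hi) (Nat.lt_succ_iff.1 l.2)
        have : i = Fin.castSucc ⟨i, hi'⟩ := rfl
        rw [this, Fin.snoc_castSucc, Fin.snoc_castSucc]
      have h3 : ∀ a : Bool, ∏ l : Fin (D + 1),
          ((if (Fin.snocEquiv (fun _ : Fin (D + 1) => Bool)) (a, w) l then (1 : ZMod 2) else 0) +
            q l ((Fin.snocEquiv (fun _ : Fin (D + 1) => Bool)) (a, w))) =
          (∏ l : Fin D, ((if w l then (1 : ZMod 2) else 0) +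
            q l.castSucc (Fin.snoc (α := fun _ : Fin (D + 1) => Bool) w false))) *
          ((if a then (1 : ZMod 2) else 0) +
            q (Fin.last D) (Fin.snoc (α := fun _ : Fin (D + 1) => Bool) w false)) := by
        intro a
        rw [Fin.prod_univ_castSucc]
        congr 1
        · apply Finset.prod_congr rfl
          intro l _
          show (if Fin.snoc (α := fun _ : Fin (D + 1) => Bool) w a l.castSucc then (1 : ZMod 2) else 0) +
            q l.castSucc (Fin.snoc (α := fun _ : Fin (D + 1) => Bool) w a) = _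
          rw [h2 a, Fin.snoc_castSucc]
        · show (if Fin.snoc (α := fun _ : Fin (D + 1) => Bool) w a (Fin.last D) then (1 : ZMod 2) else 0) +
            q (Fin.last D) (Fin.snoc (α := fun _ : Fin (D + 1) => Bool) w a) = _
          rw [h2 a, Fin.snoc_last]
      rw [Finset.sum_congr rfl (fun a _ => h3 a), ← Finset.mul_sum]
      have h4 : ∀ c : ZMod 2, ∑ a : Bool, ((if a then (1 : ZMod 2) else 0) + c) = 1 := by
        intro c
        rw [Fintype.sum_bool]
        revert c
        decide
      rw [h4, mul_one]
    rw [Finset.sum_congr rfl (fun w _ => h1 w)]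
    apply ih (fun l w => q l.castSucc (Fin.snoc (α := fun _ : Fin (D + 1) => Bool) w false))
    intro l w w' h
    apply hq
    intro i hi
    have hi0 : (i : ℕ) < l := Fin.lt_def.1 hi
    have hi' : (i : ℕ) < D := lt_trans hi0 l.2
    have h5 : i = Fin.castSucc ⟨i, hi'⟩ := rfl
    rw [h5, Fin.snoc_castSucc, Fin.snoc_castSucc]
    exact h ⟨i, hi'⟩ (Fin.lt_def.2 hi0)

end Pool.Agent.MPc05127.PP
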